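import Mathlib

set_option autoImplicit false
open MeasureTheory Set Filter Topology
open scoped ENNReal

noncomputable section
namespace Pool.Agent.H649R3.Adams

/-- pure inequality: `j ≤ τ + b²` -/
lemma level_le {j τ b l : ℝ} (hj : 0 ≤ j) (hτ : 0 ≤ τ) (hl0 : 0 ≤ l) (hl1 : l ≤ 1)
    (h : √j ≤ √τ * √(1 - l) + b * √l) : j ≤ τ + b ^ 2 := by
  have h0 : 0 ≤ √j := Real.sqrt_nonneg _
  have h1 : j ≤ (√τ * √(1 - l) + b * √l) ^ 2 := by
    calc j = √j ^ 2 := (Real.sq_sqrt hj).symm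
      _ ≤ _ := pow_le_pow_left₀ h0 h 2
  have h2 : (√τ * √(1 - l) + b * √l) ^ 2 ≤ (√τ ^ 2 + b ^ 2) * (√(1 - l) ^ 2 + √l ^ 2) := by
    nlinarith [sq_nonneg (√τ * √l - b * √(1 - l))]
  rw [Real.sq_sqrt hτ, Real.sq_sqrt (by linarith), Real.sq_sqrt hl0] at h2
  linarith

lemma pair_core {x y z b n R : ℝ} (hx : 0 ≤ x) (hy : 0 ≤ y) (hz : 0 ≤ z) (hb : 1 ≤ b)
    (hn : 0 ≤ n) (hR : 0 ≤ R) (hyz : z ^ 2 + y ^ 2 = 1)
    (h1 : x ^ 2 - n ≤ (x * z + b * y) ^ 2)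
    (h2 : x ^ 2 + R ^ 2 - n ≤ (x * z + (R + b) * y) ^ 2)
    (hl : 16 * n + 48 * b ^ 2 ≤ x ^ 2) : R ^ 2 ≤ 22 * n + 64 * b ^ 2 := by
  obtain ⟨m, hm⟩ : ∃ m, m = x * y := ⟨_, rfl⟩
  have hm0 : 0 ≤ m := by rw [hm]; positivity
  have hy1 : y ^ 2 ≤ 1 := by nlinarith [sq_nonneg z]
  have hz1 : z ≤ 1 := by nlinarith [sq_nonneg y]
  have hb2 : 1 ≤ b ^ 2 := by nlinarith
  have hxz : x ^ 2 * z ^ 2 = x ^ 2 - m ^ 2 := by
    rw [hm]
    have : z ^ 2 = 1 - y ^ 2 := by linarith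
    rw [this]; ring
  have e1 : (x * z + b * y) ^ 2 = x ^ 2 - m ^ 2 + 2 * b * m * z + b ^ 2 * y ^ 2 := by
    rw [← hxz, hm]; ring
  have hmz : m * z ≤ m := mul_le_of_le_one_right hm0 hz1
  have k1 : m ^ 2 ≤ n + 2 * b * m + b ^ 2 := by
    have t1 : b ^ 2 * y ^ 2 ≤ b ^ 2 := mul_le_of_le_one_right (by positivity) hy1
    have t2 : 2 * b * m * z ≤ 2 * b * m := mul_le_of_le_one_right (by positivity) hz1
    linarith
  have k2 : m ^ 2 ≤ 2 * n + 6 * b ^ 2 := by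
    linarith [sq_nonneg (m - 2 * b), (by ring : (m - 2 * b) ^ 2 = m ^ 2 - 4 * b * m + 4 * b ^ 2)]
  have hx2 : 0 < x ^ 2 := by linarith
  have k3 : 8 * y ^ 2 ≤ 1 := by
    have h3 : 8 * m ^ 2 ≤ x ^ 2 := by linarith
    have h4 : x ^ 2 * (8 * y ^ 2) ≤ x ^ 2 * 1 := by
      have : x ^ 2 * (8 * y ^ 2) = 8 * m ^ 2 := by rw [hm]; ring
      linarith
    exact le_of_mul_le_mul_left h4 hx2
  have e2 : (x * z + (R + b) * y) ^ 2 =
      x ^ 2 - m ^ 2 + 2 * (R + b) * m * z + (R + b) ^ 2 * y ^ 2 := by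
    rw [← hxz, hm]; ring
  have t1 : (R + b) ^ 2 * y ^ 2 ≤ (R + b) ^ 2 * (1 / 8) :=
    mul_le_mul_of_nonneg_left (by linarith) (by positivity)
  have t2 : 2 * (R + b) * m * z ≤ 2 * (R + b) * m :=
    mul_le_of_le_one_right (by positivity) hz1
  have t3 : (R + b) ^ 2 ≤ 2 * R ^ 2 + 2 * b ^ 2 := by
    linarith [sq_nonneg (R - b), (by ring : (R - b) ^ 2 = R ^ 2 - 2 * R * b + b ^ 2),
      (by ring : (R + b) ^ 2 = R ^ 2 + 2 * R * b + b ^ 2)]
  have t4 : 2 * (R + b) * m ≤ R ^ 2 / 4 + 4 * m ^ 2 + (m ^ 2 + b ^ 2) := by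
    linarith [sq_nonneg (R / 2 - 2 * m), (by ring : (R / 2 - 2 * m) ^ 2 = R ^ 2 / 4 - 2 * R * m + 4 * m ^ 2),
      sq_nonneg (m - b), (by ring : (m - b) ^ 2 = m ^ 2 - 2 * b * m + b ^ 2),
      (by ring : 2 * (R + b) * m = 2 * R * m + 2 * b * m)]
  have hm2 : 0 ≤ m ^ 2 := sq_nonneg m
  linarith

/-- the Adams–Garsia pair estimate -/
lemma pair_bound {j1 j2 τ1 τ2 b l n : ℝ} (hj1 : 0 ≤ j1) (hj2 : 0 ≤ j2) (hτ1 : 0 ≤ τ1)
    (hτ : τ1 ≤ τ2) (hb : 1 ≤ b) (hl0 : 0 ≤ l) (hl1 : l ≤ 1) (hn : 0 ≤ n)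
    (h1 : √j1 ≤ √τ1 * √(1 - l) + b * √l)
    (h2 : √j2 ≤ √τ1 * √(1 - l) + (√(τ2 - τ1) + b) * √l)
    (g1 : τ1 ≤ j1 + n) (g2 : τ2 ≤ j2 + n) (c2 : j2 ≤ τ2 + b ^ 2)
    (hlarge : 16 * n + 49 * b ^ 2 ≤ j1) : j2 - j1 ≤ 23 * n + 65 * b ^ 2 := by
  have c1 : j1 ≤ τ1 + b ^ 2 := level_le hj1 hτ1 hl0 hl1 h1
  have hj1' : j1 ≤ (√τ1 * √(1 - l) + b * √l) ^ 2 := by
    calc j1 = √j1 ^ 2 := (Real.sq_sqrt hj1).symm
      _ ≤ _ := pow_le_pow_left₀ (Real.sqrt_nonneg _) h1 2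
  have hj2' : j2 ≤ (√τ1 * √(1 - l) + (√(τ2 - τ1) + b) * √l) ^ 2 := by
    calc j2 = √j2 ^ 2 := (Real.sq_sqrt hj2).symm
      _ ≤ _ := pow_le_pow_left₀ (Real.sqrt_nonneg _) h2 2
  have hx2 : √τ1 ^ 2 = τ1 := Real.sq_sqrt hτ1
  have hR2 : √(τ2 - τ1) ^ 2 = τ2 - τ1 := Real.sq_sqrt (by linarith)
  have key := pair_core (x := √τ1) (y := √l) (z := √(1 - l)) (b := b) (n := n) (R := √(τ2 - τ1))
    (Real.sqrt_nonneg _) (Real.sqrt_nonneg _) (Real.sqrt_nonneg _) hb hn (Real.sqrt_nonneg _)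
    (by rw [Real.sq_sqrt (by linarith), Real.sq_sqrt hl0]; ring)
    (by rw [hx2]; linarith) (by rw [hx2, hR2]; linarith) (by rw [hx2]; linarith)
  rw [hR2] at key
  linarith

/-- counting: a set of naturals whose large elements are close to each other is small -/
lemma count_bound (S : Set ℕ) (a : ℕ)
    (h : ∀ i ∈ S, ∀ j ∈ S, i < j → a ≤ i → j ≤ i + a) :
    ∃ T : Finset ℕ, S ⊆ ↑T ∧ T.card ≤ 2 * a + 1 := by
  classical
  by_cases hne : ∃ i, i ∈ S ∧ a ≤ i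
  · have hm := Nat.find_spec hne
    set i0 := Nat.find hne
    refine ⟨Finset.range a ∪ Finset.Icc i0 (i0 + a), fun j hj => ?_, ?_⟩
    · simp only [Finset.coe_union, Finset.coe_range, Finset.coe_Icc, mem_union, mem_Iio, mem_Icc]
      by_cases hja : j < a
      · exact Or.inl hja
      · right
        have hja' : a ≤ j := not_lt.1 hja
        have : i0 ≤ j := Nat.find_min' hne ⟨hj, hja'⟩
        refine ⟨this, ?_⟩
        rcases eq_or_lt_of_le this with h1 | h1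
        · omega
        · exact h i0 hm.1 j hj h1 hm.2
    · refine (Finset.card_union_le _ _).trans ?_
      simp only [Finset.card_range, Nat.card_Icc]
      omega
  · push Not at hne
    refine ⟨Finset.range a, fun j hj => ?_, by simp; omega⟩
    simp only [Finset.coe_range, mem_Iio]
    exact hne j hj

/-- exponential sum over levels -/
lemma sum_levels (G : ℕ → ℝ) (P : Set ℕ) (B : ℝ) (hB : 0 ≤ B) (a : ℕ → ℕ)
    (hG : ∀ j ∈ P, -B ≤ G j)
    (hcount : ∀ n : ℕ, ∃ T : Finset ℕ, {j | j ∈ P ∧ G j ≤ n} ⊆ ↑T ∧ T.card ≤ a n) :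
    ∑' j : ℕ, P.indicator (fun j => ENNReal.ofReal (Real.exp (-G j))) j ≤
      ∑' n : ℕ, ENNReal.ofReal (Real.exp (B + 1 - n)) * (a n : ℝ≥0∞) := by
  classical
  calc ∑' j : ℕ, P.indicator (fun j => ENNReal.ofReal (Real.exp (-G j))) j
      ≤ ∑' j : ℕ, ∑' n : ℕ, ({j | j ∈ P ∧ G j ≤ n} : Set ℕ).indicator
          (fun _ => ENNReal.ofReal (Real.exp (B + 1 - n))) j := by
        refine ENNReal.tsum_le_tsum fun j => ?_
        by_cases hj : j ∈ P
        · rw [indicator_of_mem hj]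
          set n0 : ℕ := ⌈max (G j) 0⌉₊ with hn0
          have h1 : G j ≤ n0 := (le_max_left _ _).trans (Nat.le_ceil _)
          refine le_trans ?_ (ENNReal.le_tsum n0)
          rw [indicator_of_mem (show j ∈ {j | j ∈ P ∧ G j ≤ (n0 : ℝ)} from ⟨hj, h1⟩)]
          refine ENNReal.ofReal_le_ofReal (Real.exp_le_exp.2 ?_)
          have h2 : (n0 : ℝ) < max (G j) 0 + 1 := Nat.ceil_lt_add_one (le_max_right _ _)
          have h3 := hG j hj
          rcases le_total (G j) 0 with h4 | h4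
          · rw [max_eq_right h4] at h2 hn0
            have : n0 = 0 := by rw [hn0]; simp
            rw [this]; push_cast; linarith
          · rw [max_eq_left h4] at h2
            linarith
        · rw [indicator_of_notMem hj]; exact zero_le
    _ = ∑' n : ℕ, ∑' j : ℕ, ({j | j ∈ P ∧ G j ≤ n} : Set ℕ).indicator
          (fun _ => ENNReal.ofReal (Real.exp (B + 1 - n))) j := ENNReal.tsum_comm
    _ ≤ _ := by
        refine ENNReal.tsum_le_tsum fun n => ?_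
        obtain ⟨T, hT, hc⟩ := hcount n
        calc ∑' j : ℕ, ({j | j ∈ P ∧ G j ≤ n} : Set ℕ).indicator
              (fun _ => ENNReal.ofReal (Real.exp (B + 1 - n))) j
            ≤ ∑' j : ℕ, (↑T : Set ℕ).indicator (fun _ => ENNReal.ofReal (Real.exp (B + 1 - n))) j :=
              ENNReal.tsum_le_tsum fun j => indicator_le_indicator_of_subset hT (fun _ => zero_le) j
          _ = ∑ j ∈ T, ENNReal.ofReal (Real.exp (B + 1 - n)) := by
              rw [tsum_eq_sum (s := T)]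
              · refine Finset.sum_congr rfl fun j hj => ?_
                rw [indicator_of_mem (by simpa using hj)]
              · intro j hj
                rw [indicator_of_notMem (by simpa using hj)]
          _ = (T.card : ℝ≥0∞) * ENNReal.ofReal (Real.exp (B + 1 - n)) := by
              rw [Finset.sum_const, nsmul_eq_mul]
          _ ≤ _ := by
              rw [mul_comm]
              gcongr

lemma sum_finite (B : ℝ) (c d : ℕ) :
    ∑' n : ℕ, ENNReal.ofReal (Real.exp (B + 1 - n)) * ((c * n + d : ℕ) : ℝ≥0∞) < ∞ := by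
  have h1 : Summable fun n : ℕ => (n : ℝ) * Real.exp (-1) ^ n := by
    have := summable_pow_mul_geometric_of_norm_lt_one 1 (r := Real.exp (-1)) (by
      rw [Real.norm_of_nonneg (Real.exp_pos _).le, Real.exp_lt_one_iff]; norm_num)
    simpa using this
  have h2 : Summable fun n : ℕ => Real.exp (-1) ^ n :=
    summable_geometric_of_lt_one (Real.exp_pos _).le (by rw [Real.exp_lt_one_iff]; norm_num)
  have h3 : Summable fun n : ℕ => Real.exp (B + 1 - n) * ((c * n + d : ℕ) : ℝ) := by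
    have e : (fun n : ℕ => Real.exp (B + 1 - n) * ((c * n + d : ℕ) : ℝ)) =
        fun n : ℕ => Real.exp (B + 1) * c * ((n : ℝ) * Real.exp (-1) ^ n) +
          Real.exp (B + 1) * d * Real.exp (-1) ^ n := by
      funext n
      rw [sub_eq_add_neg, Real.exp_add, ← Real.exp_nat_mul]
      push_cast
      rw [show ((n : ℝ) * -1) = -(n : ℝ) by ring]
      ring
    rw [e]
    exact (h1.mul_left _).add (h2.mul_left _)
  have e : (fun n : ℕ => ENNReal.ofReal (Real.exp (B + 1 - n)) * ((c * n + d : ℕ) : ℝ≥0∞)) =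
      fun n : ℕ => ENNReal.ofReal (Real.exp (B + 1 - n) * ((c * n + d : ℕ) : ℝ)) := by
    funext n
    rw [ENNReal.ofReal_mul (Real.exp_pos _).le, ENNReal.ofReal_natCast]
  rw [e, ← ENNReal.ofReal_tsum_of_nonneg (fun n => by positivity) h3]
  exact ENNReal.ofReal_lt_top

end Pool.Agent.H649R3.Adams
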