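import Pool.Agent.H649R3.AdamsRearr
import Pool.Agent.H649R3.AdamsOneD

set_option autoImplicit false
open MeasureTheory Set Filter Topology Module Bornology
open scoped ENNReal

noncomputable section
namespace Pool.Agent.H649R3.Adams

/-- normalising constant: `a0 ^ 4 = 2 / π²` -/
def a0 : ℝ := √(√2 / Real.pi)
def cc : ℝ := 2 / a0
def s0 : ℝ := cc ^ 4

lemma a0_pos : 0 < a0 := by
  unfold a0; have := Real.pi_pos; positivity

lemma a0_sq : a0 ^ 2 = √2 / Real.pi := by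
  unfold a0; have := Real.pi_pos; exact Real.sq_sqrt (by positivity)

lemma a0_four : a0 ^ 4 = 2 / Real.pi ^ 2 := by
  have : a0 ^ 4 = (a0 ^ 2) ^ 2 := by ring
  rw [this, a0_sq, div_pow, Real.sq_sqrt (by norm_num)]

lemma cc_pos : 0 < cc := by unfold cc; have := a0_pos; positivity
lemma s0_pos : 0 < s0 := by unfold s0; have := cc_pos; positivity

/-- kernel profile times `√(32π²)` -/
def krf (r : ℝ) : ℝ := a0 ^ 2 * kap r

/-- fourth root -/
def sg (s : ℝ) : ℝ := √√s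

/-- majorant of the rearranged kernel times `√(32π²)` -/
def pf (s : ℝ) : ℝ := krf (a0 * sg s)

lemma sg_pos {s : ℝ} (hs : 0 < s) : 0 < sg s := by unfold sg; positivity
lemma sg_nonneg (s : ℝ) : 0 ≤ sg s := Real.sqrt_nonneg _
lemma sg_sq {s : ℝ} : sg s ^ 2 = √s := Real.sq_sqrt (Real.sqrt_nonneg _)
lemma sg_four {s : ℝ} (hs : 0 ≤ s) : sg s ^ 4 = s := by
  have : sg s ^ 4 = (sg s ^ 2) ^ 2 := by ring
  rw [this, sg_sq, Real.sq_sqrt hs]

lemma kap_nonneg {r : ℝ} (hr : 0 ≤ r) : 0 ≤ kap r := by unfold kap; positivity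

lemma krf_measurable : Measurable krf := by
  unfold krf kap
  exact measurable_const.mul (((measurable_id.pow_const 2).inv).min
    (measurable_const.mul ((measurable_id.pow_const 3).inv)))

/-- we use the kernel on nonnegative reals only; make it nonnegative -/
def krp (r : ℝ) : ℝ := max (krf r) 0

lemma krp_nonneg (r : ℝ) : 0 ≤ krp r := le_max_right _ _
lemma krp_measurable : Measurable krp := krf_measurable.max measurable_const
lemma krf_nonneg {r : ℝ} (hr : 0 ≤ r) : 0 ≤ krf r := by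
  unfold krf; exact mul_nonneg (by positivity) (kap_nonneg hr)
lemma krp_eq {r : ℝ} (hr : 0 ≤ r) : krp r = krf r := max_eq_left (krf_nonneg hr)

lemma pf_nonneg (s : ℝ) : 0 ≤ pf s :=
  krf_nonneg (mul_nonneg a0_pos.le (sg_nonneg s))

lemma pf_measurable : Measurable pf := by
  unfold pf sg
  exact krf_measurable.comp (by fun_prop)

lemma kap_anti {r r' : ℝ} (hr : 0 < r) (h : r ≤ r') : kap r' ≤ kap r := by
  unfold kap
  exact min_le_min (inv_anti₀ (by positivity) (pow_le_pow_left₀ hr.le h 2))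
    (mul_le_mul_of_nonneg_left (inv_anti₀ (by positivity) (pow_le_pow_left₀ hr.le h 3))
      (by norm_num))

lemma pf_dist (s : ℝ) (hs : 0 < s) : volume {z : E4 | pf s < krp ‖z‖} ≤ ENNReal.ofReal s := by
  have hsub : {z : E4 | pf s < krp ‖z‖} ⊆ Metric.ball 0 (a0 * sg s) := by
    intro z hz
    rw [mem_ball_zero_iff]
    by_contra hcon
    have hcon' : a0 * sg s ≤ ‖z‖ := not_lt.1 hcon
    have hz' : pf s < krp ‖z‖ := hz
    rw [krp_eq (norm_nonneg z)] at hz'
    have : krf ‖z‖ ≤ pf s := by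
      unfold pf krf
      exact mul_le_mul_of_nonneg_left (kap_anti (mul_pos a0_pos (sg_pos hs)) hcon') (by positivity)
    linarith
  refine (measure_mono hsub).trans ?_
  rw [vol_ball, ← ENNReal.ofReal_pow (mul_nonneg a0_pos.le (sg_nonneg s)),
    ← ENNReal.ofReal_mul (pow_nonneg (mul_nonneg a0_pos.le (sg_nonneg s)) 4)]
  refine ENNReal.ofReal_le_ofReal (le_of_eq ?_)
  rw [mul_pow, a0_four, sg_four hs.le]
  have := Real.pi_pos
  field_simp

lemma pf_le {s : ℝ} : pf s ≤ (√s)⁻¹ := by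
  have ha := a0_pos
  calc pf s ≤ a0 ^ 2 * ((a0 * sg s) ^ 2)⁻¹ := by
        unfold pf krf kap
        exact mul_le_mul_of_nonneg_left (min_le_left _ _) (by positivity)
    _ = (√s)⁻¹ := by
        rw [mul_pow, sg_sq, mul_inv]
        field_simp

lemma pf_le2 {s : ℝ} : pf s ≤ cc * (sg s ^ 3)⁻¹ := by
  have ha := a0_pos
  calc pf s ≤ a0 ^ 2 * (2 * ((a0 * sg s) ^ 3)⁻¹) := by
        unfold pf krf kap
        exact mul_le_mul_of_nonneg_left (min_le_right _ _) (by positivity)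
    _ = cc * (sg s ^ 3)⁻¹ := by
        rw [mul_pow, mul_inv]
        unfold cc
        field_simp

lemma pf_sq_le {s : ℝ} (hs : 0 < s) : pf s ^ 2 ≤ s⁻¹ := by
  calc pf s ^ 2 ≤ ((√s)⁻¹) ^ 2 := pow_le_pow_left₀ (pf_nonneg s) pf_le 2
    _ = s⁻¹ := by rw [inv_pow, Real.sq_sqrt hs.le]

lemma pf_sq_le2 {s : ℝ} (hs : 0 < s) : pf s ^ 2 ≤ cc ^ 2 * s ^ (-(3 / 2) : ℝ) := by
  calc pf s ^ 2 ≤ (cc * (sg s ^ 3)⁻¹) ^ 2 := pow_le_pow_left₀ (pf_nonneg s) pf_le2 2
    _ = cc ^ 2 * s ^ (-(3 / 2) : ℝ) := by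
        rw [mul_pow, inv_pow, ← pow_mul]
        congr 1
        have h1 : sg s ^ (3 * 2) = √s ^ 3 := by
          rw [← sg_sq, ← pow_mul]
        rw [h1, Real.sqrt_eq_rpow, ← Real.rpow_natCast, ← Real.rpow_mul hs.le,
          Real.rpow_neg hs.le]
        norm_num

lemma int_inv_sqrt {t : ℝ} (ht : 0 < t) :
    ∫⁻ s in Ioo 0 t, ENNReal.ofReal ((√s)⁻¹) ≤ ENNReal.ofReal (2 * √t) := by
  have e : ∀ s ∈ Ioo 0 t, ENNReal.ofReal ((√s)⁻¹) = ENNReal.ofReal (s ^ (-(1 / 2) : ℝ)) := by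
    intro s hs
    rw [Real.sqrt_eq_rpow, Real.rpow_neg hs.1.le]
  rw [setLIntegral_congr_fun measurableSet_Ioo e]
  have hint : IntegrableOn (fun s : ℝ => s ^ (-(1 / 2) : ℝ)) (Ioo 0 t) := by
    have := (intervalIntegral.intervalIntegrable_rpow' (a := 0) (b := t)
      (r := (-(1 / 2) : ℝ)) (by norm_num)).1
    exact this.mono_set Ioo_subset_Ioc_self
  rw [← ofReal_integral_eq_lintegral_ofReal hint]
  · refine ENNReal.ofReal_le_ofReal (le_of_eq ?_)
    rw [← integral_Ioc_eq_integral_Ioo, ← intervalIntegral.integral_of_le ht.le,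
      integral_rpow (Or.inl (by norm_num))]
    rw [Real.sqrt_eq_rpow]
    norm_num
    ring
  · rw [EventuallyLE, ae_restrict_iff' measurableSet_Ioo]
    exact Eventually.of_forall fun s hs => Real.rpow_nonneg hs.1.le _

lemma A_ofReal {t : ℝ} (ht : 0 < t) : A (ENNReal.ofReal t) = Ioo 0 t := by
  ext s
  simp only [A, mem_ofPred_eq, mem_Ioo]
  exact and_congr_right fun _ => ENNReal.ofReal_lt_ofReal_iff ht

lemma K_le {t : ℝ} (ht : 0 < t) : K pf (ENNReal.ofReal t) ≤ ENNReal.ofReal (2 * √t) := by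
  unfold K
  rw [A_ofReal ht]
  exact (lintegral_mono fun s => ENNReal.ofReal_le_ofReal pf_le).trans (int_inv_sqrt ht)

lemma int_pf_sq {t t' : ℝ} (ht : 0 < t) (htt : t ≤ t') :
    ∫⁻ s in Icc t t', ENNReal.ofReal (pf s ^ 2) ≤ ENNReal.ofReal (Real.log (t' / t)) := by
  have hint : IntegrableOn (fun s : ℝ => s⁻¹) (Icc t t') := by
    refine ContinuousOn.integrableOn_Icc (continuousOn_inv₀.mono fun s hs => ?_)
    exact (ht.trans_le hs.1).ne'
  calc ∫⁻ s in Icc t t', ENNReal.ofReal (pf s ^ 2)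
      ≤ ∫⁻ s in Icc t t', ENNReal.ofReal (s⁻¹) := by
        refine setLIntegral_mono' measurableSet_Icc fun s hs => ?_
        exact ENNReal.ofReal_le_ofReal (pf_sq_le (ht.trans_le hs.1))
    _ = ENNReal.ofReal (∫ s in Icc t t', s⁻¹) := by
        rw [ofReal_integral_eq_lintegral_ofReal hint]
        rw [EventuallyLE, ae_restrict_iff' measurableSet_Icc]
        exact Eventually.of_forall fun s hs => inv_nonneg.2 (ht.le.trans hs.1)
    _ = _ := by
        rw [integral_Icc_eq_integral_Ioc, ← intervalIntegral.integral_of_le htt,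
          integral_inv_of_pos ht (ht.trans_le htt)]

/-- constant for the tail -/
def C3 : ℝ := √(∫ s in Ioi s0, cc ^ 2 * s ^ (-(3 / 2) : ℝ))

lemma C3_nonneg : 0 ≤ C3 := Real.sqrt_nonneg _

lemma int_pf_tail : ∫⁻ s in Ioi s0, ENNReal.ofReal (pf s ^ 2) ≤ ENNReal.ofReal (C3 ^ 2) := by
  have hint : IntegrableOn (fun s : ℝ => cc ^ 2 * s ^ (-(3 / 2) : ℝ)) (Ioi s0) :=
    (integrableOn_Ioi_rpow_of_lt (by norm_num) s0_pos).const_mul _
  have hnn : 0 ≤ᵐ[volume.restrict (Ioi s0)] fun s : ℝ => cc ^ 2 * s ^ (-(3 / 2) : ℝ) := by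
    rw [EventuallyLE, ae_restrict_iff' measurableSet_Ioi]
    refine Eventually.of_forall fun s hs => ?_
    have : 0 < s := s0_pos.trans hs
    positivity
  unfold C3
  rw [Real.sq_sqrt (integral_nonneg_of_ae hnn), ofReal_integral_eq_lintegral_ofReal hint hnn]
  refine setLIntegral_mono' measurableSet_Ioi fun s hs => ?_
  exact ENNReal.ofReal_le_ofReal (pf_sq_le2 (s0_pos.trans hs))

/-- Cauchy–Schwarz -/
lemma cs_real {f g : ℝ → ℝ} (hf0 : ∀ s, 0 ≤ f s) (hfm : Measurable f) (hg0 : ∀ s, 0 ≤ g s)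
    (hgm : Measurable g) (S : Set ℝ) {B E : ℝ}
    (hB : ∫⁻ s in S, ENNReal.ofReal (g s ^ 2) ≤ ENNReal.ofReal B)
    (hE : ∫⁻ s in S, ENNReal.ofReal (f s ^ 2) ≤ ENNReal.ofReal E) :
    ∫⁻ s in S, ENNReal.ofReal (g s) * ENNReal.ofReal (f s) ≤ ENNReal.ofReal (√B * √E) := by
  have h := ENNReal.lintegral_mul_le_Lp_mul_Lq ((volume : Measure ℝ).restrict S)
    (p := 2) (q := 2) Real.HolderConjugate.two_two hgm.ennreal_ofReal.aemeasurable
    hfm.ennreal_ofReal.aemeasurable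
  have e : ∀ (u : ℝ → ℝ) (_ : ∀ s, 0 ≤ u s), (fun s => ENNReal.ofReal (u s) ^ (2 : ℝ)) =
      fun s => ENNReal.ofReal (u s ^ 2) := by
    intro u hu
    funext s
    rw [ENNReal.ofReal_rpow_of_nonneg (hu s) (by norm_num), Real.rpow_two]
  rw [e g hg0, e f hf0] at h
  refine h.trans ?_
  rw [ENNReal.ofReal_mul (Real.sqrt_nonneg _)]
  have e2 : ∀ x : ℝ, ENNReal.ofReal (√x) = (ENNReal.ofReal x) ^ (1 / (2 : ℝ)) := by
    intro x
    rcases le_or_gt 0 x with hx | hx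
    · rw [ENNReal.ofReal_rpow_of_nonneg hx (by norm_num), Real.sqrt_eq_rpow]
    · rw [Real.sqrt_eq_zero_of_nonpos hx.le, ENNReal.ofReal_of_nonpos hx.le]
      simp
  rw [e2, e2]
  gcongr

section level
variable {f : ℝ → ℝ} (hf0 : ∀ s, 0 ≤ f s) (hfm : Measurable f)
  (hf2 : ∫⁻ s in Ioi (0 : ℝ), ENNReal.ofReal (f s ^ 2) ≤ 1)

/-- energy of `f` on a set -/
def En (f : ℝ → ℝ) (S : Set ℝ) : ℝ := (∫⁻ s in S, ENNReal.ofReal (f s ^ 2)).toReal

lemma En_nonneg (f : ℝ → ℝ) (S : Set ℝ) : 0 ≤ En f S := ENNReal.toReal_nonneg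

include hf2 in
lemma En_ofReal {S : Set ℝ} (hS : S ⊆ Ioi 0) :
    ∫⁻ s in S, ENNReal.ofReal (f s ^ 2) = ENNReal.ofReal (En f S) := by
  unfold En
  rw [ENNReal.ofReal_toReal]
  exact ne_top_of_le_ne_top ENNReal.one_ne_top ((lintegral_mono_set hS).trans hf2)

include hf2 in
lemma En_union {S T : Set ℝ} (hS : S ⊆ Ioi 0) (hT : T ⊆ Ioi 0) (hTm : MeasurableSet T)
    (hd : Disjoint S T) : En f (S ∪ T) = En f S + En f T := by
  have h := lintegral_union (μ := (volume : Measure ℝ)) (f := fun s => ENNReal.ofReal (f s ^ 2))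
    hTm hd
  rw [En_ofReal hf2 hS, En_ofReal hf2 hT, En_ofReal hf2 (union_subset hS hT),
    ← ENNReal.ofReal_add (En_nonneg _ _) (En_nonneg _ _)] at h
  exact (ENNReal.ofReal_eq_ofReal_iff (En_nonneg _ _)
    (add_nonneg (En_nonneg _ _) (En_nonneg _ _))).1 h

include hf2 in
lemma En_le_one {S : Set ℝ} (hS : S ⊆ Ioi 0) : En f S ≤ 1 := by
  unfold En
  refine ENNReal.toReal_le_of_le_ofReal zero_le_one ?_
  rw [ENNReal.ofReal_one]
  exact (lintegral_mono_set hS).trans hf2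

/-- the constant `b` -/
def bb : ℝ := 2 + C3

lemma bb_ge : 1 ≤ bb := by unfold bb; linarith [C3_nonneg]

/-- residual energy -/
def ell (f : ℝ → ℝ) (t : ℝ) : ℝ := 1 - En f (Icc t s0)

include hf0 hfm hf2 in
/-- first piece -/
lemma piece1 {t : ℝ} (ht : 0 < t) :
    ∫⁻ s in Ioo 0 t, w pf (ENNReal.ofReal t) s * ENNReal.ofReal (f s) ≤
      ENNReal.ofReal (t * (2 * √(En f (Ioo 0 t)))) := by
  have e : ∀ s ∈ Ioo 0 t, w pf (ENNReal.ofReal t) s * ENNReal.ofReal (f s) =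
      K pf (ENNReal.ofReal t) * ENNReal.ofReal (f s) := by
    intro s hs
    unfold w
    rw [if_pos ((ENNReal.ofReal_lt_ofReal_iff ht).2 hs.2)]
  rw [setLIntegral_congr_fun measurableSet_Ioo e, lintegral_const_mul _ hfm.ennreal_ofReal]
  have h1 := cs_real hf0 hfm (g := fun _ => 1) (fun _ => zero_le_one) measurable_const
    (Ioo 0 t) (B := t) (E := En f (Ioo 0 t)) (by simp)
    (En_ofReal hf2 Ioo_subset_Ioi_self).le
  simp only [ENNReal.ofReal_one, one_mul] at h1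
  calc K pf (ENNReal.ofReal t) * ∫⁻ s in Ioo 0 t, ENNReal.ofReal (f s)
      ≤ ENNReal.ofReal (2 * √t) * ENNReal.ofReal (√t * √(En f (Ioo 0 t))) :=
        mul_le_mul' (K_le ht) h1
    _ = _ := by
        rw [← ENNReal.ofReal_mul (by positivity)]
        congr 1
        have : √t * √t = t := Real.mul_self_sqrt ht.le
        calc 2 * √t * (√t * √(En f (Ioo 0 t))) = (√t * √t) * (2 * √(En f (Ioo 0 t))) := by ring
          _ = _ := by rw [this]

include hf0 hfm hf2 in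
lemma piece2 {t : ℝ} (ht : 0 < t) {S : Set ℝ} (hS : S ⊆ Ici t) (hSm : MeasurableSet S) {B : ℝ}
    (hB : ∫⁻ s in S, ENNReal.ofReal (pf s ^ 2) ≤ ENNReal.ofReal B) :
    ∫⁻ s in S, w pf (ENNReal.ofReal t) s * ENNReal.ofReal (f s) ≤
      ENNReal.ofReal (t * (√B * √(En f S))) := by
  have e : ∀ s ∈ S, w pf (ENNReal.ofReal t) s * ENNReal.ofReal (f s) =
      ENNReal.ofReal t * (ENNReal.ofReal (pf s) * ENNReal.ofReal (f s)) := by
    intro s hs
    unfold w
    rw [if_neg, mul_assoc]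
    rw [not_lt]
    exact ENNReal.ofReal_le_ofReal (hS hs)
  rw [setLIntegral_congr_fun hSm e, lintegral_const_mul' _ _ ENNReal.ofReal_ne_top,
    ENNReal.ofReal_mul ht.le]
  have hS0 : S ⊆ Ioi 0 := hS.trans fun s hs => ht.trans_le hs
  gcongr
  exact cs_real hf0 hfm pf_nonneg pf_measurable S hB (En_ofReal hf2 hS0).le

include hf0 hfm hf2 in
/-- the level inequality -/
lemma level_ineq {t t1 j : ℝ} (ht : 0 < t) (htt : t ≤ t1) (ht1 : t1 ≤ s0)
    (h : ENNReal.ofReal (√j) * ENNReal.ofReal t ≤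
      ∫⁻ s in Ioi (0 : ℝ), w pf (ENNReal.ofReal t) s * ENNReal.ofReal (f s)) :
    √j ≤ √(Real.log (s0 / t1)) * √(1 - ell f t1) +
      (√(Real.log (s0 / t) - Real.log (s0 / t1)) + bb) * √(ell f t1) := by
  have ht1' : 0 < t1 := ht.trans_le htt
  have hs0 := s0_pos
  -- decomposition of (0,∞)
  have hdec : Ioi (0 : ℝ) = ((Ioo 0 t ∪ Ico t t1) ∪ Icc t1 s0) ∪ Ioi s0 := by
    ext s
    simp only [mem_Ioi, mem_union, mem_Ioo, mem_Ico, mem_Icc]
    constructor
    · intro hs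
      by_cases h1 : s < t
      · exact Or.inl (Or.inl (Or.inl ⟨hs, h1⟩))
      · by_cases h2 : s < t1
        · exact Or.inl (Or.inl (Or.inr ⟨not_lt.1 h1, h2⟩))
        · by_cases h3 : s ≤ s0
          · exact Or.inl (Or.inr ⟨not_lt.1 h2, h3⟩)
          · exact Or.inr (not_le.1 h3)
    · rintro (((⟨h1, h2⟩ | ⟨h1, h2⟩) | ⟨h1, h2⟩) | h1) <;> linarith
  have d1 : Disjoint (Ioo 0 t) (Ico t t1) := by
    rw [Set.disjoint_left]; rintro s ⟨_, h1⟩ ⟨h2, _⟩; linarith
  have d2 : Disjoint (Ioo 0 t ∪ Ico t t1) (Icc t1 s0) := by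
    rw [Set.disjoint_left]
    rintro s (⟨_, h1⟩ | ⟨_, h1⟩) ⟨h2, _⟩ <;> linarith
  have d3 : Disjoint ((Ioo 0 t ∪ Ico t t1) ∪ Icc t1 s0) (Ioi s0) := by
    rw [Set.disjoint_left]
    rintro s ((⟨_, h1⟩ | ⟨_, h1⟩) | ⟨_, h1⟩) h2 <;> (simp only [mem_Ioi] at h2; linarith)
  have p1 : Ioo 0 t ⊆ Ioi 0 := Ioo_subset_Ioi_self
  have p2 : Ico t t1 ⊆ Ioi 0 := fun s hs => ht.trans_le hs.1
  have p3 : Icc t1 s0 ⊆ Ioi 0 := fun s hs => ht1'.trans_le hs.1
  have p4 : Ioi s0 ⊆ Ioi 0 := fun s hs => hs0.trans hs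
  -- energies
  have hE : En f (Ioo 0 t) + En f (Ico t t1) + En f (Icc t1 s0) + En f (Ioi s0) ≤ 1 := by
    rw [← En_union hf2 p1 p2 measurableSet_Ico d1,
      ← En_union hf2 (union_subset p1 p2) p3 measurableSet_Icc d2,
      ← En_union hf2 (union_subset (union_subset p1 p2) p3) p4 measurableSet_Ioi d3]
    exact En_le_one hf2 (union_subset (union_subset (union_subset p1 p2) p3) p4)
  have n1 := En_nonneg f (Ioo 0 t)
  have n2 := En_nonneg f (Ico t t1)
  have n3 := En_nonneg f (Icc t1 s0)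
  have n4 := En_nonneg f (Ioi s0)
  have hlog : Real.log (t1 / t) = Real.log (s0 / t) - Real.log (s0 / t1) := by
    rw [Real.log_div ht1'.ne' ht.ne', Real.log_div hs0.ne' ht.ne', Real.log_div hs0.ne' ht1'.ne']
    ring
  -- pieces
  have q1 := piece1 hf0 hfm hf2 ht
  have q2 := piece2 hf0 hfm hf2 ht (S := Ico t t1) (fun s hs => hs.1) measurableSet_Ico
    (B := Real.log (t1 / t)) ((lintegral_mono_set Ico_subset_Icc_self).trans (int_pf_sq ht htt))
  have q3 := piece2 hf0 hfm hf2 ht (S := Icc t1 s0) (fun s hs => htt.trans hs.1) measurableSet_Icc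
    (B := Real.log (s0 / t1)) (int_pf_sq ht1' ht1)
  have q4 := piece2 hf0 hfm hf2 ht (S := Ioi s0)
    (fun s hs => (htt.trans ht1).trans (le_of_lt hs)) measurableSet_Ioi
    (B := C3 ^ 2) int_pf_tail
  rw [Real.sqrt_sq C3_nonneg] at q4
  have tot : ENNReal.ofReal (√j * t) ≤ ENNReal.ofReal (t * (2 * √(En f (Ioo 0 t))) +
      t * (√(Real.log (t1 / t)) * √(En f (Ico t t1))) +
      t * (√(Real.log (s0 / t1)) * √(En f (Icc t1 s0))) +
      t * (C3 * √(En f (Ioi s0)))) := by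
    have hC := C3_nonneg
    rw [ENNReal.ofReal_mul (Real.sqrt_nonneg _)]
    rw [ENNReal.ofReal_add (by positivity) (by positivity),
      ENNReal.ofReal_add (by positivity) (by positivity),
      ENNReal.ofReal_add (by positivity) (by positivity)]
    refine h.trans ?_
    rw [hdec, lintegral_union measurableSet_Ioi d3, lintegral_union measurableSet_Icc d2,
      lintegral_union measurableSet_Ico d1]
    exact add_le_add (add_le_add (add_le_add q1 q2) q3) q4
  have hC := C3_nonneg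
  have tot' := (ENNReal.ofReal_le_ofReal_iff (by positivity)).1 tot
  have tot2 : √j ≤ 2 * √(En f (Ioo 0 t)) + √(Real.log (t1 / t)) * √(En f (Ico t t1)) +
      √(Real.log (s0 / t1)) * √(En f (Icc t1 s0)) + C3 * √(En f (Ioi s0)) := by
    have : t * √j ≤ t * (2 * √(En f (Ioo 0 t)) + √(Real.log (t1 / t)) * √(En f (Ico t t1)) +
      √(Real.log (s0 / t1)) * √(En f (Icc t1 s0)) + C3 * √(En f (Ioi s0))) := by linarith
    exact le_of_mul_le_mul_left this ht
  have hl : ell f t1 = 1 - En f (Icc t1 s0) := rfl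
  have r1 : √(En f (Ioo 0 t)) ≤ √(ell f t1) := Real.sqrt_le_sqrt (by linarith)
  have r2 : √(En f (Ico t t1)) ≤ √(ell f t1) := Real.sqrt_le_sqrt (by linarith)
  have r4 : √(En f (Ioi s0)) ≤ √(ell f t1) := Real.sqrt_le_sqrt (by linarith)
  have r3 : √(En f (Icc t1 s0)) = √(1 - ell f t1) := by congr 1; linarith
  rw [r3, hlog] at tot2
  have x2 := mul_le_mul_of_nonneg_left r2
    (Real.sqrt_nonneg (Real.log (s0 / t) - Real.log (s0 / t1)))
  have x4 := mul_le_mul_of_nonneg_left r4 hC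
  unfold bb
  linarith

include hf0 hfm hf2 in
/-- large level sets only occur at bounded levels -/
lemma level_large {t j : ℝ} (ht : s0 < t) (hj : 0 ≤ j)
    (h : ENNReal.ofReal (√j) * ENNReal.ofReal t ≤
      ∫⁻ s in Ioi (0 : ℝ), w pf (ENNReal.ofReal t) s * ENNReal.ofReal (f s)) :
    j ≤ bb ^ 2 := by
  have hs0 := s0_pos
  have ht0 : 0 < t := hs0.trans ht
  have hdec : Ioi (0 : ℝ) = Ioo 0 t ∪ Ici t := by
    rw [Ioo_union_Ici_eq_Ioi ht0]
  have d1 : Disjoint (Ioo 0 t) (Ici t) := by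
    rw [Set.disjoint_left]; rintro s ⟨_, h1⟩ h2; simp only [mem_Ici] at h2; linarith
  have q1 := piece1 hf0 hfm hf2 ht0
  have q4 := piece2 hf0 hfm hf2 ht0 (S := Ici t) (fun s hs => hs) measurableSet_Ici
    (B := C3 ^ 2) ((lintegral_mono_set (fun s hs => ht.trans_le hs)).trans int_pf_tail)
  rw [Real.sqrt_sq C3_nonneg] at q4
  have hC := C3_nonneg
  have e1 : √(En f (Ioo 0 t)) ≤ 1 := by
    exact Real.sqrt_le_one.2 (En_le_one hf2 Ioo_subset_Ioi_self)
  have e4 : √(En f (Ici t)) ≤ 1 := by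
    exact Real.sqrt_le_one.2 (En_le_one hf2 (fun s hs => ht0.trans_le hs))
  have tot : ENNReal.ofReal (√j * t) ≤ ENNReal.ofReal (t * (2 * √(En f (Ioo 0 t))) +
      t * (C3 * √(En f (Ici t)))) := by
    rw [ENNReal.ofReal_mul (Real.sqrt_nonneg _),
      ENNReal.ofReal_add (by positivity) (by positivity)]
    refine h.trans ?_
    rw [hdec, lintegral_union measurableSet_Ici d1]
    exact add_le_add q1 q4
  have tot' := (ENNReal.ofReal_le_ofReal_iff (by positivity)).1 tot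
  have : √j ≤ bb := by
    have h2 : t * √j ≤ t * bb := by
      have x4 := mul_le_mul_of_nonneg_left e4 hC
      have : 2 * √(En f (Ioo 0 t)) + C3 * √(En f (Ici t)) ≤ bb := by unfold bb; linarith
      have := mul_le_mul_of_nonneg_left this ht0.le
      linarith
    exact le_of_mul_le_mul_left h2 ht0
  calc j = √j ^ 2 := (Real.sq_sqrt hj).symm
    _ ≤ bb ^ 2 := pow_le_pow_left₀ (Real.sqrt_nonneg _) this 2

end level

end Pool.Agent.H649R3.Adams
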