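import Pool.Agent.H649R3.AdamsCS

set_option autoImplicit false
open MeasureTheory Set Filter Topology Module Bornology
open scoped ENNReal NNReal

noncomputable section
namespace Pool.Agent.H649R3.Adams

/-- critical exponent -/
def al : ℝ := 32 * Real.pi ^ 2

lemma al_pos : 0 < al := by unfold al; have := Real.pi_pos; positivity

lemma sqrt_al : √al = a0 ^ 2 * (4 * Real.pi ^ 2) := by
  have hp := Real.pi_pos
  rw [a0_sq]
  have h : al = (√2 / Real.pi * (4 * Real.pi ^ 2)) ^ 2 := by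
    unfold al
    rw [mul_pow, div_pow, Real.sq_sqrt (by norm_num)]
    field_simp
    norm_num
  rw [h, Real.sqrt_sq (by positivity)]

section
variable {u : E4 → ℝ} (hu : ContDiff ℝ (⊤ : ℕ∞) u) (hc : HasCompactSupport u)

include hu in
lemma continuous_en : Continuous (en u) := by
  unfold en
  have h1 := continuous_lap hu
  have h2 : Continuous (fderiv ℝ u) := (cd_fderiv hu).continuous
  fun_prop

include hc in
lemma hcs_lap : HasCompactSupport (lap u) := by
  have : HasCompactSupport (fun z => ∑ i : Fin 4, fderiv ℝ (fderiv ℝ u) z (bv i) (bv i)) := by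
    refine ((hc.fderiv ℝ).fderiv ℝ).mono' ?_
    refine (Function.support_subset_iff'.2 fun z hz => ?_).trans subset_closure
    rw [Function.notMem_support] at hz
    simp [hz]
  exact this

include hc in
lemma hcs_en : HasCompactSupport (en u) := by
  refine hc.mono' ?_
  intro z hz
  by_contra hcon
  apply hz
  have h1 : fderiv ℝ u z = 0 := by
    have := tsupport_fderiv_subset ℝ (f := u)
    have h2 : z ∉ tsupport (fderiv ℝ u) := fun h => hcon (this h)
    exact image_eq_zero_of_notMem_tsupport h2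
  have h3 : fderiv ℝ (fderiv ℝ u) z = 0 := by
    have h4 := tsupport_fderiv_subset ℝ (f := u)
    have := tsupport_fderiv_subset ℝ (f := fderiv ℝ u)
    have h2 : z ∉ tsupport (fderiv ℝ (fderiv ℝ u)) := fun h => hcon (h4 (this h))
    exact image_eq_zero_of_notMem_tsupport h2
  simp [en, lap, h1, h3]

include hu hc in
lemma en_bdd : ∃ M, ∀ z, en u z ≤ M := by
  obtain ⟨M, hM⟩ := (hcs_en hc).exists_bound_of_continuous (continuous_en hu)
  exact ⟨M, fun z => (le_abs_self _).trans (hM z)⟩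

include hu hc in
lemma en_L2 (hE : (∫ x, (lap u x) ^ 2) + (∫ x, ‖fderiv ℝ u x‖ ^ 2) ≤ 1) :
    ∫⁻ y, ENNReal.ofReal (en u y ^ 2) ≤ 1 := by
  have h2 : Continuous (fderiv ℝ u) := (cd_fderiv hu).continuous
  have i1 : Integrable (fun x => (lap u x) ^ 2) := by
    refine ((continuous_lap hu).pow 2).integrable_of_hasCompactSupport ?_
    have := (hcs_lap hc).comp_left (g := fun x : ℝ => x ^ 2) (by norm_num)
    exact this
  have i2 : Integrable (fun x => ‖fderiv ℝ u x‖ ^ 2) := by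
    refine (h2.norm.pow 2).integrable_of_hasCompactSupport ?_
    have := (hc.fderiv ℝ).comp_left (g := fun x : E4 →L[ℝ] ℝ => ‖x‖ ^ 2) (by norm_num)
    exact this
  have e : ∀ y, en u y ^ 2 = (lap u y) ^ 2 + ‖fderiv ℝ u y‖ ^ 2 := by
    intro y; unfold en; exact Real.sq_sqrt (by positivity)
  simp_rw [e]
  have i3 : Integrable (fun y => (lap u y) ^ 2 + ‖fderiv ℝ u y‖ ^ 2) := i1.add i2
  rw [← ofReal_integral_eq_lintegral_ofReal i3 (Eventually.of_forall fun y => by
    simp only [Pi.zero_apply]; positivity)]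
  rw [integral_add i1 i2]
  exact ENNReal.ofReal_le_one.2 hE

include hu hc in
lemma rep' (x : E4) : ENNReal.ofReal (√al * |u x|) ≤
    ∫⁻ y, ENNReal.ofReal (krp ‖y - x‖) * ENNReal.ofReal (en u y) := by
  have hp := Real.pi_pos
  have h := rep hu hc x
  rw [ENNReal.ofReal_mul (Real.sqrt_nonneg _), ← Real.enorm_eq_ofReal_abs]
  have e : ∀ y, ENNReal.ofReal (krp ‖y - x‖) * ENNReal.ofReal (en u y) =
      ENNReal.ofReal (√al) * (ENNReal.ofReal (kap ‖y - x‖ / (4 * Real.pi ^ 2)) *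
        ENNReal.ofReal (en u y)) := by
    intro y
    rw [← mul_assoc, ← ENNReal.ofReal_mul (Real.sqrt_nonneg _), krp_eq (norm_nonneg _), sqrt_al]
    congr 2
    unfold krf
    field_simp
  simp_rw [e]
  rw [lintegral_const_mul' _ _ ENNReal.ofReal_ne_top]
  gcongr

/-- level sets -/
def Lv (u : E4 → ℝ) (j : ℕ) : Set E4 := {x | (j : ℝ) < al * u x ^ 2}

include hu in
lemma measurableSet_Lv (j : ℕ) : MeasurableSet (Lv u j) :=
  (isOpen_lt continuous_const (continuous_const.mul (hu.continuous.pow 2))).measurableSet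

include hc in
lemma Lv_finite (j : ℕ) : volume (Lv u j) < ∞ := by
  refine (measure_mono ?_).trans_lt hc.isCompact.measure_lt_top
  intro x hx
  by_contra hcon
  have : u x = 0 := image_eq_zero_of_notMem_tsupport hcon
  have hx' : (j : ℝ) < al * u x ^ 2 := hx
  rw [this] at hx'
  have : (0 : ℝ) ≤ j := Nat.cast_nonneg j
  simp at hx'
  linarith

include hu hc in
lemma level_main (j : ℕ) {M : ℝ} (hM : ∀ z, en u z ≤ M) :
    ENNReal.ofReal (√(j : ℝ)) * volume (Lv u j) ≤
      ∫⁻ s in Ioi (0 : ℝ), w pf (volume (Lv u j)) s * ENNReal.ofReal (fs (en u) s) := by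
  refine le_trans ?_ (oneil hM (en_nonneg u) (continuous_en hu).measurable krp_nonneg krp_measurable
    pf_nonneg pf_measurable pf_dist (Lv u j))
  rw [← setLIntegral_const]
  refine setLIntegral_mono' (measurableSet_Lv hu j) fun x hx => ?_
  refine le_trans (ENNReal.ofReal_le_ofReal ?_) (rep' hu hc x)
  have hx' : (j : ℝ) < al * u x ^ 2 := hx
  calc √(j : ℝ) ≤ √(al * u x ^ 2) := Real.sqrt_le_sqrt hx'.le
    _ = √al * |u x| := by rw [Real.sqrt_mul al_pos.le, Real.sqrt_sq_eq_abs]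

end

/-- starting level -/
def J0 : ℕ := ⌈bb ^ 2⌉₊ + 1

/-- the counting constant -/
def dd : ℕ := 2 * ⌈65 * bb ^ 2⌉₊ + 1

lemma sum_main {u : E4 → ℝ} (hu : ContDiff ℝ (⊤ : ℕ∞) u) (hc : HasCompactSupport u)
    (hE : (∫ x, (lap u x) ^ 2) + (∫ x, ‖fderiv ℝ u x‖ ^ 2) ≤ 1) :
    ∑' j : ℕ, ({j | J0 ≤ j} : Set ℕ).indicator
      (fun j => ENNReal.ofReal (Real.exp (j + 1)) * volume (Lv u j)) j ≤
    ENNReal.ofReal (Real.exp 1 * s0) *
      ∑' n : ℕ, ENNReal.ofReal (Real.exp (bb ^ 2 + 1 - n)) * ((46 * n + dd : ℕ) : ℝ≥0∞) := by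
  obtain ⟨M, hM⟩ := en_bdd hu hc
  set f := fs (en u) with hf
  have hf0 : ∀ s, 0 ≤ f s := fs_nonneg _
  have hfm : Measurable f := (fs_anti hM).measurable
  have hf2 : ∫⁻ s in Ioi (0 : ℝ), ENNReal.ofReal (f s ^ 2) ≤ 1 :=
    (fs_L2 hM (en_nonneg u) (continuous_en hu).measurable).trans (en_L2 hu hc hE)
  set t : ℕ → ℝ := fun j => (volume (Lv u j)).toReal with ht
  have htv : ∀ j, volume (Lv u j) = ENNReal.ofReal (t j) := fun j =>
    (ENNReal.ofReal_toReal (Lv_finite hc j).ne).symm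
  have hmain : ∀ j : ℕ, ENNReal.ofReal (√(j : ℝ)) * ENNReal.ofReal (t j) ≤
      ∫⁻ s in Ioi (0 : ℝ), w pf (ENNReal.ofReal (t j)) s * ENNReal.ofReal (f s) := by
    intro j
    rw [← htv j]
    exact level_main hu hc j hM
  set P : Set ℕ := {j | J0 ≤ j ∧ 0 < t j} with hP
  have hts : ∀ j ∈ P, t j ≤ s0 := by
    intro j hj
    by_contra hcon
    have h1 := level_large hf0 hfm hf2 (not_le.1 hcon) (Nat.cast_nonneg j) (hmain j)
    have h2 : (J0 : ℝ) ≤ j := by exact_mod_cast hj.1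
    have h3 : bb ^ 2 < J0 := by
      unfold J0; push_cast
      have := Nat.le_ceil (bb ^ 2)
      linarith
    linarith
  have htanti : ∀ i j : ℕ, i ≤ j → t j ≤ t i := by
    intro i j hij
    refine ENNReal.toReal_mono (Lv_finite hc i).ne (measure_mono fun x hx => ?_)
    have hx' : (j : ℝ) < al * u x ^ 2 := hx
    have : (i : ℝ) ≤ j := by exact_mod_cast hij
    exact lt_of_le_of_lt this hx'
  have hs0 := s0_pos
  set τ : ℕ → ℝ := fun j => Real.log (s0 / t j) with hτ
  set G : ℕ → ℝ := fun j => τ j - j with hG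
  have hτ0 : ∀ j ∈ P, 0 ≤ τ j := by
    intro j hj
    refine Real.log_nonneg ?_
    rw [le_div_iff₀ hj.2, one_mul]
    exact hts j hj
  have hl0 : ∀ j ∈ P, 0 ≤ ell f (t j) := by
    intro j hj
    unfold ell
    have := En_le_one hf2 (S := Icc (t j) s0) (fun s hs => hj.2.trans_le hs.1)
    linarith
  have hl1 : ∀ j, ell f (t j) ≤ 1 := by
    intro j; unfold ell; have := En_nonneg f (Icc (t j) s0); linarith
  have hself : ∀ j ∈ P, √(j : ℝ) ≤ √(τ j) * √(1 - ell f (t j)) + bb * √(ell f (t j)) := by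
    intro j hj
    have := level_ineq hf0 hfm hf2 hj.2 le_rfl (hts j hj) (hmain j)
    simpa [hτ] using this
  have hcl : ∀ j ∈ P, (j : ℝ) ≤ τ j + bb ^ 2 := fun j hj =>
    level_le (Nat.cast_nonneg j) (hτ0 j hj) (hl0 j hj) (hl1 j) (hself j hj)
  have hsum := sum_levels G P (bb ^ 2) (sq_nonneg _) (fun n => 46 * n + dd)
    (fun j hj => by simp only [hG]; linarith [hcl j hj]) (by
      intro n
      obtain ⟨T, hT, hc'⟩ := count_bound {j | j ∈ P ∧ G j ≤ n} (23 * n + ⌈65 * bb ^ 2⌉₊) (by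
        rintro i ⟨hi, hGi⟩ j ⟨hj, hGj⟩ hij hai
        have hceil := Nat.le_ceil (65 * bb ^ 2)
        have hai' : (23 * n + ⌈65 * bb ^ 2⌉₊ : ℝ) ≤ i := by exact_mod_cast hai
        have hn0 : (0 : ℝ) ≤ n := Nat.cast_nonneg n
        have hb2 : 0 ≤ bb ^ 2 := sq_nonneg _
        have hti : t j ≤ t i := htanti i j hij.le
        have key := pair_bound (j1 := (i : ℝ)) (j2 := (j : ℝ)) (τ1 := τ i) (τ2 := τ j)
          (b := bb) (l := ell f (t i)) (n := (n : ℝ)) (Nat.cast_nonneg i) (Nat.cast_nonneg j)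
          (hτ0 i hi) ?_ bb_ge (hl0 i hi) (hl1 i) hn0 (hself i hi)
          (level_ineq hf0 hfm hf2 hj.2 hti (hts i hi) (hmain j))
          (by simp only [hG] at hGi; linarith) (by simp only [hG] at hGj; linarith)
          (hcl j hj) (by linarith)
        · have : (j : ℝ) ≤ (i + (23 * n + ⌈65 * bb ^ 2⌉₊) : ℕ) := by
            push_cast
            linarith
          exact_mod_cast this
        · refine Real.log_le_log (div_pos hs0 hi.2) ?_
          exact div_le_div_of_nonneg_left hs0.le hj.2 hti)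
      refine ⟨T, hT, hc'.trans ?_⟩
      unfold dd
      omega)
  refine le_trans ?_ (mul_le_mul_right hsum _)
  rw [← ENNReal.tsum_mul_left]
  refine ENNReal.tsum_le_tsum fun j => ?_
  by_cases hj1 : J0 ≤ j
  · rw [indicator_of_mem (show j ∈ {j | J0 ≤ j} from hj1)]
    by_cases hj2 : 0 < t j
    · rw [indicator_of_mem (show j ∈ P from ⟨hj1, hj2⟩), htv j,
        ← ENNReal.ofReal_mul (Real.exp_pos _).le, ← ENNReal.ofReal_mul (by positivity)]
      refine ENNReal.ofReal_le_ofReal (le_of_eq ?_)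
      simp only [hG, hτ]
      rw [show -(Real.log (s0 / t j) - (j : ℝ)) = (j : ℝ) - Real.log (s0 / t j) by ring,
        Real.exp_sub, Real.exp_log (div_pos hs0 hj2), Real.exp_add]
      field_simp
    · have : t j = 0 := le_antisymm (not_lt.1 hj2) ENNReal.toReal_nonneg
      rw [htv j, this]
      simp
  · rw [indicator_of_notMem (by simpa using hj1)]
    exact zero_le

/-- Gagliardo–Nirenberg–Sobolev constant -/
def CG : ℝ≥0 := SNormLESNormFDerivOfEqConst ℝ (volume : Measure E4) ((2 : ℝ≥0) : ℝ)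

/-- the `L⁴` bound -/
lemma L4_bound {u : E4 → ℝ} (hu : ContDiff ℝ (⊤ : ℕ∞) u) (hc : HasCompactSupport u)
    (hE : (∫ x, (lap u x) ^ 2) + (∫ x, ‖fderiv ℝ u x‖ ^ 2) ≤ 1) :
    ∫⁻ x, ENNReal.ofReal (u x ^ 4) ≤
      (CG : ℝ≥0∞) ^ 4 := by
  have h2 : Continuous (fderiv ℝ u) := (cd_fderiv hu).continuous
  have h : eLpNorm u ((4 : ℝ≥0) : ℝ≥0∞) (volume : Measure E4) ≤
      (CG : ℝ≥0∞) * eLpNorm (fderiv ℝ u) ((2 : ℝ≥0) : ℝ≥0∞) (volume : Measure E4) :=
    eLpNorm_le_eLpNorm_fderiv_of_eq (μ := (volume : Measure E4)) (u := u)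
    (p := 2) (p' := 4) (hu.of_le (by norm_cast)) hc (by norm_num) (by simp)
    (by simp; norm_num)
  have hD : eLpNorm (fderiv ℝ u) (2 : ℝ≥0) (volume : Measure E4) ≤ 1 := by
    rw [eLpNorm_nnreal_eq_lintegral (by norm_num)]
    have i2 : Integrable (fun x => ‖fderiv ℝ u x‖ ^ 2) := by
      refine (h2.norm.pow 2).integrable_of_hasCompactSupport ?_
      have := (hc.fderiv ℝ).comp_left (g := fun x : E4 →L[ℝ] ℝ => ‖x‖ ^ 2) (by norm_num)
      exact this
    have e : ∫⁻ x, ‖fderiv ℝ u x‖ₑ ^ ((2 : ℝ≥0) : ℝ) =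
        ENNReal.ofReal (∫ x, ‖fderiv ℝ u x‖ ^ 2) := by
      rw [ofReal_integral_eq_lintegral_ofReal i2 (Eventually.of_forall fun y => by
        simp only [Pi.zero_apply]; positivity)]
      refine lintegral_congr fun x => ?_
      rw [ENNReal.ofReal_pow (norm_nonneg _), ofReal_norm]
      norm_num
    rw [e]
    refine ENNReal.rpow_le_one ?_ (by positivity)
    refine ENNReal.ofReal_le_one.2 ?_
    have : 0 ≤ ∫ x, (lap u x) ^ 2 := integral_nonneg fun x => sq_nonneg _
    linarith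
  have h' : eLpNorm u (4 : ℝ≥0) (volume : Measure E4) ≤
      (CG : ℝ≥0∞) := by
    refine h.trans ?_
    calc _ ≤ (CG : ℝ≥0∞) * 1 := by gcongr
      _ = _ := mul_one _
  rw [eLpNorm_nnreal_eq_lintegral (by norm_num)] at h'
  have h4 := ENNReal.rpow_le_rpow h' (z := (4 : ℝ)) (by norm_num)
  rw [← ENNReal.rpow_mul] at h4
  have e : ∫⁻ x, ENNReal.ofReal (u x ^ 4) = ∫⁻ x, ‖u x‖ₑ ^ ((4 : ℝ≥0) : ℝ) := by
    refine lintegral_congr fun x => ?_
    rw [Real.enorm_eq_ofReal_abs]
    have : u x ^ 4 = |u x| ^ 4 := by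
      rw [← abs_pow, abs_of_nonneg (by positivity)]
    rw [this, ENNReal.ofReal_pow (abs_nonneg _)]
    norm_num
  rw [e]
  have h5 : (1 / ((4 : ℝ≥0) : ℝ)) * (4 : ℝ) = 1 := by norm_num
  rw [h5, ENNReal.rpow_one] at h4
  refine h4.trans (le_of_eq ?_)
  norm_num

/-- pointwise bound on the exponential -/
lemma pointwise (u : E4 → ℝ) (x : E4) :
    ENNReal.ofReal (Real.exp (al * u x ^ 2) - 1 - al * u x ^ 2) ≤
      ENNReal.ofReal (Real.exp J0 * al ^ 2) * ENNReal.ofReal (u x ^ 4) +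
      ∑' j : ℕ, ({j | J0 ≤ j} : Set ℕ).indicator
        (fun j => ENNReal.ofReal (Real.exp (j + 1)) * (Lv u j).indicator 1 x) j := by
  set v := al * u x ^ 2 with hv
  have hal := al_pos
  have hv0 : 0 ≤ v := by positivity
  rcases le_or_gt v J0 with h | h
  · refine le_trans ?_ le_self_add
    rw [← ENNReal.ofReal_mul (by positivity)]
    refine ENNReal.ofReal_le_ofReal ?_
    have e1 : Real.exp v - 1 ≤ v * Real.exp v := by
      have h1 := Real.add_one_le_exp (-v)
      have h2 : Real.exp v * Real.exp (-v) = 1 := by rw [← Real.exp_add]; simp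
      nlinarith [Real.exp_pos v]
    have e2 : Real.exp v - 1 - v ≤ v ^ 2 * Real.exp v := by
      nlinarith [Real.exp_pos v]
    have e3 : Real.exp v ≤ Real.exp J0 := Real.exp_le_exp.2 h
    have e4 : Real.exp J0 * al ^ 2 * u x ^ 4 = v ^ 2 * Real.exp J0 := by rw [hv]; ring
    rw [e4]
    have : v ^ 2 * Real.exp v ≤ v ^ 2 * Real.exp J0 := by gcongr
    linarith
  · refine le_trans ?_ le_add_self
    -- choose j = ⌈v⌉ - 1
    have hv1 : 0 < v := lt_of_le_of_lt (Nat.cast_nonneg _) h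
    obtain ⟨j, hj⟩ : ∃ j : ℕ, ⌈v⌉₊ = j + 1 := ⟨⌈v⌉₊ - 1, by
      have := Nat.ceil_pos.2 hv1; omega⟩
    have h1 : (j : ℝ) < v := by
      have := Nat.lt_ceil.1 (show j < ⌈v⌉₊ by omega)
      exact this
    have h2 : v ≤ j + 1 := by
      have := Nat.le_ceil v
      rw [hj] at this
      push_cast at this
      exact this
    have h3 : J0 ≤ j := by
      have : J0 < ⌈v⌉₊ := Nat.lt_ceil.2 h
      omega
    refine le_trans ?_ (ENNReal.le_tsum j)
    rw [indicator_of_mem (show j ∈ {j | J0 ≤ j} from h3),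
      indicator_of_mem (show x ∈ Lv u j from h1)]
    simp only [Pi.one_apply, mul_one]
    refine ENNReal.ofReal_le_ofReal ?_
    have : Real.exp v ≤ Real.exp (j + 1) := Real.exp_le_exp.2 h2
    linarith

/-- the final constant -/
def Cfin : ℝ≥0∞ :=
  ENNReal.ofReal (Real.exp J0 * al ^ 2) *
      (CG : ℝ≥0∞) ^ 4 +
    ENNReal.ofReal (Real.exp 1 * s0) *
      ∑' n : ℕ, ENNReal.ofReal (Real.exp (bb ^ 2 + 1 - n)) * ((46 * n + dd : ℕ) : ℝ≥0∞)

lemma Cfin_lt_top : Cfin < ∞ := by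
  unfold Cfin
  refine ENNReal.add_lt_top.2 ⟨?_, ?_⟩
  · exact ENNReal.mul_lt_top ENNReal.ofReal_lt_top (ENNReal.pow_lt_top ENNReal.coe_lt_top)
  · exact ENNReal.mul_lt_top ENNReal.ofReal_lt_top (sum_finite _ _ _)

theorem adams {u : E4 → ℝ} (hu : ContDiff ℝ (⊤ : ℕ∞) u) (hc : HasCompactSupport u)
    (hE : (∫ x, (lap u x) ^ 2) + (∫ x, ‖fderiv ℝ u x‖ ^ 2) ≤ 1) :
    ∫⁻ x, ENNReal.ofReal (Real.exp (al * u x ^ 2) - 1 - al * u x ^ 2) ≤ Cfin := by
  have hm : ∀ j : ℕ, Measurable fun x => ({j | J0 ≤ j} : Set ℕ).indicator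
        (fun j => ENNReal.ofReal (Real.exp (j + 1)) * (Lv u j).indicator (1 : E4 → ℝ≥0∞) x) j := by
    intro j
    by_cases hj : J0 ≤ j
    · simp only [indicator_of_mem (show j ∈ {j | J0 ≤ j} from hj)]
      exact measurable_const.mul (measurable_one.indicator (measurableSet_Lv hu j))
    · simp only [indicator_of_notMem (show j ∉ {j | J0 ≤ j} from hj)]
      exact measurable_const
  calc ∫⁻ x, ENNReal.ofReal (Real.exp (al * u x ^ 2) - 1 - al * u x ^ 2)
      ≤ ∫⁻ x, (ENNReal.ofReal (Real.exp J0 * al ^ 2) * ENNReal.ofReal (u x ^ 4) +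
          ∑' j : ℕ, ({j | J0 ≤ j} : Set ℕ).indicator
            (fun j => ENNReal.ofReal (Real.exp (j + 1)) * (Lv u j).indicator 1 x) j) :=
        lintegral_mono fun x => pointwise u x
    _ = ENNReal.ofReal (Real.exp J0 * al ^ 2) * (∫⁻ x, ENNReal.ofReal (u x ^ 4)) +
          ∑' j : ℕ, ({j | J0 ≤ j} : Set ℕ).indicator
            (fun j => ENNReal.ofReal (Real.exp (j + 1)) * volume (Lv u j)) j := by
        rw [lintegral_add_right _ (Measurable.tsum hm),
          lintegral_const_mul' _ _ ENNReal.ofReal_ne_top,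
          lintegral_tsum fun j => (hm j).aemeasurable]
        congr 1
        refine tsum_congr fun j => ?_
        by_cases hj : J0 ≤ j
        · simp only [indicator_of_mem (show j ∈ {j | J0 ≤ j} from hj)]
          rw [lintegral_const_mul' _ _ ENNReal.ofReal_ne_top,
            lintegral_indicator_one (measurableSet_Lv hu j)]
        · simp only [indicator_of_notMem (show j ∉ {j | J0 ≤ j} from hj)]
          simp
    _ ≤ Cfin := by
        unfold Cfin
        exact add_le_add (mul_le_mul_right (L4_bound hu hc hE) _) (sum_main hu hc hE)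

end Pool.Agent.H649R3.Adams
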