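import Pool.Agent.H649R3.AdamsRep2

set_option autoImplicit false
open MeasureTheory Set Filter Topology Module Bornology
open scoped ENNReal

noncomputable section
namespace Pool.Agent.H649R3.Adams

/-- `(0, m)` for an extended real `m` -/
def A (m : ℝ≥0∞) : Set ℝ := {s | 0 < s ∧ ENNReal.ofReal s < m}

lemma measurableSet_A (m : ℝ≥0∞) : MeasurableSet (A m) :=
  (measurableSet_lt measurable_const measurable_id).inter
    (measurableSet_lt ENNReal.measurable_ofReal measurable_const)

lemma A_mono {m m' : ℝ≥0∞} (h : m ≤ m') : A m ⊆ A m' := fun _ hs => ⟨hs.1, hs.2.trans_le h⟩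

lemma vol_A (m : ℝ≥0∞) : volume (A m) = m := by
  by_cases hm : m = ∞
  · subst hm
    have : A ∞ = Ioi 0 := by
      ext s; simp [A]
    rw [this]; simp
  · have : A m = Ioo 0 m.toReal := by
      ext s
      simp only [A, mem_ofPred_eq, mem_Ioo]
      refine and_congr_right fun hs => ?_
      rw [ENNReal.ofReal_lt_iff_lt_toReal hs.le hm]
    rw [this, Real.volume_Ioo, sub_zero, ENNReal.ofReal_toReal hm]

/-- Hardy–Littlewood type rearrangement bound. -/
lemma HL {X : Type*} [MeasurableSpace X] (ν : Measure X) {g : X → ℝ} (hg0 : ∀ x, 0 ≤ g x)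
    (hg : Measurable g) {q : ℝ → ℝ} (hq0 : ∀ s, 0 ≤ q s) (hqm : Measurable q)
    (hq : ∀ s, 0 < s → ν {x | q s < g x} ≤ ENNReal.ofReal s) :
    ∫⁻ x, ENNReal.ofReal (g x) ∂ν ≤ ∫⁻ s in A (ν univ), ENNReal.ofReal (q s) := by
  rw [lintegral_eq_lintegral_meas_lt ν (Eventually.of_forall hg0) hg.aemeasurable,
    lintegral_eq_lintegral_meas_lt _ (Eventually.of_forall hq0) hqm.aemeasurable]
  refine setLIntegral_mono' measurableSet_Ioi fun t ht => ?_
  rw [Measure.restrict_apply (measurableSet_lt measurable_const hqm),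
    ← vol_A (ν {a | t < g a})]
  refine measure_mono fun s hs => ⟨?_, hs.1, hs.2.trans_le (measure_mono (subset_univ _))⟩
  by_contra hcon
  have hcon' : q s ≤ t := not_lt.1 hcon
  have : ν {a | t < g a} ≤ ENNReal.ofReal s :=
    (measure_mono fun a (ha : t < g a) => lt_of_le_of_lt hcon' ha).trans (hq s hs.1)
  exact absurd hs.2 (not_lt.2 this)

section kernel
variable {kr q : ℝ → ℝ} (hk0 : ∀ r, 0 ≤ kr r) (hkm : Measurable kr)
  (hq0 : ∀ s, 0 ≤ q s) (hqm : Measurable q)
  (hq : ∀ s, 0 < s → volume {z : E4 | q s < kr ‖z‖} ≤ ENNReal.ofReal s)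

/-- primitive of `q` -/
def K (q : ℝ → ℝ) (m : ℝ≥0∞) : ℝ≥0∞ := ∫⁻ s in A m, ENNReal.ofReal (q s)

include hk0 hkm hq0 hqm hq in
lemma bathtub (S : Set E4) (x : E4) :
    ∫⁻ y in S, ENNReal.ofReal (kr ‖y - x‖) ≤ K q (volume S) := by
  have h := HL ((volume : Measure E4).restrict S) (g := fun y => kr ‖y - x‖) (fun _ => hk0 _)
    (hkm.comp (by fun_prop)) hq0 hqm ?_
  · rwa [Measure.restrict_apply_univ] at h
  · intro s hs
    refine (Measure.restrict_apply_le _ _).trans ?_
    have : {y : E4 | q s < kr ‖y - x‖} = (fun y => y + (-x)) ⁻¹' {z : E4 | q s < kr ‖z‖} := by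
      ext y; simp [sub_eq_add_neg]
    rw [this, measure_preimage_add_right]
    exact hq s hs

/-- the double integral -/
def D (kr : ℝ → ℝ) (E S : Set E4) : ℝ≥0∞ := ∫⁻ y in S, ∫⁻ x in E, ENNReal.ofReal (kr ‖y - x‖)

include hk0 hkm hq0 hqm hq in
lemma D_le1 (E S : Set E4) : D kr E S ≤ volume S * K q (volume E) := by
  unfold D
  calc ∫⁻ y in S, ∫⁻ x in E, ENNReal.ofReal (kr ‖y - x‖)
      ≤ ∫⁻ _ in S, K q (volume E) := by
        refine lintegral_mono fun y => ?_
        simp_rw [norm_sub_rev y]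
        exact bathtub hk0 hkm hq0 hqm hq E y
    _ = _ := by rw [setLIntegral_const, mul_comm]

include hk0 hkm hq0 hqm hq in
lemma D_le2 (E S : Set E4) : D kr E S ≤ volume E * K q (volume S) := by
  unfold D
  rw [lintegral_lintegral_swap]
  · calc ∫⁻ x in E, ∫⁻ y in S, ENNReal.ofReal (kr ‖y - x‖)
        ≤ ∫⁻ _ in E, K q (volume S) := by
          refine lintegral_mono fun x => ?_
          exact bathtub hk0 hkm hq0 hqm hq S x
      _ = _ := by rw [setLIntegral_const, mul_comm]
  · exact (ENNReal.measurable_ofReal.comp (hkm.comp (by fun_prop))).aemeasurable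

/-- O'Neil weight -/
def w (q : ℝ → ℝ) (t : ℝ≥0∞) (s : ℝ) : ℝ≥0∞ :=
  if ENNReal.ofReal s < t then K q t else t * ENNReal.ofReal (q s)

include hqm in
lemma measurable_w (t : ℝ≥0∞) : Measurable (w q t) := by
  unfold w
  refine Measurable.ite (measurableSet_lt ENNReal.measurable_ofReal measurable_const)
    measurable_const ?_
  exact measurable_const.mul (ENNReal.measurable_ofReal.comp hqm)

include hk0 hkm hq0 hqm hq in
lemma D_le (E S : Set E4) :
    D kr E S ≤ ∫⁻ s in A (volume S), w q (volume E) s := by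
  rcases le_or_gt (volume S) (volume E) with h | h
  · refine (D_le1 hk0 hkm hq0 hqm hq E S).trans (le_of_eq ?_)
    have : ∫⁻ s in A (volume S), w q (volume E) s = ∫⁻ s in A (volume S), K q (volume E) := by
      refine setLIntegral_congr_fun (measurableSet_A _) fun s hs => ?_
      unfold w
      rw [if_pos (hs.2.trans_le h)]
    rw [this, setLIntegral_const, vol_A, mul_comm]
  · refine (D_le2 hk0 hkm hq0 hqm hq E S).trans (le_of_eq ?_)
    have hsub : A (volume E) ⊆ A (volume S) := A_mono h.le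
    have hsplit : ∀ f : ℝ → ℝ≥0∞, ∫⁻ s in A (volume S), f s =
        (∫⁻ s in A (volume E), f s) + ∫⁻ s in A (volume S) \ A (volume E), f s := by
      intro f
      rw [← lintegral_inter_add_sdiff f (A (volume S)) (measurableSet_A (volume E)),
        inter_eq_self_of_subset_right hsub]
    rw [hsplit, K, hsplit]
    have e1 : ∫⁻ s in A (volume E), w q (volume E) s = volume E * K q (volume E) := by
      have : ∫⁻ s in A (volume E), w q (volume E) s = ∫⁻ s in A (volume E), K q (volume E) := by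
        refine setLIntegral_congr_fun (measurableSet_A _) fun s hs => ?_
        unfold w
        rw [if_pos hs.2]
      rw [this, setLIntegral_const, vol_A, mul_comm]
    have e2 : ∫⁻ s in A (volume S) \ A (volume E), w q (volume E) s =
        volume E * ∫⁻ s in A (volume S) \ A (volume E), ENNReal.ofReal (q s) := by
      rw [← lintegral_const_mul _ hqm.ennreal_ofReal]
      refine setLIntegral_congr_fun ((measurableSet_A _).diff (measurableSet_A _)) fun s hs => ?_
      unfold w
      rw [if_neg]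
      intro hlt
      exact hs.2 ⟨hs.1.1, hlt⟩
    rw [e1, e2, K, mul_add]

end kernel

section rearr
variable {F : E4 → ℝ} {M : ℝ}

/-- distribution function -/
def dist' (F : E4 → ℝ) (h : ℝ) : ℝ≥0∞ := volume {y | h < F y}

lemma dist'_anti (F : E4 → ℝ) : Antitone (dist' F) := fun _ _ hab =>
  measure_mono fun _ hy => lt_of_le_of_lt hab hy

/-- decreasing rearrangement -/
def fs (F : E4 → ℝ) (s : ℝ) : ℝ := sSup {h | 0 ≤ h ∧ ENNReal.ofReal s < dist' F h}

lemma fs_nonneg (F : E4 → ℝ) (s : ℝ) : 0 ≤ fs F s := Real.sSup_nonneg fun _ h => h.1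

variable (hM : ∀ y, F y ≤ M)

include hM in
lemma fs_bdd (s : ℝ) : BddAbove {h | 0 ≤ h ∧ ENNReal.ofReal s < dist' F h} := by
  refine ⟨M, fun h hh => ?_⟩
  by_contra hcon
  have hcon' : M < h := not_le.1 hcon
  have : dist' F h = 0 := by
    unfold dist'
    have : {y | h < F y} = ∅ := by
      ext y; simp only [mem_ofPred_eq, mem_empty_iff_false, iff_false, not_lt]
      exact (hM y).trans hcon'.le
    rw [this]; simp
  have h2 : ENNReal.ofReal s < dist' F h := hh.2
  rw [this] at h2
  exact not_lt_zero h2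

include hM in
lemma le_fs {s h : ℝ} (h0 : 0 ≤ h) (hs : ENNReal.ofReal s < dist' F h) : h ≤ fs F s :=
  le_csSup (fs_bdd hM s) ⟨h0, hs⟩

lemma lt_fs {s h : ℝ} (h0 : 0 ≤ h) (hs : h < fs F s) : ENNReal.ofReal s < dist' F h := by
  have hne : {h | 0 ≤ h ∧ ENNReal.ofReal s < dist' F h}.Nonempty := by
    by_contra hcon
    rw [not_nonempty_iff_eq_empty] at hcon
    unfold fs at hs
    rw [hcon, Real.sSup_empty] at hs
    linarith
  obtain ⟨h', hh', hlt⟩ := exists_lt_of_lt_csSup hne hs
  exact hh'.2.trans_le (dist'_anti F hlt.le)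

include hM in
lemma fs_anti : Antitone (fs F) := by
  intro s s' hss
  unfold fs
  rcases eq_empty_or_nonempty {h | 0 ≤ h ∧ ENNReal.ofReal s' < dist' F h} with he | hne
  · rw [he, Real.sSup_empty]
    exact Real.sSup_nonneg fun _ h => h.1
  · exact csSup_le_csSup (fs_bdd hM s) hne fun h hh =>
      ⟨hh.1, (ENNReal.ofReal_le_ofReal hss).trans_lt hh.2⟩

variable (hF0 : ∀ y, 0 ≤ F y) (hFm : Measurable F)

include hM hF0 hFm in
/-- L² norm does not increase -/
lemma fs_L2 : ∫⁻ s in Ioi (0 : ℝ), ENNReal.ofReal (fs F s ^ 2) ≤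
    ∫⁻ y, ENNReal.ofReal (F y ^ 2) := by
  have h1 := lintegral_rpow_eq_lintegral_meas_lt_mul ((volume : Measure ℝ).restrict (Ioi 0))
    (f := fs F) (Eventually.of_forall (fs_nonneg F)) (fs_anti hM).measurable.aemeasurable
    (p := 2) (by norm_num)
  have h2 := lintegral_rpow_eq_lintegral_meas_lt_mul (volume : Measure E4)
    (f := F) (Eventually.of_forall hF0) hFm.aemeasurable (p := 2) (by norm_num)
  simp only [Real.rpow_two] at h1 h2
  rw [h1, h2]
  gcongr ENNReal.ofReal 2 * ?_
  refine setLIntegral_mono' measurableSet_Ioi fun h hh => ?_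
  gcongr
  have hh0 : (0 : ℝ) < h := hh
  rw [Measure.restrict_apply (measurableSet_lt measurable_const (fs_anti hM).measurable)]
  calc volume ({a | h < fs F a} ∩ Ioi 0) ≤ volume (A (dist' F h)) := by
        refine measure_mono fun s hs => ⟨hs.2, lt_fs hh0.le hs.1⟩
    _ = dist' F h := vol_A _
    _ = _ := rfl

variable {kr q : ℝ → ℝ} (hk0 : ∀ r, 0 ≤ kr r) (hkm : Measurable kr)
  (hq0 : ∀ s, 0 ≤ q s) (hqm : Measurable q)
  (hq : ∀ s, 0 < s → volume {z : E4 | q s < kr ‖z‖} ≤ ENNReal.ofReal s)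

include hM hF0 hFm hk0 hkm hq0 hqm hq in
/-- O'Neil's inequality -/
lemma oneil (E : Set E4) :
    ∫⁻ x in E, ∫⁻ y, ENNReal.ofReal (kr ‖y - x‖) * ENNReal.ofReal (F y) ≤
      ∫⁻ s in Ioi (0 : ℝ), w q (volume E) s * ENNReal.ofReal (fs F s) := by
  -- swap
  have hmk : Measurable (fun p : E4 × E4 => ENNReal.ofReal (kr ‖p.2 - p.1‖)) :=
    ENNReal.measurable_ofReal.comp (hkm.comp (by fun_prop))
  have hmk' : Measurable (fun p : E4 × E4 => ENNReal.ofReal (kr ‖p.1 - p.2‖)) :=
    ENNReal.measurable_ofReal.comp (hkm.comp (by fun_prop))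
  rw [lintegral_lintegral_swap]
  swap
  · exact (hmk.mul (ENNReal.measurable_ofReal.comp (hFm.comp measurable_snd))).aemeasurable
  set G : E4 → ℝ≥0∞ := fun y => ∫⁻ x in E, ENNReal.ofReal (kr ‖y - x‖) with hG
  have hGm : Measurable G := hmk'.lintegral_prod_right'
  have e1 : ∫⁻ y, ∫⁻ x in E, ENNReal.ofReal (kr ‖y - x‖) * ENNReal.ofReal (F y) =
      ∫⁻ y, ENNReal.ofReal (F y) ∂((volume : Measure E4).withDensity G) := by
    rw [lintegral_withDensity_eq_lintegral_mul _ hGm hFm.ennreal_ofReal]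
    refine lintegral_congr fun y => ?_
    simp only [Pi.mul_apply]
    have hmy : Measurable (fun x : E4 => ENNReal.ofReal (kr ‖y - x‖)) :=
      (hkm.comp (by fun_prop : Measurable fun x : E4 => ‖y - x‖)).ennreal_ofReal
    rw [lintegral_mul_const _ hmy]
  rw [e1, lintegral_eq_lintegral_meas_lt _ (Eventually.of_forall hF0) hFm.aemeasurable]
  have e2 : ∫⁻ s in Ioi (0 : ℝ), w q (volume E) s * ENNReal.ofReal (fs F s) =
      ∫⁻ s, ENNReal.ofReal (fs F s)
        ∂(((volume : Measure ℝ).restrict (Ioi 0)).withDensity (w q (volume E))) := by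
    rw [lintegral_withDensity_eq_lintegral_mul _ (measurable_w hqm _)
      (fs_anti hM).measurable.ennreal_ofReal]
    rfl
  rw [e2, lintegral_eq_lintegral_meas_le _ (Eventually.of_forall (fs_nonneg F))
    (fs_anti hM).measurable.aemeasurable]
  refine setLIntegral_mono' measurableSet_Ioi fun h hh => ?_
  have hh0 : (0 : ℝ) < h := hh
  have hms : MeasurableSet {y | h < F y} := measurableSet_lt measurable_const hFm
  have hms2 : MeasurableSet {s : ℝ | h ≤ fs F s} :=
    measurableSet_le measurable_const (fs_anti hM).measurable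
  rw [withDensity_apply _ hms, withDensity_apply _ hms2]
  have hD := D_le hk0 hkm hq0 hqm hq E {y | h < F y}
  refine (le_of_eq rfl).trans (hD.trans ?_)
  rw [Measure.restrict_restrict hms2]
  refine lintegral_mono_set fun s hs => ⟨le_fs hM hh0.le hs.2, hs.1⟩

end rearr

end Pool.Agent.H649R3.Adams
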