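import Mathlib

/-!
Pointwise representation bound in `ℝ⁴`:
`|u x| ≤ ∫ k(x-y) √((Δu)² + |∇u|²)(y) dy`, `k(z) = min(|z|⁻², 2|z|⁻³)/(4π²)`.
-/

set_option autoImplicit false
open MeasureTheory Set Filter Topology Module Bornology
open scoped ENNReal

noncomputable section
namespace Pool.Agent.H649R3.Adams

abbrev E4 := EuclideanSpace ℝ (Fin 4)

/-- standard basis vector -/
abbrev bv (i : Fin 4) : E4 := EuclideanSpace.single i (1 : ℝ)

/-- regularised Newton kernel (times `4π²`) -/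
def nk (ε : ℝ) (z : E4) : ℝ := (‖z‖ ^ 2 + ε)⁻¹

/-- its partial derivatives -/
def dk (ε : ℝ) (i : Fin 4) (z : E4) : ℝ := -(2 * z i) * ((‖z‖ ^ 2 + ε) ^ 2)⁻¹

lemma inner_bv (z : E4) (i : Fin 4) : inner ℝ z (bv i) = z i := by
  simp [bv, EuclideanSpace.inner_single_right]

lemma hasFDerivAt_nsq (z : E4) :
    HasFDerivAt (fun z : E4 => ‖z‖ ^ 2) (2 • (innerSL ℝ z)) z :=
  (hasStrictFDerivAt_norm_sq z).hasFDerivAt

lemma pos_den {ε : ℝ} (hε : 0 < ε) (z : E4) : 0 < ‖z‖ ^ 2 + ε := by positivity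

lemma nk_hasFDerivAt {ε : ℝ} (hε : 0 < ε) (z : E4) :
    HasFDerivAt (nk ε) (-((‖z‖ ^ 2 + ε) ^ 2)⁻¹ • (2 • (innerSL ℝ z))) z := by
  have h1 : HasFDerivAt (fun z : E4 => ‖z‖ ^ 2 + ε) (2 • (innerSL ℝ z)) z :=
    (hasFDerivAt_nsq z).add_const ε
  have h2 := (hasDerivAt_inv (pos_den hε z).ne').comp_hasFDerivAt z h1
  exact h2

lemma nk_fderiv_bv {ε : ℝ} (hε : 0 < ε) (i : Fin 4) (z : E4) :
    fderiv ℝ (nk ε) z (bv i) = dk ε i z := by
  rw [(nk_hasFDerivAt hε z).fderiv]
  simp only [_root_.smul_apply, innerSL_apply_apply, inner_bv, dk]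
  simp only [nsmul_eq_mul, smul_eq_mul]
  push_cast
  ring

lemma dk_fderiv_bv {ε : ℝ} (hε : 0 < ε) (i : Fin 4) (z : E4) :
    HasFDerivAt (dk ε i) (fderiv ℝ (dk ε i) z) z ∧
    fderiv ℝ (dk ε i) z (bv i) =
      -2 * ((‖z‖ ^ 2 + ε) ^ 2)⁻¹ + 8 * (z i) ^ 2 * ((‖z‖ ^ 2 + ε) ^ 3)⁻¹ := by
  have h1 : HasFDerivAt (fun z : E4 => ‖z‖ ^ 2 + ε) (2 • (innerSL ℝ z)) z :=
    (hasFDerivAt_nsq z).add_const ε
  have hp := pos_den hε z
  have h2 := h1.pow 2
  have h3 := (hasDerivAt_inv (pow_ne_zero 2 hp.ne')).comp_hasFDerivAt z h2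
  have h4 : HasFDerivAt (fun z : E4 => z i) (EuclideanSpace.proj i : E4 →L[ℝ] ℝ) z :=
    (EuclideanSpace.proj i : E4 →L[ℝ] ℝ).hasFDerivAt
  have h5 : HasFDerivAt (fun z : E4 => -(2 * z i))
      (-((2 : ℝ) • (EuclideanSpace.proj i : E4 →L[ℝ] ℝ))) z :=
    (h4.const_mul 2).neg
  have h6 := h5.mul h3
  have h7 : HasFDerivAt (dk ε i) _ z := h6
  refine ⟨h7.differentiableAt.hasFDerivAt, ?_⟩
  rw [h7.fderiv]
  have hpr : (EuclideanSpace.proj i : E4 →L[ℝ] ℝ) (bv i) = 1 := by simp [bv]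
  simp only [_root_.add_apply, _root_.smul_apply, innerSL_apply_apply,
    inner_bv, _root_.neg_apply, hpr, Function.comp]
  simp only [nsmul_eq_mul, smul_eq_mul]
  push_cast
  field_simp
  ring

lemma sum_sq (z : E4) : ∑ i : Fin 4, (z i) ^ 2 = ‖z‖ ^ 2 := by
  rw [EuclideanSpace.norm_sq_eq]
  simp

lemma sum_dk {ε : ℝ} (hε : 0 < ε) (z : E4) :
    ∑ i : Fin 4, fderiv ℝ (dk ε i) z (bv i) = -8 * ε * ((‖z‖ ^ 2 + ε) ^ 3)⁻¹ := by
  have hp := pos_den hε z
  simp_rw [fun i => (dk_fderiv_bv hε i z).2]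
  rw [Finset.sum_add_distrib, ← Finset.sum_mul, ← Finset.sum_mul, ← Finset.mul_sum, sum_sq]
  simp only [Finset.sum_const, Finset.card_univ, Fintype.card_fin, nsmul_eq_mul]
  push_cast
  field_simp
  ring

lemma continuous_nk {ε : ℝ} (hε : 0 < ε) : Continuous (nk ε) := by
  unfold nk
  exact ((continuous_norm.pow 2).add continuous_const).inv₀ fun z => (pos_den hε z).ne'

lemma continuous_dk {ε : ℝ} (hε : 0 < ε) (i : Fin 4) : Continuous (dk ε i) := by
  unfold dk
  refine Continuous.mul (by fun_prop) ?_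
  exact (((continuous_norm.pow 2).add continuous_const).pow 2).inv₀
    fun z => (pow_ne_zero 2 (pos_den hε z).ne')

lemma continuous_ddk {ε : ℝ} (hε : 0 < ε) (i : Fin 4) :
    Continuous (fun z => fderiv ℝ (dk ε i) z (bv i)) := by
  have : (fun z => fderiv ℝ (dk ε i) z (bv i)) = fun z : E4 =>
      -2 * ((‖z‖ ^ 2 + ε) ^ 2)⁻¹ + 8 * (z i) ^ 2 * ((‖z‖ ^ 2 + ε) ^ 3)⁻¹ := by
    funext z; exact (dk_fderiv_bv hε i z).2
  rw [this]
  have c1 : Continuous fun z : E4 => ((‖z‖ ^ 2 + ε) ^ 2)⁻¹ :=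
    (((continuous_norm.pow 2).add continuous_const).pow 2).inv₀
      fun z => (pow_ne_zero 2 (pos_den hε z).ne')
  have c2 : Continuous fun z : E4 => ((‖z‖ ^ 2 + ε) ^ 3)⁻¹ :=
    (((continuous_norm.pow 2).add continuous_const).pow 3).inv₀
      fun z => (pow_ne_zero 3 (pos_den hε z).ne')
  exact (continuous_const.mul c1).add (Continuous.mul (by fun_prop) c2)

/-- the Laplacian, as written in the frozen statement -/
def lap (v : E4 → ℝ) (z : E4) : ℝ :=
  ∑ i : Fin 4, fderiv ℝ (fderiv ℝ v) z (bv i) (bv i)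

section
variable {v : E4 → ℝ} (hv : ContDiff ℝ (⊤ : ℕ∞) v) (hc : HasCompactSupport v)
include hv

lemma cd_fderiv : ContDiff ℝ (⊤ : ℕ∞) (fderiv ℝ v) := by
  have := hv
  exact (contDiff_infty_iff_fderiv.1 this).2

lemma cd_part (i : Fin 4) : ContDiff ℝ (⊤ : ℕ∞) (fun z => fderiv ℝ v z (bv i)) :=
  (cd_fderiv hv).clm_apply contDiff_const

lemma part_part (i : Fin 4) (z : E4) :
    fderiv ℝ (fun z => fderiv ℝ v z (bv i)) z (bv i) = fderiv ℝ (fderiv ℝ v) z (bv i) (bv i) := by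
  have h : DifferentiableAt ℝ (fderiv ℝ v) z :=
    (cd_fderiv hv).differentiable (by simp) z
  rw [fderiv_clm_apply h (differentiableAt_const _)]
  simp

lemma continuous_pp (i : Fin 4) :
    Continuous fun z => fderiv ℝ (fderiv ℝ v) z (bv i) (bv i) := by
  have h2 : ContDiff ℝ (⊤ : ℕ∞) (fderiv ℝ (fderiv ℝ v)) := cd_fderiv (v := v) hv |> fun h =>
    (contDiff_infty_iff_fderiv.1 h).2
  exact ((h2.continuous.clm_apply continuous_const).clm_apply continuous_const)

lemma continuous_lap : Continuous (lap v) := by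
  unfold lap
  exact continuous_finsetSum _ fun i _ => continuous_pp hv i

lemma continuous_part (i : Fin 4) : Continuous fun z => fderiv ℝ v z (bv i) :=
  (cd_part hv i).continuous

include hc

omit hv in
lemma hcs_part (i : Fin 4) : HasCompactSupport fun z => fderiv ℝ v z (bv i) :=
  (hc.fderiv ℝ).mono' (by
    refine (Function.support_subset_iff'.2 fun z hz => ?_).trans subset_closure
    rw [Function.notMem_support] at hz
    simp [hz])

omit hv in
lemma hcs_pp (i : Fin 4) : HasCompactSupport fun z => fderiv ℝ (fderiv ℝ v) z (bv i) (bv i) :=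
  ((hc.fderiv ℝ).fderiv ℝ).mono' (by
    refine (Function.support_subset_iff'.2 fun z hz => ?_).trans subset_closure
    rw [Function.notMem_support] at hz
    simp [hz])

lemma green1 {ε : ℝ} (hε : 0 < ε) (i : Fin 4) :
    ∫ z, nk ε z * fderiv ℝ (fderiv ℝ v) z (bv i) (bv i) =
      -∫ z, dk ε i z * fderiv ℝ v z (bv i) := by
  have h := integral_mul_fderiv_eq_neg_fderiv_mul_of_integrable (μ := (volume : Measure E4))
    (f := nk ε) (g := fun z => fderiv ℝ v z (bv i)) (v := bv i) ?_ ?_ ?_ ?_ ?_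
  · simp_rw [part_part hv i, nk_fderiv_bv hε i] at h
    exact h
  · simp_rw [nk_fderiv_bv hε i]
    exact ((continuous_dk hε i).mul (continuous_part hv i)).integrable_of_hasCompactSupport
      (hcs_part hc i).mul_left
  · simp_rw [part_part hv i]
    exact ((continuous_nk hε).mul (continuous_pp hv i)).integrable_of_hasCompactSupport
      (hcs_pp hc i).mul_left
  · exact ((continuous_nk hε).mul (continuous_part hv i)).integrable_of_hasCompactSupport
      (hcs_part hc i).mul_left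
  · intro z _; exact (nk_hasFDerivAt hε z).differentiableAt
  · intro z _; exact (cd_part hv i).differentiable (by simp) z

lemma green2 {ε : ℝ} (hε : 0 < ε) (i : Fin 4) :
    ∫ z, dk ε i z * fderiv ℝ v z (bv i) =
      -∫ z, fderiv ℝ (dk ε i) z (bv i) * v z := by
  refine integral_mul_fderiv_eq_neg_fderiv_mul_of_integrable (μ := (volume : Measure E4))
    (f := dk ε i) (g := v) (v := bv i) ?_ ?_ ?_ ?_ ?_
  · exact ((continuous_ddk hε i).mul hv.continuous).integrable_of_hasCompactSupport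
      hc.mul_left
  · exact ((continuous_dk hε i).mul (continuous_part hv i)).integrable_of_hasCompactSupport
      (hcs_part hc i).mul_left
  · exact ((continuous_dk hε i).mul hv.continuous).integrable_of_hasCompactSupport
      hc.mul_left
  · intro z _; exact (dk_fderiv_bv hε i z).1.differentiableAt
  · intro z _; exact hv.differentiable (by simp) z

lemma int_nk_lap {ε : ℝ} (hε : 0 < ε) :
    ∫ z, nk ε z * lap v z = -∑ i : Fin 4, ∫ z, dk ε i z * fderiv ℝ v z (bv i) := by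
  have : (fun z => nk ε z * lap v z) =
      fun z => ∑ i : Fin 4, nk ε z * fderiv ℝ (fderiv ℝ v) z (bv i) (bv i) := by
    funext z; rw [lap, Finset.mul_sum]
  rw [this, integral_finsetSum, ← Finset.sum_neg_distrib]
  · exact Finset.sum_congr rfl fun i _ => green1 hv hc hε i
  · intro i _
    exact ((continuous_nk hε).mul (continuous_pp hv i)).integrable_of_hasCompactSupport
      (hcs_pp hc i).mul_left

lemma int_nk_lap' {ε : ℝ} (hε : 0 < ε) :
    ∫ z, nk ε z * lap v z = -∫ z, 8 * ε * ((‖z‖ ^ 2 + ε) ^ 3)⁻¹ * v z := by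
  rw [int_nk_lap hv hc hε]
  simp_rw [green2 hv hc hε]
  rw [Finset.sum_neg_distrib, neg_neg, ← integral_finsetSum, ← integral_neg]
  · congr 1
    funext z
    rw [← Finset.sum_mul, sum_dk hε z]
    ring
  · intro i _
    exact ((continuous_ddk hε i).mul hv.continuous).integrable_of_hasCompactSupport
      hc.mul_left

end

end Pool.Agent.H649R3.Adams
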