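import Pool.Agent.H649R3.AdamsRep

set_option autoImplicit false
open MeasureTheory Set Filter Topology Module Bornology
open scoped ENNReal

noncomputable section
namespace Pool.Agent.H649R3.Adams

/-- kernel profile (times `4π²`) -/
def kap (r : ℝ) : ℝ := min (r ^ 2)⁻¹ (2 * (r ^ 3)⁻¹)

/-- the energy density -/
def en (v : E4 → ℝ) (z : E4) : ℝ := Real.sqrt (lap v z ^ 2 + ‖fderiv ℝ v z‖ ^ 2)

lemma en_nonneg (v : E4 → ℝ) (z : E4) : 0 ≤ en v z := Real.sqrt_nonneg _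

/-- two-term Cauchy-Schwarz -/
lemma cs2 (a b x y : ℝ) : a * x + b * y ≤ Real.sqrt (a ^ 2 + b ^ 2) * Real.sqrt (x ^ 2 + y ^ 2) := by
  rw [← Real.sqrt_mul (by positivity)]
  refine Real.le_sqrt_of_sq_le ?_
  nlinarith [sq_nonneg (a * y - b * x)]

lemma kernel_bound {r ε : ℝ} (hr : 0 < r) (hε : 0 < ε) (hε1 : ε ≤ 1) :
    Real.sqrt (((r ^ 2 + ε)⁻¹ - (r ^ 2 + 1)⁻¹) ^ 2 + (2 * r * ((r ^ 2 + 1) ^ 2)⁻¹) ^ 2)
      ≤ kap r := by
  have h1 : 0 < r ^ 2 + ε := by positivity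
  have h2 : 0 < r ^ 2 + 1 := by positivity
  have h0 : 0 < r ^ 2 := by positivity
  have hA0 : 0 ≤ (r ^ 2 + ε)⁻¹ - (r ^ 2 + 1)⁻¹ := by
    rw [sub_nonneg]
    exact inv_anti₀ h1 (by linarith)
  have hA : (r ^ 2 + ε)⁻¹ - (r ^ 2 + 1)⁻¹ ≤ (r ^ 2 * (r ^ 2 + 1))⁻¹ := by
    have : (r ^ 2 + ε)⁻¹ ≤ (r ^ 2)⁻¹ := inv_anti₀ h0 (by linarith)
    have e : (r ^ 2 * (r ^ 2 + 1))⁻¹ = (r ^ 2)⁻¹ - (r ^ 2 + 1)⁻¹ := by
      field_simp
      ring
    rw [e]; linarith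
  have hA2 : ((r ^ 2 + ε)⁻¹ - (r ^ 2 + 1)⁻¹) ^ 2 ≤ ((r ^ 2 * (r ^ 2 + 1))⁻¹) ^ 2 :=
    pow_le_pow_left₀ hA0 hA 2
  unfold kap
  refine le_min ?_ ?_
  · refine Real.sqrt_le_iff.2 ⟨by positivity, ?_⟩
    refine (add_le_add_left hA2 _).trans ?_
    have e : ((r ^ 2)⁻¹) ^ 2 - (((r ^ 2 * (r ^ 2 + 1))⁻¹) ^ 2 + (2 * r * ((r ^ 2 + 1) ^ 2)⁻¹) ^ 2)
        = (r ^ 6 + 5 * r ^ 2 + 2) / (r ^ 2 * (r ^ 2 + 1) ^ 4) := by
      field_simp
      ring
    have : 0 ≤ (r ^ 6 + 5 * r ^ 2 + 2) / (r ^ 2 * (r ^ 2 + 1) ^ 4) := by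
      positivity
    linarith
  · refine Real.sqrt_le_iff.2 ⟨by positivity, ?_⟩
    refine (add_le_add_left hA2 _).trans ?_
    have e : (2 * (r ^ 3)⁻¹) ^ 2 - (((r ^ 2 * (r ^ 2 + 1))⁻¹) ^ 2 + (2 * r * ((r ^ 2 + 1) ^ 2)⁻¹) ^ 2)
        = (4 * (r ^ 2 + 1) ^ 4 - (r ^ 2 * (r ^ 2 + 1) ^ 2 + 4 * r ^ 8)) / (r ^ 6 * (r ^ 2 + 1) ^ 4) := by
      field_simp
      ring
    have : 0 ≤ (4 * (r ^ 2 + 1) ^ 4 - (r ^ 2 * (r ^ 2 + 1) ^ 2 + 4 * r ^ 8)) / (r ^ 6 * (r ^ 2 + 1) ^ 4) := by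
      apply div_nonneg _ (by positivity)
      nlinarith [pow_pos hr 6, pow_pos hr 4, pow_pos hr 2, pow_pos hr 8]
    linarith

/-- the approximate identity -/
def phi (z : E4) : ℝ := (2 / Real.pi ^ 2) * ((‖z‖ ^ 2 + 1) ^ 3)⁻¹

lemma phi_nonneg (z : E4) : 0 ≤ phi z := by unfold phi; positivity

lemma vol_ball (r : ℝ) : volume (Metric.ball (0 : E4) r) = ENNReal.ofReal r ^ 4 * ENNReal.ofReal (Real.pi ^ 2 / 2) := by
  have := InnerProductSpace.volume_ball_of_dim_even (E := E4) (k := 2) (by simp) 0 r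
  rw [this]
  simp [Nat.factorial]

lemma radial_int : ∫ y in Ioi (0 : ℝ), y ^ 3 * ((y ^ 2 + 1) ^ 3)⁻¹ = 1 / 4 := by
  have h := integral_Ioi_of_hasDerivAt_of_nonneg' (a := (0 : ℝ)) (l := 1 / 4)
    (g := fun y : ℝ => (1 / 4) * (1 - (y ^ 2 + 1)⁻¹) ^ 2)
    (g' := fun y : ℝ => y ^ 3 * ((y ^ 2 + 1) ^ 3)⁻¹) ?_ ?_ ?_
  · rw [h]; norm_num
  · intro y _
    have hp : (y ^ 2 + 1) ≠ 0 := by positivity
    have h1 : HasDerivAt (fun y : ℝ => y ^ 2 + 1) (2 * y) y := by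
      simpa using (hasDerivAt_pow 2 y).add_const (1 : ℝ)
    have h2 : HasDerivAt (fun y : ℝ => (1 / 4) * (1 - (y ^ 2 + 1)⁻¹) ^ 2) _ y :=
      ((h1.inv hp).const_sub 1).pow 2 |>.const_mul (1 / 4)
    refine h2.congr_deriv ?_
    simp only [Pi.inv_apply]
    push_cast
    field_simp
    ring
  · intro y hy
    have : 0 < y := hy
    positivity
  · have h1 : Tendsto (fun y : ℝ => y ^ 2 + 1) atTop atTop :=
      tendsto_atTop_add_const_right _ _ (tendsto_pow_atTop (by norm_num))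
    have h2 := (((tendsto_inv_atTop_zero.comp h1).const_sub 1).pow 2).const_mul (1 / 4 : ℝ)
    simpa using h2

lemma phi_int : ∫ z : E4, phi z = 1 := by
  have h := integral_fun_norm_addHaar (volume : Measure E4)
    (fun r : ℝ => (2 / Real.pi ^ 2) * ((r ^ 2 + 1) ^ 3)⁻¹)
  have e : (fun z : E4 => phi z) = fun z : E4 => (2 / Real.pi ^ 2) * ((‖z‖ ^ 2 + 1) ^ 3)⁻¹ := rfl
  rw [e, h]
  have hd : finrank ℝ E4 = 4 := by simp
  rw [hd]
  have hb : (volume : Measure E4).real (Metric.ball 0 1) = Real.pi ^ 2 / 2 := by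
    rw [measureReal_def, vol_ball]
    simp
    positivity
  rw [hb]
  have : ∀ y : ℝ, y ^ (4 - 1) • ((2 / Real.pi ^ 2) * ((y ^ 2 + 1) ^ 3)⁻¹) =
      (2 / Real.pi ^ 2) * (y ^ 3 * ((y ^ 2 + 1) ^ 3)⁻¹) := by
    intro y; simp only [smul_eq_mul]; ring
  simp_rw [this]
  rw [integral_const_mul, radial_int]
  simp only [nsmul_eq_mul, smul_eq_mul]
  push_cast
  have := Real.pi_pos
  field_simp

lemma phi_decay : Tendsto (fun x : E4 => ‖x‖ ^ finrank ℝ E4 * phi x) (cobounded E4) (𝓝 0) := by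
  have hd : finrank ℝ E4 = 4 := by simp
  rw [hd]
  have h1 : Tendsto (fun x : E4 => ‖x‖) (cobounded E4) atTop := tendsto_norm_cobounded_atTop
  have h2 : Tendsto (fun y : ℝ => (2 / Real.pi ^ 2) * (y ^ 2 + 1)⁻¹) atTop (𝓝 0) := by
    have h1 : Tendsto (fun y : ℝ => y ^ 2 + 1) atTop atTop :=
      tendsto_atTop_add_const_right _ _ (tendsto_pow_atTop (by norm_num))
    simpa using (tendsto_inv_atTop_zero.comp h1).const_mul (2 / Real.pi ^ 2)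
  refine squeeze_zero (fun x => mul_nonneg (by positivity) (phi_nonneg x)) (fun x => ?_)
    (h2.comp h1)
  simp only [Function.comp]
  unfold phi
  have : ‖x‖ ^ 4 * ((‖x‖ ^ 2 + 1) ^ 3)⁻¹ ≤ (‖x‖ ^ 2 + 1)⁻¹ := by
    rw [← div_eq_mul_inv, div_le_iff₀ (by positivity)]
    have e : (‖x‖ ^ 2 + 1)⁻¹ * (‖x‖ ^ 2 + 1) ^ 3 = (‖x‖ ^ 2 + 1) ^ 2 := by
      field_simp
    rw [e]
    nlinarith [sq_nonneg ‖x‖]
  calc ‖x‖ ^ 4 * (2 / Real.pi ^ 2 * ((‖x‖ ^ 2 + 1) ^ 3)⁻¹)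
      = (2 / Real.pi ^ 2) * (‖x‖ ^ 4 * ((‖x‖ ^ 2 + 1) ^ 3)⁻¹) := by ring
    _ ≤ _ := by gcongr

variable {v : E4 → ℝ} (hv : ContDiff ℝ (⊤ : ℕ∞) v) (hc : HasCompactSupport v)
include hv hc

/-- the combination of the two Green identities -/
lemma green_comb {ε : ℝ} (hε : 0 < ε) :
    ∫ z, 8 * ε * ((‖z‖ ^ 2 + ε) ^ 3)⁻¹ * v z =
      ∫ z, ((nk ε z - nk 1 z) * (-lap v z) +
        (-2 * ((‖z‖ ^ 2 + 1) ^ 2)⁻¹) * fderiv ℝ v z z) := by
  have h1 := int_nk_lap' hv hc hε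
  have h2 := int_nk_lap hv hc one_pos
  have hlap : HasCompactSupport (lap v) := by
    have : HasCompactSupport (fun z => ∑ i : Fin 4, fderiv ℝ (fderiv ℝ v) z (bv i) (bv i)) := by
      refine ((hc.fderiv ℝ).fderiv ℝ).mono' ?_
      refine (Function.support_subset_iff'.2 fun z hz => ?_).trans subset_closure
      rw [Function.notMem_support] at hz
      simp [hz]
    exact this
  have i1 : ∀ δ : ℝ, 0 < δ → Integrable (fun z => nk δ z * lap v z) := fun δ hδ =>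
    ((continuous_nk hδ).mul (continuous_lap hv)).integrable_of_hasCompactSupport hlap.mul_left
  have i2 : ∀ i, Integrable (fun z => dk 1 i z * fderiv ℝ v z (bv i)) := fun i =>
    ((continuous_dk one_pos i).mul (continuous_part hv i)).integrable_of_hasCompactSupport
      (hcs_part hc i).mul_left
  have e : (fun z => (nk ε z - nk 1 z) * (-lap v z) +
        (-2 * ((‖z‖ ^ 2 + 1) ^ 2)⁻¹) * fderiv ℝ v z z) =
      fun z => (-(nk ε z * lap v z) + nk 1 z * lap v z) +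
        ∑ i : Fin 4, dk 1 i z * fderiv ℝ v z (bv i) := by
    funext z
    have hz : fderiv ℝ v z z = ∑ i : Fin 4, z i * fderiv ℝ v z (bv i) := by
      conv_lhs => rw [show (fderiv ℝ v z) z = (fderiv ℝ v z) (∑ i : Fin 4, z i • bv i) by
        congr 1
        ext j
        simp [bv, Finset.sum_apply, Pi.single_apply]]
      rw [map_sum]
      simp
    rw [hz]
    have : ∀ i, dk 1 i z * fderiv ℝ v z (bv i) =
        (-2 * ((‖z‖ ^ 2 + 1) ^ 2)⁻¹) * (z i * fderiv ℝ v z (bv i)) := by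
      intro i; unfold dk; ring
    simp_rw [this]
    rw [← Finset.mul_sum]
    ring
  rw [e, integral_add, integral_add, integral_neg, integral_finsetSum, h1, h2]
  · ring
  · intro i _; exact i2 i
  · exact (i1 ε hε).neg
  · exact i1 1 one_pos
  · exact (i1 ε hε).neg.add (i1 1 one_pos)
  · exact integrable_finsetSum _ fun i _ => i2 i

lemma rep_eps {ε : ℝ} (hε : 0 < ε) (hε1 : ε ≤ 1) :
    ‖∫ z, 8 * ε * ((‖z‖ ^ 2 + ε) ^ 3)⁻¹ * v z‖ₑ ≤
      ∫⁻ z, ENNReal.ofReal (kap ‖z‖) * ENNReal.ofReal (en v z) := by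
  rw [green_comb hv hc hε]
  refine (enorm_integral_le_lintegral_enorm _).trans ?_
  have h0 : ∀ᵐ z : E4, z ≠ 0 := by
    have : (volume : Measure E4) {0} = 0 := measure_singleton 0
    rw [ae_iff]
    simp
  refine lintegral_mono_ae ?_
  filter_upwards [h0] with z hz
  have hr : 0 < ‖z‖ := norm_pos_iff.2 hz
  rw [← ENNReal.ofReal_mul (by unfold kap; positivity), Real.enorm_eq_ofReal_abs]
  refine ENNReal.ofReal_le_ofReal ?_
  have hA0 : 0 ≤ nk ε z - nk 1 z := by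
    rw [sub_nonneg]
    exact inv_anti₀ (by positivity) (by linarith)
  have hB : |fderiv ℝ v z z| ≤ ‖fderiv ℝ v z‖ * ‖z‖ := by
    simpa using (fderiv ℝ v z).le_opNorm z
  calc |(nk ε z - nk 1 z) * (-lap v z) + (-2 * ((‖z‖ ^ 2 + 1) ^ 2)⁻¹) * fderiv ℝ v z z|
      ≤ |(nk ε z - nk 1 z) * (-lap v z)| + |(-2 * ((‖z‖ ^ 2 + 1) ^ 2)⁻¹) * fderiv ℝ v z z| :=
        abs_add_le _ _
    _ = (nk ε z - nk 1 z) * |lap v z| + (2 * ((‖z‖ ^ 2 + 1) ^ 2)⁻¹) * |fderiv ℝ v z z| := by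
        rw [abs_mul, abs_mul, abs_neg, abs_of_nonneg hA0]
        congr 2
        rw [abs_mul, abs_of_nonneg (by positivity : (0 : ℝ) ≤ ((‖z‖ ^ 2 + 1) ^ 2)⁻¹)]
        norm_num
    _ ≤ (nk ε z - nk 1 z) * |lap v z| +
          (2 * ((‖z‖ ^ 2 + 1) ^ 2)⁻¹) * (‖fderiv ℝ v z‖ * ‖z‖) := by gcongr
    _ = (nk ε z - nk 1 z) * |lap v z| +
          (2 * ‖z‖ * ((‖z‖ ^ 2 + 1) ^ 2)⁻¹) * ‖fderiv ℝ v z‖ := by ring
    _ ≤ _ := cs2 _ _ _ _
    _ ≤ kap ‖z‖ * en v z := by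
        have := kernel_bound hr hε hε1
        rw [en, sq_abs]
        exact mul_le_mul_of_nonneg_right this (Real.sqrt_nonneg _)

lemma rep_zero :
    ‖v 0‖ₑ ≤ ∫⁻ z, ENNReal.ofReal (kap ‖z‖ / (4 * Real.pi ^ 2)) * ENNReal.ofReal (en v z) := by
  have hint : Integrable v := hv.continuous.integrable_of_hasCompactSupport hc
  have ht := tendsto_integral_comp_smul_smul_of_integrable (μ := (volume : Measure E4))
    phi_nonneg phi_int phi_decay hint hv.continuous.continuousAt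
  have ht2 := (continuous_enorm.tendsto (v 0)).comp ht
  refine le_of_tendsto ht2 ?_
  filter_upwards [Ici_mem_atTop (1 : ℝ)] with c (hc1 : 1 ≤ c)
  have hc0 : 0 < c := by linarith
  have hε : 0 < (c ^ 2)⁻¹ := by positivity
  have hε1 : (c ^ 2)⁻¹ ≤ 1 := inv_le_one_of_one_le₀ (one_le_pow₀ hc1)
  have h := rep_eps hv hc hε hε1
  simp only [Function.comp]
  have hpi := Real.pi_pos
  have e : (fun x : E4 => (c ^ finrank ℝ E4 * phi (c • x)) • v x) =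
      fun x => (4 * Real.pi ^ 2)⁻¹ * (8 * (c ^ 2)⁻¹ * ((‖x‖ ^ 2 + (c ^ 2)⁻¹) ^ 3)⁻¹ * v x) := by
    funext x
    have hd : finrank ℝ E4 = 4 := by simp
    rw [hd, phi, norm_smul, Real.norm_of_nonneg hc0.le, smul_eq_mul]
    have h1 : (‖x‖ ^ 2 + (c ^ 2)⁻¹) = ((c * ‖x‖) ^ 2 + 1) / c ^ 2 := by
      field_simp
    rw [h1]
    have h2 : 0 < (c * ‖x‖) ^ 2 + 1 := by positivity
    field_simp
    ring
  rw [e, integral_const_mul, enorm_mul]
  have e2 : (fun z : E4 => ENNReal.ofReal (kap ‖z‖ / (4 * Real.pi ^ 2)) * ENNReal.ofReal (en v z)) =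
      fun z => ENNReal.ofReal ((4 * Real.pi ^ 2)⁻¹) *
        (ENNReal.ofReal (kap ‖z‖) * ENNReal.ofReal (en v z)) := by
    funext z
    rw [div_eq_inv_mul, ENNReal.ofReal_mul (by positivity), mul_assoc]
  rw [e2, lintegral_const_mul' _ _ ENNReal.ofReal_ne_top]
  rw [Real.enorm_of_nonneg (by positivity)]
  gcongr

omit hv hc in
lemma lap_translate (x z : E4) : lap (fun y => v (x + y)) z = lap v (x + z) := by
  unfold lap
  have h1 : fderiv ℝ (fun y => v (x + y)) = fun y => fderiv ℝ v (x + y) := by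
    funext y; exact fderiv_comp_add_left x
  rw [h1]
  refine Finset.sum_congr rfl fun i _ => ?_
  rw [fderiv_comp_add_left (f := fderiv ℝ v) x]

/-- The pointwise representation bound. -/
lemma rep (x : E4) :
    ‖v x‖ₑ ≤ ∫⁻ y, ENNReal.ofReal (kap ‖y - x‖ / (4 * Real.pi ^ 2)) * ENNReal.ofReal (en v y) := by
  have h := rep_zero (v := fun y => v (x + y)) (hv.comp (contDiff_const.add contDiff_id))
    (hc.comp_homeomorph (Homeomorph.addLeft x))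
  simp only [add_zero] at h
  refine h.trans (le_of_eq ?_)
  rw [← lintegral_add_left_eq_self (fun y => ENNReal.ofReal (kap ‖y - x‖ / (4 * Real.pi ^ 2)) *
    ENNReal.ofReal (en v y)) x]
  refine lintegral_congr fun z => ?_
  simp only [add_sub_cancel_left]
  congr 2
  unfold en
  rw [lap_translate, fderiv_comp_add_left]

end Pool.Agent.H649R3.Adams
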