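import Pool.Agent.H649R3.PHGDefs

set_option autoImplicit false

namespace Pool.Agent.H649R3

/-- Working data extracted from a finite chain ring of nilpotency index two. -/
structure Dat (R : Type) [CommRing R] [Fintype R] [DecidableEq R] where
  /-- the radical, as a finite set -/
  M : Finset R
  /-- a generator -/
  p : R
  p_mem : p ∈ M
  p_ne : p ≠ 0
  zero_mem : (0 : R) ∈ M
  unit_iff : ∀ x : R, IsUnit x ↔ x ∉ M
  mul_zero' : ∀ x ∈ M, ∀ y ∈ M, x * y = 0
  gen : ∀ x ∈ M, ∃ y, x = p * y
  add_mem : ∀ x ∈ M, ∀ y ∈ M, x + y ∈ M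
  mul_mem : ∀ x : R, ∀ y ∈ M, x * y ∈ M

variable {R : Type} [CommRing R] [Fintype R] [DecidableEq R]

theorem exists_dat (h : FiniteChainRingTwo R) : ∃ D : Dat R, D.M.card = resCard R := by
  classical
  haveI := h.nontrivial
  -- R is local
  haveI hloc : IsLocalRing R := by
    apply IsLocalRing.of_unique_max_ideal
    obtain ⟨I, hI⟩ := Ideal.exists_maximal R
    refine ⟨I, hI, ?_⟩
    intro J hJ
    rcases h.chain I J with h1 | h1
    · exact (hI.eq_of_le hJ.ne_top h1).symm
    · exact hJ.eq_of_le hI.ne_top h1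
  have hjac : Ring.jacobson R = IsLocalRing.maximalIdeal R := by
    rw [← IsLocalRing.jacobson_eq_maximalIdeal (⊥ : Ideal R) bot_ne_top]
    rw [Ring.jacobson_eq_sInf_isMaximal, Ideal.jacobson]
    congr 1
    ext J
    simp
  set m := IsLocalRing.maximalIdeal R with hm
  have hne : m ≠ ⊥ := by rw [← hjac]; exact h.rad_ne
  have hsq : m ^ 2 = ⊥ := by rw [← hjac]; exact h.rad_sq
  have hmul : ∀ x ∈ m, ∀ y ∈ m, x * y = 0 := by
    intro x hx y hy
    have : x * y ∈ m ^ 2 := by
      rw [pow_two]; exact Ideal.mul_mem_mul hx hy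
    rw [hsq] at this
    simpa using this
  obtain ⟨p, hp, hp0⟩ := Submodule.exists_mem_ne_zero_of_ne_bot hne
  have hgen : ∀ x ∈ m, ∃ y, x = p * y := by
    intro x hx
    rcases h.chain (Ideal.span {x}) (Ideal.span {p}) with h1 | h1
    · rw [Ideal.span_singleton_le_span_singleton] at h1
      exact h1
    · rw [Ideal.span_singleton_le_span_singleton] at h1
      obtain ⟨r, hr⟩ := h1
      by_cases hr' : r ∈ m
      · exact absurd (hr.trans (hmul x hx r hr')) hp0
      · have hu : IsUnit r := by
          by_contra hc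
          exact hr' ((IsLocalRing.mem_maximalIdeal r).2 hc)
        obtain ⟨s, hs⟩ := hu
        refine ⟨(s⁻¹ : Rˣ), ?_⟩
        rw [hr, ← hs, mul_assoc, Units.mul_inv, mul_one]
  let D : Dat R :=
    { M := Finset.univ.filter (fun x => x ∈ m)
      p := p
      p_mem := by simpa using hp
      p_ne := hp0
      zero_mem := by simp
      unit_iff := by
        intro x
        simp only [Finset.mem_filter, Finset.mem_univ, true_and]
        rw [hm, IsLocalRing.mem_maximalIdeal, mem_nonunits_iff, not_not]
      mul_zero' := by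
        intro x hx y hy
        simp only [Finset.mem_filter, Finset.mem_univ, true_and] at hx hy
        exact hmul x hx y hy
      gen := by
        intro x hx
        simp only [Finset.mem_filter, Finset.mem_univ, true_and] at hx
        exact hgen x hx
      add_mem := by
        intro x hx y hy
        simp only [Finset.mem_filter, Finset.mem_univ, true_and] at hx hy ⊢
        exact m.add_mem hx hy
      mul_mem := by
        intro x y hy
        simp only [Finset.mem_filter, Finset.mem_univ, true_and] at hy ⊢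
        exact m.mul_mem_left x hy }
  refine ⟨D, ?_⟩
  -- the map R/m → m
  have hcard : D.M.card = Nat.card m := by
    rw [Nat.card_eq_fintype_card, Fintype.card_subtype]
  rw [hcard, resCard, hjac]
  let f : R →ₗ[R] m := LinearMap.toSpanSingleton R m ⟨p, hp⟩
  have hf : Function.Surjective f := by
    rintro ⟨x, hx⟩
    obtain ⟨y, hy⟩ := hgen x hx
    refine ⟨y, ?_⟩
    apply Subtype.ext
    simp only [f, LinearMap.toSpanSingleton_apply, SetLike.val_smul, smul_eq_mul]
    rw [hy, mul_comm]
  have hker : LinearMap.ker f = m := by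
    ext x
    rw [LinearMap.mem_ker]
    constructor
    · intro hx
      have hx' : x * p = 0 := by
        have := congrArg Subtype.val hx
        simpa [f, LinearMap.toSpanSingleton_apply] using this
      by_contra hc
      have hu : IsUnit x := by
        by_contra hc'
        exact hc ((IsLocalRing.mem_maximalIdeal x).2 hc')
      exact hp0 ((hu.mul_right_eq_zero).1 hx')
    · intro hx
      apply Subtype.ext
      simp only [f, LinearMap.toSpanSingleton_apply, SetLike.val_smul, smul_eq_mul,
        ZeroMemClass.coe_zero]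
      exact hmul x hx p hp
  have e := LinearMap.quotKerEquivOfSurjective f hf
  rw [hker] at e
  exact (Nat.card_congr e.toEquiv).symm

namespace Dat

variable (D : Dat R)

theorem neg_mem {x : R} (hx : x ∈ D.M) : -x ∈ D.M := by
  have := D.mul_mem (-1) x hx
  simpa using this

theorem sub_mem {x y : R} (hx : x ∈ D.M) (hy : y ∈ D.M) : x - y ∈ D.M := by
  rw [sub_eq_add_neg]; exact D.add_mem _ hx _ (D.neg_mem hy)

theorem one_notMem : (1 : R) ∉ D.M := (D.unit_iff 1).1 isUnit_one

theorem mem_of_not_unit {x : R} (h : ¬ IsUnit x) : x ∈ D.M := by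
  by_contra hc; exact h ((D.unit_iff x).2 hc)

theorem not_unit_of_mem {x : R} (h : x ∈ D.M) : ¬ IsUnit x := by
  rw [D.unit_iff]; simpa using h

/-- Fibres of multiplication by a generator. -/
theorem card_fiber {t : R} (ht : t ∈ D.M) {w : R} (hw : IsUnit w) :
    (Finset.univ.filter (fun x : R => D.p * w * x = t)).card = D.M.card := by
  obtain ⟨y0, hy0⟩ := D.gen t ht
  obtain ⟨v, rfl⟩ := hw
  set y : R := (↑v⁻¹ : R) * y0 with hy
  have hty : t = D.p * v * y := by
    rw [hy, hy0]
    calc D.p * y0 = D.p * ((v : R) * (↑v⁻¹ : R)) * y0 := by rw [Units.mul_inv, mul_one]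
      _ = _ := by ring
  refine (Finset.card_bij (fun x _ => x - y) ?_ ?_ ?_)
  · intro x hx
    simp only [Finset.mem_filter, Finset.mem_univ, true_and] at hx
    by_contra hc
    have hu : IsUnit (x - y) := (D.unit_iff _).2 hc
    have h0 : D.p * v * (x - y) = 0 := by rw [mul_sub, hx, ← hty, sub_self]
    have h1 : D.p * v = 0 := (hu.mul_left_eq_zero).1 h0
    exact D.p_ne ((v.isUnit.mul_left_eq_zero).1 h1)
  · intro a _ b _ hab
    exact sub_left_injective hab
  · intro b hb
    refine ⟨b + y, ?_, by ring⟩
    simp only [Finset.mem_filter, Finset.mem_univ, true_and]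
    have : D.p * v * b = 0 := by
      rw [mul_assoc]
      exact D.mul_zero' _ D.p_mem _ (D.mul_mem _ _ hb)
    rw [mul_add, this, zero_add, ← hty]

theorem card_eq : Fintype.card R = D.M.card ^ 2 := by
  classical
  have h := Finset.card_eq_sum_card_fiberwise (f := fun x : R => D.p * 1 * x) (s := Finset.univ)
    (t := D.M) (by
      intro x _
      show D.p * 1 * x ∈ D.M
      rw [mul_one, mul_comm]
      exact D.mul_mem _ _ D.p_mem)
  rw [Finset.card_univ] at h
  rw [h]
  rw [Finset.sum_congr rfl (fun t ht => D.card_fiber ht isUnit_one)]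
  rw [Finset.sum_const, smul_eq_mul, pow_two]

/-- summing over `s + a`. -/
theorem sum_shift (f : R → ℕ) :
    ∑ s : R, ∑ a ∈ D.M, f (s + a) = D.M.card * ∑ x : R, f x := by
  rw [Finset.sum_comm]
  have : ∀ a ∈ D.M, ∑ s : R, f (s + a) = ∑ x : R, f x := by
    intro a _
    exact Fintype.sum_equiv (Equiv.addRight a) _ _ (fun x => rfl)
  rw [Finset.sum_congr rfl this, Finset.sum_const, smul_eq_mul]

theorem q_pos : 0 < D.M.card := Finset.card_pos.2 ⟨0, D.zero_mem⟩

end Dat

end Pool.Agent.H649R3
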