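import Pool.Agent.H649R3.PHGUpper

set_option autoImplicit false

namespace Pool.Agent.H649R3

variable {R : Type} [CommRing R] [Fintype R] [DecidableEq R]

omit [Fintype R] [DecidableEq R] in
theorem map_free (T : (Fin 3 → R) ≃ₗ[R] (Fin 3 → R)) (P : Submodule R (Fin 3 → R)) (k : ℕ)
    (h : Module.Free R P ∧ Module.finrank R P = k) :
    Module.Free R (P.map (T : (Fin 3 → R) →ₗ[R] (Fin 3 → R))) ∧
      Module.finrank R (P.map (T : (Fin 3 → R) →ₗ[R] (Fin 3 → R))) = k := by
  have := h.1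
  have e := T.submoduleMap P
  refine ⟨Module.Free.of_equiv e, ?_⟩
  rw [← e.finrank_eq, h.2]

/-- Action of a linear automorphism on points. -/
def mapPt (T : (Fin 3 → R) ≃ₗ[R] (Fin 3 → R)) (P : Point R) : Point R :=
  ⟨P.1.map (T : (Fin 3 → R) →ₗ[R] (Fin 3 → R)), map_free T P.1 1 P.2⟩

/-- Action of a linear automorphism on lines. -/
def mapLn (T : (Fin 3 → R) ≃ₗ[R] (Fin 3 → R)) (L : Line R) : Line R :=
  ⟨L.1.map (T : (Fin 3 → R) →ₗ[R] (Fin 3 → R)), map_free T L.1 2 L.2⟩

omit [Fintype R] [DecidableEq R] in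
theorem mapPt_bij (T : (Fin 3 → R) ≃ₗ[R] (Fin 3 → R)) : Function.Bijective (mapPt T) := by
  constructor
  · intro P Q h
    apply Subtype.ext
    have h1 : P.1.map (T : (Fin 3 → R) →ₗ[R] (Fin 3 → R)) =
      Q.1.map (T : (Fin 3 → R) →ₗ[R] (Fin 3 → R)) := congrArg Subtype.val h
    exact Submodule.map_injective_of_injective T.injective h1
  · intro Q
    refine ⟨mapPt T.symm Q, ?_⟩
    apply Subtype.ext
    show (Q.1.map (T.symm : (Fin 3 → R) →ₗ[R] (Fin 3 → R))).map
      (T : (Fin 3 → R) →ₗ[R] (Fin 3 → R)) = Q.1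
    rw [← Submodule.map_comp]
    simp

omit [Fintype R] [DecidableEq R] in
theorem mass_map_univ (T : (Fin 3 → R) ≃ₗ[R] (Fin 3 → R)) (K : Point R → ℕ) :
    mass (fun P => K (mapPt T P)) Set.univ = mass K Set.univ := by
  unfold mass
  rw [finsum_mem_univ, finsum_mem_univ]
  exact finsum_eq_of_bijective _ (mapPt_bij T) (fun _ => rfl)

omit [Fintype R] [DecidableEq R] in
theorem mass_map_line (T : (Fin 3 → R) ≃ₗ[R] (Fin 3 → R)) (K : Point R → ℕ) (L : Line R) :
    mass (fun P => K (mapPt T P)) (onLine L) = mass K (onLine (mapLn T L)) := by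
  classical
  unfold mass
  rw [finsum_mem_def, finsum_mem_def]
  refine finsum_eq_of_bijective _ (mapPt_bij T) (fun P => ?_)
  have hiff : mapPt T P ∈ onLine (mapLn T L) ↔ P ∈ onLine L := by
    show P.1.map (T : (Fin 3 → R) →ₗ[R] (Fin 3 → R)) ≤
      L.1.map (T : (Fin 3 → R) →ₗ[R] (Fin 3 → R)) ↔ P.1 ≤ L.1
    exact Submodule.map_le_map_iff_of_injective T.injective _ _
  by_cases h : P ∈ onLine L
  · rw [Set.indicator_of_mem h, Set.indicator_of_mem (hiff.2 h)]
  · rw [Set.indicator_of_notMem h, Set.indicator_of_notMem (fun h' => h (hiff.1 h'))]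

omit [Fintype R] [DecidableEq R] in
theorem ev_map [Nontrivial R] (T : (Fin 3 → R) ≃ₗ[R] (Fin 3 → R)) (K : Point R → ℕ)
    (v : Fin 3 → R) (hv : Unimod v) (hTv : Unimod (T v)) :
    ev (fun P => K (mapPt T P)) v = ev K (T v) := by
  rw [ev_eq _ hv, ev_eq _ hTv]
  congr 1
  apply Subtype.ext
  show (Submodule.span R {v}).map (T : (Fin 3 → R) →ₗ[R] (Fin 3 → R)) = Submodule.span R {T v}
  rw [Submodule.map_span, Set.image_singleton]
  rfl

/-- `(x,y,z) ↦ (x, y + s x, z + t x)`. -/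
def T1 (s t : R) : (Fin 3 → R) ≃ₗ[R] (Fin 3 → R) where
  toFun v := ![v 0, v 1 + s * v 0, v 2 + t * v 0]
  invFun v := ![v 0, v 1 - s * v 0, v 2 - t * v 0]
  map_add' x y := by funext i; fin_cases i <;> simp <;> ring
  map_smul' r x := by funext i; fin_cases i <;> simp <;> ring
  left_inv x := by funext i; fin_cases i <;> simp
  right_inv x := by funext i; fin_cases i <;> simp

/-- `(x,y,z) ↦ (y, x, z + t x)`. -/
def T2 (t : R) : (Fin 3 → R) ≃ₗ[R] (Fin 3 → R) where
  toFun v := ![v 1, v 0, v 2 + t * v 0]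
  invFun v := ![v 1, v 0, v 2 - t * v 1]
  map_add' x y := by funext i; fin_cases i <;> simp <;> ring
  map_smul' r x := by funext i; fin_cases i <;> simp <;> ring
  left_inv x := by funext i; fin_cases i <;> simp
  right_inv x := by funext i; fin_cases i <;> simp

/-- `(x,y,z) ↦ (y, z, x)`. -/
def T3 : (Fin 3 → R) ≃ₗ[R] (Fin 3 → R) where
  toFun v := ![v 1, v 2, v 0]
  invFun v := ![v 2, v 0, v 1]
  map_add' x y := by funext i; fin_cases i <;> simp
  map_smul' r x := by funext i; fin_cases i <;> simp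
  left_inv x := by funext i; fin_cases i <;> simp
  right_inv x := by funext i; fin_cases i <;> simp

/-- If the class of the first basis vector is heavy, the arc is small. -/
theorem heavy [Nontrivial R] (D : Dat R) (K : Point R → ℕ) (n : ℕ)
    (hK : ∀ L : Line R, mass K (onLine L) ≤ n)
    (hu : D.M.card ^ 2 < cm D K + D.M.card) :
    mass K Set.univ + D.M.card ^ 3 ≤ n * (D.M.card ^ 2 + D.M.card) := by
  obtain ⟨S, S', hS, hS', hmain⟩ := key D K n hK
  set q := D.M.card with hq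
  set u := cm D K with hu'
  have hq0 : 0 < q := D.q_pos
  by_cases hcase : u ≤ q ^ 2
  · -- every segment has at least q
    have h1 : ∀ s : ℕ, u ≤ q * s → q ≤ s := by
      intro s hs
      by_contra hc
      push Not at hc
      have h2 : q * s ≤ q * (q - 1) := Nat.mul_le_mul_left _ (by omega)
      have h3 : q * (q - 1) + q = q ^ 2 := by
        obtain ⟨r, hr⟩ : ∃ r, q = r + 1 := ⟨q - 1, by omega⟩
        rw [hr]; simp; ring
      omega
    have h2 : ∑ g : R, q ≤ ∑ g : R, S g := Finset.sum_le_sum (fun g _ => h1 _ (hS g))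
    rw [Finset.sum_const, smul_eq_mul, Finset.card_univ, D.card_eq, ← hq] at h2
    have h3 : q * q ≤ q * S' := Nat.mul_le_mul_left _ (h1 _ hS')
    have e1 : q ^ 2 * q = q ^ 3 := by ring
    have e2 : q * q = q ^ 2 := by ring
    rw [e1] at h2
    rw [e2] at h3
    omega
  · push Not at hcase
    have h2 : ∑ g : R, u ≤ ∑ g : R, q * S g := Finset.sum_le_sum (fun g _ => hS g)
    rw [Finset.sum_const, smul_eq_mul, Finset.card_univ, D.card_eq, ← hq, ← Finset.mul_sum] at h2
    have h3 : q * u ≤ ∑ g : R, S g := by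
      have : q * (q * u) ≤ q * ∑ g : R, S g := by
        calc q * (q * u) = q ^ 2 * u := by ring
          _ ≤ _ := h2
      exact Nat.le_of_mul_le_mul_left this hq0
    have h4 : q * q ^ 2 ≤ q * u := Nat.mul_le_mul_left _ hcase.le
    have e1 : q * q ^ 2 = q ^ 3 := by ring
    rw [e1] at h4
    omega

/-- The upper bound `k ≤ q (q + 1) n - q ^ 3` for `n ≥ q ^ 2`. -/
theorem upper [Nontrivial R] (D : Dat R) (K : Point R → ℕ) (n : ℕ) (hn : D.M.card ^ 2 ≤ n)
    (hK : ∀ L : Line R, mass K (onLine L) ≤ n) :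
    mass K Set.univ + D.M.card ^ 3 ≤ n * (D.M.card ^ 2 + D.M.card) := by
  classical
  set q := D.M.card with hq
  have hq0 : 0 < q := D.q_pos
  have heavyT : ∀ T : (Fin 3 → R) ≃ₗ[R] (Fin 3 → R),
      q ^ 2 < cm D (fun P => K (mapPt T P)) + q →
      mass K Set.univ + q ^ 3 ≤ n * (q ^ 2 + q) := by
    intro T hT
    rw [← mass_map_univ T K]
    apply heavy D _ n _ hT
    intro L
    rw [mass_map_line]
    exact hK _
  by_cases hex : ∃ T : (Fin 3 → R) ≃ₗ[R] (Fin 3 → R), q ^ 2 < cm D (fun P => K (mapPt T P)) + q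
  · obtain ⟨T, hT⟩ := hex
    exact heavyT T hT
  · push Not at hex
    -- all classes are light
    have hlight : ∀ T : (Fin 3 → R) ≃ₗ[R] (Fin 3 → R),
        cm D (fun P => K (mapPt T P)) ≤ q ^ 2 - q := fun T => by
      have := hex T; omega
    have c1 : ∀ s t : R, ∑ a ∈ D.M, ∑ b ∈ D.M, ev K ![1, s + a, t + b] ≤ q ^ 2 - q := by
      intro s t
      refine le_trans (le_of_eq ?_) (hlight (T1 s t))
      unfold cm
      refine Finset.sum_congr rfl (fun a _ => Finset.sum_congr rfl (fun b _ => ?_))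
      have e : (T1 s t) ![1, a, b] = ![1, s + a, t + b] := by
        show ![_, _, _] = _
        funext i
        fin_cases i <;> simp [add_comm]
      rw [ev_map (T1 s t) K _ (um1 a b) (by rw [e]; exact um1 _ _), e]
    have c2 : ∀ t : R, ∑ a ∈ D.M, ∑ b ∈ D.M, ev K ![a, 1, t + b] ≤ q ^ 2 - q := by
      intro t
      refine le_trans (le_of_eq ?_) (hlight (T2 t))
      unfold cm
      refine Finset.sum_congr rfl (fun a _ => Finset.sum_congr rfl (fun b _ => ?_))
      have e : (T2 t) ![1, a, b] = ![a, 1, t + b] := by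
        show ![_, _, _] = _
        funext i
        fin_cases i <;> simp [add_comm]
      rw [ev_map (T2 t) K _ (um1 a b) (by rw [e]; exact um2 _ _), e]
    have c3 : ∑ a ∈ D.M, ∑ b ∈ D.M, ev K ![a, b, 1] ≤ q ^ 2 - q := by
      refine le_trans (le_of_eq ?_) (hlight T3)
      unfold cm
      refine Finset.sum_congr rfl (fun a _ => Finset.sum_congr rfl (fun b _ => ?_))
      have e : T3 ![1, a, b] = ![a, b, 1] := by
        show ![_, _, _] = _
        funext i
        fin_cases i <;> simp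
      rw [ev_map T3 K _ (um1 a b) (by rw [e]; exact um3 _ _), e]
    -- sum up
    have d1 : q ^ 2 * ∑ x : R, ∑ y : R, ev K ![1, x, y] ≤ q ^ 2 * (q ^ 2 * (q ^ 2 - q)) := by
      have h1 : ∑ s : R, ∑ t : R, ∑ a ∈ D.M, ∑ b ∈ D.M, ev K ![1, s + a, t + b] ≤
          ∑ s : R, ∑ t : R, (q ^ 2 - q) :=
        Finset.sum_le_sum (fun s _ => Finset.sum_le_sum (fun t _ => c1 s t))
      have h2 : ∑ s : R, ∑ t : R, ∑ a ∈ D.M, ∑ b ∈ D.M, ev K ![1, s + a, t + b] =
          q ^ 2 * ∑ x : R, ∑ y : R, ev K ![1, x, y] := by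
        have e1 : ∀ s : R, ∑ t : R, ∑ a ∈ D.M, ∑ b ∈ D.M, ev K ![1, s + a, t + b] =
            ∑ a ∈ D.M, q * ∑ y : R, ev K ![1, s + a, y] := by
          intro s
          rw [Finset.sum_comm]
          refine Finset.sum_congr rfl (fun a _ => ?_)
          exact D.sum_shift (fun y => ev K ![1, s + a, y])
        simp_rw [e1]
        rw [D.sum_shift (fun x => q * ∑ y : R, ev K ![1, x, y]), ← Finset.mul_sum, ← hq]
        ring
      rw [h2] at h1
      simp only [Finset.sum_const, smul_eq_mul, Finset.card_univ, D.card_eq, ← hq] at h1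
      exact h1
    have d2 : q * ∑ u ∈ D.M, ∑ y : R, ev K ![u, 1, y] ≤ q * (q * (q ^ 2 - q)) := by
      have h1 : ∑ t : R, ∑ a ∈ D.M, ∑ b ∈ D.M, ev K ![a, 1, t + b] ≤
          ∑ t : R, (q ^ 2 - q) := Finset.sum_le_sum (fun t _ => c2 t)
      have h2 : ∑ t : R, ∑ a ∈ D.M, ∑ b ∈ D.M, ev K ![a, 1, t + b] =
          q * ∑ u ∈ D.M, ∑ y : R, ev K ![u, 1, y] := by
        rw [Finset.sum_comm, Finset.mul_sum]
        refine Finset.sum_congr rfl (fun a _ => ?_)
        exact D.sum_shift (fun y => ev K ![a, 1, y])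
      rw [h2] at h1
      simp only [Finset.sum_const, smul_eq_mul, Finset.card_univ, D.card_eq, ← hq] at h1
      calc _ ≤ q ^ 2 * (q ^ 2 - q) := h1
        _ = _ := by ring
    have d1' := Nat.le_of_mul_le_mul_left d1 (by positivity)
    have d2' := Nat.le_of_mul_le_mul_left d2 hq0
    have htot : mass K Set.univ ≤ q ^ 2 * (q ^ 2 - q) + (q * (q ^ 2 - q) + (q ^ 2 - q)) := by
      rw [mass_univ D K, sumExpand D (ev K)]
      exact Nat.add_le_add d1' (Nat.add_le_add d2' c3)
    have h5 : n * (q ^ 2 + q) ≥ q ^ 2 * (q ^ 2 + q) := Nat.mul_le_mul_right _ hn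
    obtain ⟨r, hr⟩ : ∃ r, q = r + 1 := ⟨q - 1, by omega⟩
    have e1 : q ^ 2 - q = q * r := by
      rw [hr]
      have : (r + 1) ^ 2 = (r + 1) * r + (r + 1) := by ring
      omega
    rw [e1] at htot
    have e2 : q ^ 2 * (q * r) + (q * (q * r) + q * r) + q ^ 3 + q = q ^ 2 * (q ^ 2 + q) := by
      rw [hr]; ring
    omega

end Pool.Agent.H649R3
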