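import Mathlib

set_option autoImplicit false

/-! Projective Hjelmslev planes over finite commutative chain rings of nilpotency index two:
definitions. -/

namespace Pool.Agent.H649R3

/-- `R` is a finite commutative chain ring of nilpotency index two: `R` is finite and nonzero, its
ideals form a chain under inclusion, and its radical `N` satisfies `N ≠ 0`, `N ^ 2 = 0`. -/
structure FiniteChainRingTwo (R : Type) [CommRing R] : Prop where
  nontrivial : Nontrivial R
  finite : Finite R
  chain : ∀ I J : Ideal R, I ≤ J ∨ J ≤ I
  rad_ne : Ring.jacobson R ≠ ⊥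
  rad_sq : Ring.jacobson R ^ 2 = ⊥

/-- The order `q` of the residue field `R / rad R`. -/
noncomputable def resCard (R : Type) [CommRing R] : ℕ := Nat.card (R ⧸ Ring.jacobson R)

/-- The points of `PHG(2,R)`: the free submodules of rank one of `R ^ 3`. -/
def Point (R : Type) [CommRing R] : Type :=
  {P : Submodule R (Fin 3 → R) // Module.Free R P ∧ Module.finrank R P = 1}

/-- The lines of `PHG(2,R)`: the free submodules of rank two of `R ^ 3`. -/
def Line (R : Type) [CommRing R] : Type :=
  {L : Submodule R (Fin 3 → R) // Module.Free R L ∧ Module.finrank R L = 2}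

/-- The set of the points on a line (incidence is inclusion). -/
def onLine {R : Type} [CommRing R] (L : Line R) : Set (Point R) := {P | P.1 ≤ L.1}

/-- `K(S)`, the sum of the multiplicities `K(x)` over the points `x` in `S`. -/
noncomputable def mass {R : Type} [CommRing R] (K : Point R → ℕ) (S : Set (Point R)) : ℕ :=
  ∑ᶠ P ∈ S, K P

/-- The multiset `K` is a `(k,n)`-arc. -/
def IsArc {R : Type} [CommRing R] (k n : ℕ) (K : Point R → ℕ) : Prop :=
  mass K Set.univ = k ∧ ∀ L : Line R, mass K (onLine L) ≤ n

/-- `K` is a maximal `(k,n)`-arc: no `(k',n)`-arc, projective or not, has `k' > k`. -/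
def IsMaximalArc {R : Type} [CommRing R] (k n : ℕ) (K : Point R → ℕ) : Prop :=
  IsArc k n K ∧ ∀ (k' : ℕ) (K' : Point R → ℕ), IsArc k' n K' → k' ≤ k

/-- `K` is projective: all multiplicities are `0` or `1`. -/
def IsProjective {R : Type} [CommRing R] (K : Point R → ℕ) : Prop := ∀ P, K P ≤ 1

end Pool.Agent.H649R3
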