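import Pool.Agent.H649R3.PHGVec

set_option autoImplicit false

namespace Pool.Agent.H649R3

variable {R : Type} [CommRing R] [Fintype R] [DecidableEq R]

/-- The linear functional with coefficient vector `c`. -/
def fn (c : Fin 3 → R) : (Fin 3 → R) →ₗ[R] R :=
  c 0 • LinearMap.proj 0 + c 1 • LinearMap.proj 1 + c 2 • LinearMap.proj 2

omit [Fintype R] [DecidableEq R] in
theorem fn_apply (c v : Fin 3 → R) : fn c v = c 0 * v 0 + c 1 * v 1 + c 2 * v 2 := by
  simp [fn]

omit [Fintype R] [DecidableEq R] in
/-- The kernel of `(a,1,g)` is free of rank two. -/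
theorem free_ker1 [Nontrivial R] (a g : R) :
    Module.Free R (LinearMap.ker (fn ![a, 1, g])) ∧
      Module.finrank R (LinearMap.ker (fn ![a, 1, g])) = 2 := by
  let e : (R × R) ≃ₗ[R] (LinearMap.ker (fn ![a, 1, g])) :=
    { toFun := fun z => ⟨![z.1, -(a * z.1 + g * z.2), z.2], by
        rw [LinearMap.mem_ker, fn_apply]; simp⟩
      invFun := fun v => (v.1 0, v.1 2)
      map_add' := by
        intro x y
        apply Subtype.ext
        funext i
        fin_cases i <;> simp <;> ring
      map_smul' := by
        intro x y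
        apply Subtype.ext
        funext i
        fin_cases i <;> simp <;> ring
      left_inv := by intro z; rfl
      right_inv := by
        rintro ⟨v, hv⟩
        rw [LinearMap.mem_ker, fn_apply] at hv
        simp at hv
        apply Subtype.ext
        funext i
        fin_cases i
        · simp
        · simp
          linear_combination -hv
        · simp }
  refine ⟨Module.Free.of_equiv e, ?_⟩
  rw [← e.finrank_eq, Module.finrank_prod, Module.finrank_self]

omit [Fintype R] [DecidableEq R] in
/-- The kernel of `(a,g,1)` is free of rank two. -/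
theorem free_ker2 [Nontrivial R] (a g : R) :
    Module.Free R (LinearMap.ker (fn ![a, g, 1])) ∧
      Module.finrank R (LinearMap.ker (fn ![a, g, 1])) = 2 := by
  let e : (R × R) ≃ₗ[R] (LinearMap.ker (fn ![a, g, 1])) :=
    { toFun := fun z => ⟨![z.1, z.2, -(a * z.1 + g * z.2)], by
        rw [LinearMap.mem_ker, fn_apply]; simp⟩
      invFun := fun v => (v.1 0, v.1 1)
      map_add' := by
        intro x y
        apply Subtype.ext
        funext i
        fin_cases i <;> simp <;> ring
      map_smul' := by
        intro x y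
        apply Subtype.ext
        funext i
        fin_cases i <;> simp <;> ring
      left_inv := by intro z; rfl
      right_inv := by
        rintro ⟨v, hv⟩
        rw [LinearMap.mem_ker, fn_apply] at hv
        simp at hv
        apply Subtype.ext
        funext i
        fin_cases i
        · simp
        · simp
        · simp
          linear_combination -hv }
  refine ⟨Module.Free.of_equiv e, ?_⟩
  rw [← e.finrank_eq, Module.finrank_prod, Module.finrank_self]

omit [DecidableEq R] in
theorem card_ker [Nontrivial R] {c : Fin 3 → R} (hc : Unimod c) :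
    Nat.card (LinearMap.ker (fn c)) = Nat.card R ^ 2 := by
  have hsurj : Function.Surjective (fn c) := by
    intro r
    obtain ⟨i, hi⟩ := hc
    obtain ⟨w, hw⟩ := hi
    refine ⟨Pi.single i ((↑w⁻¹ : R) * r), ?_⟩
    rw [fn_apply]
    have hww : ∀ j : Fin 3, j = i → c j * ((↑w⁻¹ : R) * r) = r := by
      intro j hj
      rw [hj, ← hw, Units.mul_inv_cancel_left]
    fin_cases i
    · simpa using hww 0 rfl
    · simpa using hww 1 rfl
    · simpa using hww 2 rfl
  have h1 := Submodule.card_eq_card_quotient_mul_card (LinearMap.ker (fn c))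
  have h2 := Nat.card_congr (LinearMap.quotKerEquivOfSurjective (fn c) hsurj).toEquiv
  rw [h2] at h1
  have h3 : Nat.card (Fin 3 → R) = Nat.card R ^ 3 := by
    simp [Nat.card_eq_fintype_card]
  rw [h3] at h1
  have hpos : 0 < Nat.card R := Nat.card_pos
  have h4 : Nat.card R * (Nat.card R ^ 2) = Nat.card R * Nat.card (LinearMap.ker (fn c)) := by
    rw [mul_comm (Nat.card R) (Nat.card (LinearMap.ker (fn c))), ← h1]; ring
  exact (Nat.eq_of_mul_eq_mul_left hpos h4).symm

theorem line_eq_ker (D : Dat R) [Nontrivial R] (L : Line R) :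
    ∃ c : Fin 3 → R, Unimod c ∧ L.1 = LinearMap.ker (fn c) := by
  obtain ⟨P, hP1, hP2⟩ := L
  have := hP1
  let b := Module.finBasisOfFinrankEq R P hP2
  have hind := b.linearIndependent
  have hpair : ∀ s t : R, s • (b 0 : Fin 3 → R) + t • (b 1 : Fin 3 → R) = 0 → s = 0 ∧ t = 0 := by
    intro s t hst
    have h1 : s • b 0 + t • b 1 = 0 := Subtype.ext hst
    have h2 := congrArg b.repr h1
    constructor
    · have h3 := DFunLike.congr_fun h2 0
      simpa using h3
    · have h3 := DFunLike.congr_fun h2 1
      simpa using h3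
  set u : Fin 3 → R := (b 0 : Fin 3 → R) with hu
  set v : Fin 3 → R := (b 1 : Fin 3 → R) with hv
  let c : Fin 3 → R := ![u 1 * v 2 - u 2 * v 1, u 2 * v 0 - u 0 * v 2, u 0 * v 1 - u 1 * v 0]
  have hc : Unimod c := by
    by_contra hcon
    have hmem : ∀ i, c i ∈ D.M := fun i => D.mem_of_not_unit (fun hi => hcon ⟨i, hi⟩)
    have hz : ∀ i, D.p * c i = 0 := fun i => D.mul_zero' _ D.p_mem _ (hmem i)
    have z0 := hz 0
    have z1 := hz 1
    have z2 := hz 2
    simp only [c, Matrix.cons_val_zero, Matrix.cons_val_one, Matrix.cons_val] at z0 z1 z2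
    have key : ∀ i : Fin 3, (D.p * v i) • u + (-(D.p * u i)) • v = 0 := by
      intro i
      funext j
      simp only [Pi.add_apply, Pi.smul_apply, smul_eq_mul, Pi.zero_apply]
      fin_cases i <;> fin_cases j <;> simp <;>
        first
        | linear_combination (0 : R)
        | linear_combination z0
        | linear_combination z1
        | linear_combination z2
        | linear_combination -z0
        | linear_combination -z1
        | linear_combination -z2
    have hv0 : ∀ i, D.p * u i = 0 := fun i => by
      have := (hpair _ _ (key i)).2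
      exact neg_eq_zero.1 this
    have : D.p = 0 := by
      refine (hpair D.p 0 ?_).1
      funext i
      simp [hv0 i]
    exact D.p_ne this
  refine ⟨c, hc, ?_⟩
  have hle : P ≤ LinearMap.ker (fn c) := by
    intro x hx
    have hx2 : (⟨x, hx⟩ : P) = b.repr ⟨x, hx⟩ 0 • b 0 + b.repr ⟨x, hx⟩ 1 • b 1 := by
      have := (b.sum_repr ⟨x, hx⟩).symm
      rw [Fin.sum_univ_two] at this
      exact this
    have hx3 : x = b.repr ⟨x, hx⟩ 0 • u + b.repr ⟨x, hx⟩ 1 • v := congrArg Subtype.val hx2
    rw [LinearMap.mem_ker, hx3, map_add, map_smul, map_smul]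
    have e1 : fn c u = 0 := by rw [fn_apply]; simp [c]; ring
    have e2 : fn c v = 0 := by rw [fn_apply]; simp [c]; ring
    rw [e1, e2]
    simp
  have hcardP : Nat.card P = Nat.card R ^ 2 := by
    rw [Nat.card_congr b.equivFun.toEquiv]
    simp [Nat.card_eq_fintype_card]
  apply SetLike.coe_injective
  apply Set.eq_of_subset_of_ncard_le hle
  show Nat.card (LinearMap.ker (fn c)) ≤ Nat.card P
  rw [card_ker hc, hcardP]

theorem mass_univ (D : Dat R) [Nontrivial R] (K : Point R → ℕ) :
    mass K Set.univ = ∑ i : (R × R) ⊕ (D.M × R) ⊕ (D.M × D.M), ev K (cv D i) := by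
  rw [← sumPoints, mass, finsum_mem_univ]

theorem mass_line (D : Dat R) [Nontrivial R] (K : Point R → ℕ) (L : Line R) (c : Fin 3 → R)
    (hL : L.1 = LinearMap.ker (fn c)) :
    mass K (onLine L) =
      ∑ i : (R × R) ⊕ (D.M × R) ⊕ (D.M × D.M),
        if fn c (cv D i) = 0 then ev K (cv D i) else 0 := by
  rw [mass, finsum_mem_def, sumPoints D]
  refine Finset.sum_congr rfl (fun i _ => ?_)
  rw [ev_eq _ (unimod_cv D i), ev_eq _ (unimod_cv D i)]
  by_cases h : fn c (cv D i) = 0
  · rw [if_pos h, Set.indicator_of_mem]
    show Submodule.span R {cv D i} ≤ L.1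
    rw [hL, Submodule.span_singleton_le_iff_mem]
    exact h
  · rw [if_neg h, Set.indicator_of_notMem]
    intro hmem
    apply h
    have h2 : Submodule.span R {cv D i} ≤ L.1 := hmem
    rw [hL, Submodule.span_singleton_le_iff_mem] at h2
    exact h2

end Pool.Agent.H649R3
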