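import Pool.Agent.H649R3.PHGBound

set_option autoImplicit false

namespace Pool.Agent.H649R3

variable {R : Type} [CommRing R] [Fintype R] [DecidableEq R]

/-- multiplicities on `(1,x,y)` -/
def kA (D : Dat R) (T : Finset R) (x y : R) : ℕ := if y - D.p * x ∈ T then 0 else 1

/-- multiplicities on `(u,1,y)` -/
def kB (J : Finset R) (y : R) : ℕ := if y = 0 then 2 else if y ∈ J then 0 else 1

/-- multiplicities in normalised coordinates -/
def k0 (D : Dat R) (T J : Finset R) : Ix D → ℕ
  | Sum.inl (x, y) => kA D T x y
  | Sum.inr (Sum.inl (_, y)) => kB J y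
  | Sum.inr (Sum.inr _) => 1

/-- The non-projective arc. -/
noncomputable def bigK (D : Dat R) [Nontrivial R] (T J : Finset R) (P : Point R) : ℕ :=
  k0 D T J ((Equiv.ofBijective (coord D) ⟨coord_injective D, coord_surjective D⟩).symm P)

theorem ev_bigK (D : Dat R) [Nontrivial R] (T J : Finset R) (i : Ix D) :
    ev (bigK D T J) (cv D i) = k0 D T J i := by
  rw [ev_eq _ (unimod_cv D i)]
  have : pt (cv D i) (unimod_cv D i) = coord D i := by
    rcases i with (⟨x, y⟩ | ⟨u, y⟩ | ⟨u, v⟩) <;> rfl
  rw [this, bigK]
  congr 1
  exact (Equiv.ofBijective (coord D) ⟨coord_injective D, coord_surjective D⟩).symm_apply_apply i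

theorem ix_sum (D : Dat R) (F : Ix D → ℕ) :
    ∑ i : Ix D, F i = (∑ x : R, ∑ y : R, F (Sum.inl (x, y))) +
      ((∑ u : D.M, ∑ y : R, F (Sum.inr (Sum.inl (u, y)))) +
        ∑ u : D.M, ∑ v : D.M, F (Sum.inr (Sum.inr (u, v)))) := by
  rw [Fintype.sum_sum_type, Fintype.sum_sum_type, Fintype.sum_prod_type, Fintype.sum_prod_type,
    Fintype.sum_prod_type]

theorem line_sum (D : Dat R) [Nontrivial R] (T J : Finset R) (L : Line R) (c : Fin 3 → R)
    (hL : L.1 = LinearMap.ker (fn c)) :
    mass (bigK D T J) (onLine L) =
      (∑ x : R, ∑ y : R, if c 0 + c 1 * x + c 2 * y = 0 then kA D T x y else 0) +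
      ((∑ u ∈ D.M, ∑ y : R, if c 0 * u + c 1 + c 2 * y = 0 then kB J y else 0) +
        ∑ u ∈ D.M, ∑ v ∈ D.M, if c 0 * u + c 1 * v + c 2 = 0 then 1 else 0) := by
  rw [mass_line D _ L c hL, ix_sum]
  congr 1
  · refine Finset.sum_congr rfl (fun x _ => Finset.sum_congr rfl (fun y _ => ?_))
    rw [ev_bigK]
    have : fn c (cv D (Sum.inl (x, y))) = c 0 + c 1 * x + c 2 * y := by
      rw [fn_apply]; simp [cv]
    rw [this]; rfl
  · congr 1
    · rw [← Finset.sum_coe_sort D.M]
      refine Finset.sum_congr rfl (fun u _ => Finset.sum_congr rfl (fun y _ => ?_))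
      rw [ev_bigK]
      have : fn c (cv D (Sum.inr (Sum.inl (u, y)))) = c 0 * u + c 1 + c 2 * y := by
        rw [fn_apply]; simp [cv]
      rw [this]; rfl
    · rw [← Finset.sum_coe_sort D.M]
      refine Finset.sum_congr rfl (fun u _ => ?_)
      rw [← Finset.sum_coe_sort D.M]
      refine Finset.sum_congr rfl (fun v _ => ?_)
      rw [ev_bigK]
      have : fn c (cv D (Sum.inr (Sum.inr (u, v)))) = c 0 * u + c 1 * v + c 2 := by
        rw [fn_apply]; simp [cv]
      rw [this]; rfl

/-- Number of solutions. -/
theorem sum_kA_eq (D : Dat R) (T : Finset R) (f : R → R) :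
    ∑ x : R, kA D T x (f x) + (Finset.univ.filter (fun x => f x - D.p * x ∈ T)).card =
      D.M.card ^ 2 := by
  rw [← D.card_eq, ← Finset.card_univ]
  unfold kA
  rw [Finset.card_filter, ← Finset.sum_add_distrib, Finset.card_eq_sum_ones]
  refine Finset.sum_congr rfl (fun x _ => ?_)
  split_ifs <;> simp

theorem sum_kA_eq' (D : Dat R) (T : Finset R) (f : R → R) :
    ∑ y : R, kA D T (f y) y + (Finset.univ.filter (fun y => y - D.p * f y ∈ T)).card =
      D.M.card ^ 2 := by
  rw [← D.card_eq, ← Finset.card_univ]
  unfold kA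
  rw [Finset.card_filter, ← Finset.sum_add_distrib, Finset.card_eq_sum_ones]
  refine Finset.sum_congr rfl (fun x _ => ?_)
  split_ifs <;> simp

theorem sum_kB (D : Dat R) (J : Finset R) (hJ : J ⊆ D.M) (h0 : (0 : R) ∉ J) :
    ∑ y ∈ D.M, kB J y + J.card = D.M.card + 1 := by
  have h1 : ∀ y ∈ D.M, kB J y + (if y ∈ J then 1 else 0) = 1 + (if y = 0 then 1 else 0) := by
    intro y _
    unfold kB
    by_cases hy : y = 0
    · subst hy; simp [h0]
    · by_cases hyJ : y ∈ J <;> simp [hy, hyJ]
  have h2 := Finset.sum_congr rfl h1
  rw [Finset.sum_add_distrib, Finset.sum_add_distrib] at h2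
  rw [← Finset.card_filter, Finset.filter_mem_eq_inter, Finset.inter_eq_right.2 hJ] at h2
  rw [h2]
  simp [D.zero_mem]

theorem sum_kB_univ (D : Dat R) (J : Finset R) (h0 : (0 : R) ∉ J) :
    ∑ y : R, kB J y + J.card = D.M.card ^ 2 + 1 := by
  rw [← D.card_eq, ← Finset.card_univ]
  have h1 : ∀ y ∈ (Finset.univ : Finset R),
      kB J y + (if y ∈ J then 1 else 0) = 1 + (if y = 0 then 1 else 0) := by
    intro y _
    unfold kB
    by_cases hy : y = 0
    · subst hy; simp [h0]
    · by_cases hyJ : y ∈ J <;> simp [hy, hyJ]
  have h2 := Finset.sum_congr rfl h1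
  rw [Finset.sum_add_distrib, Finset.sum_add_distrib] at h2
  rw [← Finset.card_filter, Finset.filter_mem_eq_inter, Finset.univ_inter] at h2
  rw [h2]
  simp

omit [Fintype R] [DecidableEq R] in
theorem solve_lin {c w : R} (h : c * w = 1) (a y : R) : a + c * y = 0 ↔ y = -(a * w) := by
  constructor
  · intro h1
    linear_combination (w) * h1 - y * h
  · rintro rfl
    linear_combination (-a) * h

theorem line_le (D : Dat R) [Nontrivial R] (T J : Finset R) (j : ℕ) (hT : T ⊆ D.M)
    (hTj : T.card = j) (hJ : J ⊆ D.M) (h0 : (0 : R) ∉ J) (hp : D.p ∈ J) (hJj : J.card = j + 1)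
    (hj2 : 2 ≤ j) (hjq : j + 2 ≤ D.M.card) (L : Line R) :
    mass (bigK D T J) (onLine L) + j ≤ D.M.card ^ 2 + D.M.card := by
  classical
  obtain ⟨c, hc, hL⟩ := line_eq_ker D L
  rw [line_sum D T J L c hL]
  have hJle : J.card ≤ D.M.card := Finset.card_le_card hJ
  have sA := sum_kA_eq D T
  have sA' := sum_kA_eq' D T
  by_cases h2 : c 2 ∈ D.M
  · by_cases h1 : c 1 ∈ D.M
    · -- case III
      have hc0 : IsUnit (c 0) := by
        obtain ⟨i, hi⟩ := hc
        fin_cases i
        · exact hi
        · exact absurd hi (D.not_unit_of_mem h1)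
        · exact absurd hi (D.not_unit_of_mem h2)
      obtain ⟨w, hw⟩ := hc0.exists_right_inv
      have eA : ∑ x : R, ∑ y : R, (if c 0 + c 1 * x + c 2 * y = 0 then kA D T x y else 0) = 0 := by
        apply Finset.sum_eq_zero; intro x _
        apply Finset.sum_eq_zero; intro y _
        rw [if_neg]
        intro h
        apply D.not_unit_of_mem (x := c 0) ?_ hc0
        have : c 0 = -(x * c 1 + y * c 2) := by linear_combination h
        rw [this]
        exact D.neg_mem (D.add_mem _ (D.mul_mem _ _ h1) _ (D.mul_mem _ _ h2))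
      have eB : ∑ u ∈ D.M, ∑ y : R, (if c 0 * u + c 1 + c 2 * y = 0 then kB J y else 0) =
          ∑ y : R, kB J y := by
        rw [Finset.sum_comm]
        refine Finset.sum_congr rfl (fun y _ => ?_)
        have hiff : ∀ u, (c 0 * u + c 1 + c 2 * y = 0) ↔ u = -((c 1 + c 2 * y) * w) := by
          intro u
          rw [← solve_lin hw]
          constructor <;> intro h <;> linear_combination h
        simp_rw [hiff]
        rw [Finset.sum_ite_eq', if_pos]
        apply D.neg_mem
        rw [mul_comm]
        apply D.mul_mem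
        apply D.add_mem _ h1
        rw [mul_comm]
        exact D.mul_mem _ _ h2
      have eC : ∑ u ∈ D.M, ∑ v ∈ D.M, (if c 0 * u + c 1 * v + c 2 = 0 then 1 else 0) = D.M.card := by
        rw [Finset.sum_comm]
        have : ∀ v ∈ D.M, ∑ u ∈ D.M, (if c 0 * u + c 1 * v + c 2 = 0 then 1 else 0) = 1 := by
          intro v hv
          have hiff : ∀ u, (c 0 * u + c 1 * v + c 2 = 0) ↔ u = -((c 1 * v + c 2) * w) := by
            intro u
            rw [← solve_lin hw]
            constructor <;> intro h <;> linear_combination h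
          simp_rw [hiff]
          rw [Finset.sum_ite_eq', if_pos]
          apply D.neg_mem
          rw [mul_comm]
          apply D.mul_mem
          exact D.add_mem _ (D.mul_mem _ _ hv) _ h2
        rw [Finset.sum_congr rfl this]
        simp
      rw [eA, eB, eC]
      have := sum_kB_univ D J h0
      omega
    · -- case II
      obtain ⟨w, hw⟩ := ((D.unit_iff _).2 h1).exists_right_inv
      have hc1 : IsUnit (c 1) := (D.unit_iff _).2 h1
      have eA : ∑ x : R, ∑ y : R, (if c 0 + c 1 * x + c 2 * y = 0 then kA D T x y else 0) =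
          ∑ y : R, kA D T (-((c 0 + c 2 * y) * w)) y := by
        rw [Finset.sum_comm]
        refine Finset.sum_congr rfl (fun y _ => ?_)
        have hiff : ∀ x, (c 0 + c 1 * x + c 2 * y = 0) ↔ x = -((c 0 + c 2 * y) * w) := by
          intro x
          rw [← solve_lin hw]
          constructor <;> intro h <;> linear_combination h
        simp_rw [hiff]
        rw [Finset.sum_ite_eq', if_pos (Finset.mem_univ _)]
      have eAc : (Finset.univ.filter
          (fun y => y - D.p * (-((c 0 + c 2 * y) * w)) ∈ T)).card = j := by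
        rw [← hTj]
        refine Finset.card_bij' (fun y _ => y + D.p * c 0 * w) (fun t _ => t - D.p * c 0 * w)
          ?_ ?_ ?_ ?_
        · intro y hy
          simp only [Finset.mem_filter, Finset.mem_univ, true_and] at hy
          have hz := D.mul_zero' _ D.p_mem _ h2
          have e : y - D.p * (-((c 0 + c 2 * y) * w)) = y + D.p * c 0 * w := by
            linear_combination (y * w) * hz
          rwa [e] at hy
        · intro t ht
          simp only [Finset.mem_filter, Finset.mem_univ, true_and]
          have hz := D.mul_zero' _ D.p_mem _ h2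
          have e : (t - D.p * c 0 * w) - D.p * (-((c 0 + c 2 * (t - D.p * c 0 * w)) * w)) = t := by
            linear_combination ((t - D.p * c 0 * w) * w) * hz
          rwa [e]
        · intro y _; ring
        · intro y _; ring
      have eB : ∑ u ∈ D.M, ∑ y : R, (if c 0 * u + c 1 + c 2 * y = 0 then kB J y else 0) = 0 := by
        apply Finset.sum_eq_zero; intro u hu
        apply Finset.sum_eq_zero; intro y _
        rw [if_neg]
        intro h
        apply D.not_unit_of_mem (x := c 1) ?_ hc1
        have : c 1 = -(c 0 * u + y * c 2) := by linear_combination h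
        rw [this]
        exact D.neg_mem (D.add_mem _ (D.mul_mem _ _ hu) _ (D.mul_mem _ _ h2))
      have eC : ∑ u ∈ D.M, ∑ v ∈ D.M, (if c 0 * u + c 1 * v + c 2 = 0 then 1 else 0) = D.M.card := by
        have : ∀ u ∈ D.M, ∑ v ∈ D.M, (if c 0 * u + c 1 * v + c 2 = 0 then 1 else 0) = 1 := by
          intro u hu
          have hiff : ∀ v, (c 0 * u + c 1 * v + c 2 = 0) ↔ v = -((c 0 * u + c 2) * w) := by
            intro v
            rw [← solve_lin hw]
            constructor <;> intro h <;> linear_combination h
          simp_rw [hiff]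
          rw [Finset.sum_ite_eq', if_pos]
          apply D.neg_mem
          rw [mul_comm]
          apply D.mul_mem
          exact D.add_mem _ (D.mul_mem _ _ hu) _ h2
        rw [Finset.sum_congr rfl this]
        simp
      have := sA' (fun y => -((c 0 + c 2 * y) * w))
      rw [eAc] at this
      rw [eA, eB, eC]
      omega
  · -- case I
    have hc2 : IsUnit (c 2) := (D.unit_iff _).2 h2
    obtain ⟨w, hw⟩ := hc2.exists_right_inv
    have hwu : IsUnit w := IsUnit.of_mul_eq_one (c 2) (by rw [mul_comm]; exact hw)
    have eA : ∑ x : R, ∑ y : R, (if c 0 + c 1 * x + c 2 * y = 0 then kA D T x y else 0) =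
        ∑ x : R, kA D T x (-((c 0 + c 1 * x) * w)) := by
      refine Finset.sum_congr rfl (fun x _ => ?_)
      simp_rw [solve_lin hw]
      rw [Finset.sum_ite_eq', if_pos (Finset.mem_univ _)]
    have eB : ∑ u ∈ D.M, ∑ y : R, (if c 0 * u + c 1 + c 2 * y = 0 then kB J y else 0) =
        ∑ u ∈ D.M, kB J (-((c 0 * u + c 1) * w)) := by
      refine Finset.sum_congr rfl (fun x _ => ?_)
      simp_rw [solve_lin hw]
      rw [Finset.sum_ite_eq', if_pos (Finset.mem_univ _)]
    have eC : ∑ u ∈ D.M, ∑ v ∈ D.M, (if c 0 * u + c 1 * v + c 2 = 0 then 1 else 0) = 0 := by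
      apply Finset.sum_eq_zero; intro u hu
      apply Finset.sum_eq_zero; intro v hv
      rw [if_neg]
      intro h
      apply D.not_unit_of_mem (x := c 2) ?_ hc2
      have : c 2 = -(c 0 * u + c 1 * v) := by linear_combination h
      rw [this]
      exact D.neg_mem (D.add_mem _ (D.mul_mem _ _ hu) _ (D.mul_mem _ _ hv))
    rw [eA, eB, eC]
    have sA1 := sA (fun x => -((c 0 + c 1 * x) * w))
    by_cases h1 : c 1 ∈ D.M
    · by_cases hc0 : c 0 ∈ D.M
      · -- I.a
        have hBconst : ∑ u ∈ D.M, kB J (-((c 0 * u + c 1) * w)) = D.M.card * kB J (-(c 1 * w)) := by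
          have : ∀ u ∈ D.M, kB J (-((c 0 * u + c 1) * w)) = kB J (-(c 1 * w)) := by
            intro u hu
            rw [D.mul_zero' _ hc0 _ hu, zero_add]
          rw [Finset.sum_congr rfl this, Finset.sum_const, smul_eq_mul]
        rw [hBconst]
        have hc1w : c 1 * w ∈ D.M := by rw [mul_comm]; exact D.mul_mem _ _ h1
        obtain ⟨β, hβ⟩ := D.gen _ hc1w
        by_cases hβ1 : β + 1 ∈ D.M
        · have e : -(c 1 * w) = D.p := by
            have hz := D.mul_zero' _ D.p_mem _ hβ1
            rw [hβ]
            linear_combination (-1 : R) * hz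
          have : kB J (-(c 1 * w)) = 0 := by
            rw [e]; unfold kB; rw [if_neg D.p_ne, if_pos hp]
          rw [this]
          omega
        · have hβu : IsUnit (β + 1) := (D.unit_iff _).2 hβ1
          have hcount : (Finset.univ.filter
              (fun x => -((c 0 + c 1 * x) * w) - D.p * x ∈ T)).card = j * D.M.card := by
            rw [← hTj]
            rw [Finset.card_eq_sum_card_fiberwise
              (f := fun x : R => -((c 0 + c 1 * x) * w) - D.p * x) (t := T)]
            · rw [Finset.sum_congr rfl (g := fun _ => D.M.card), Finset.sum_const, smul_eq_mul]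
              intro t ht
              have hmem : -(c 0 * w + t) ∈ D.M := by
                apply D.neg_mem
                apply D.add_mem _ _ _ (hT ht)
                rw [mul_comm]; exact D.mul_mem _ _ hc0
              rw [← D.card_fiber hmem hβu]
              congr 1
              ext x
              simp only [Finset.mem_filter, Finset.mem_univ, true_and]
              constructor
              · rintro ⟨_, h⟩
                linear_combination (-1 : R) * h - x * hβ
              · intro h
                have h' : -((c 0 + c 1 * x) * w) - D.p * x = t := by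
                  linear_combination (-1 : R) * h - x * hβ
                exact ⟨by rw [h']; exact ht, h'⟩
            · intro x hx
              simpa using hx
          rw [hcount] at sA1
          have hle2 : kB J (-(c 1 * w)) ≤ 2 := by
            unfold kB; split_ifs <;> omega
          have h3 : D.M.card * kB J (-(c 1 * w)) ≤ D.M.card * 2 := Nat.mul_le_mul_left _ hle2
          have h4 : 2 * D.M.card ≤ j * D.M.card := Nat.mul_le_mul_right _ hj2
          have h5 : j + D.M.card ≤ j * D.M.card := by
            obtain ⟨j', rfl⟩ : ∃ j', j = j' + 2 := ⟨j - 2, by omega⟩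
            obtain ⟨q', hq'⟩ : ∃ q', D.M.card = q' + 2 := ⟨D.M.card - 2, by omega⟩
            rw [hq']
            nlinarith [Nat.zero_le (j' * q')]
          omega
      · -- c1 in M, c0 unit
        have hc0u : IsUnit (c 0) := (D.unit_iff _).2 hc0
        have hB : ∑ u ∈ D.M, kB J (-((c 0 * u + c 1) * w)) = ∑ y ∈ D.M, kB J y := by
          obtain ⟨z, hz⟩ := hc0u.exists_right_inv
          refine Finset.sum_bij' (fun u _ => -((c 0 * u + c 1) * w))
            (fun y _ => -((c 1 + c 2 * y) * z)) ?_ ?_ ?_ ?_ ?_
          · intro u hu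
            apply D.neg_mem
            rw [mul_comm]
            exact D.mul_mem _ _ (D.add_mem _ (D.mul_mem _ _ hu) _ h1)
          · intro y hy
            apply D.neg_mem
            rw [mul_comm]
            exact D.mul_mem _ _ (D.add_mem _ h1 _ (D.mul_mem _ _ hy))
          · intro u _
            linear_combination (c 1 + c 0 * u) * z * hw + u * hz
          · intro y _
            linear_combination (c 1 + c 2 * y) * w * hz + y * hw
          · intro u _; rfl
        rw [hB]
        have := sum_kB D J hJ h0
        omega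
    · -- c1 unit
      have hc1u : IsUnit (c 1) := (D.unit_iff _).2 h1
      have heu : IsUnit (c 1 * w + D.p) := by
        rw [D.unit_iff]
        intro hmem
        have : c 1 * w = (c 1 * w + D.p) - D.p := by ring
        have h3 : c 1 * w ∈ D.M := by rw [this]; exact D.sub_mem hmem D.p_mem
        exact D.not_unit_of_mem h3 (hc1u.mul hwu)
      obtain ⟨z, hz⟩ := heu.exists_right_inv
      have hcount : (Finset.univ.filter
          (fun x => -((c 0 + c 1 * x) * w) - D.p * x ∈ T)).card = j := by
        rw [← hTj]
        refine Finset.card_bij' (fun x _ => -((c 0 + c 1 * x) * w) - D.p * x)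
          (fun t _ => -((c 0 * w + t) * z)) ?_ ?_ ?_ ?_
        · intro x hx
          simpa using hx
        · intro t ht
          simp only [Finset.mem_filter, Finset.mem_univ, true_and]
          have e : -((c 0 + c 1 * (-((c 0 * w + t) * z))) * w) - D.p * (-((c 0 * w + t) * z)) =
              t := by
            linear_combination (c 0 * w + t) * hz
          rwa [e]
        · intro x _
          linear_combination x * hz
        · intro t _
          linear_combination (c 0 * w + t) * hz
      rw [hcount] at sA1
      have hB : ∑ u ∈ D.M, kB J (-((c 0 * u + c 1) * w)) = D.M.card := by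
        have : ∀ u ∈ D.M, kB J (-((c 0 * u + c 1) * w)) = 1 := by
          intro u hu
          have hnot : -((c 0 * u + c 1) * w) ∉ D.M := by
            rw [← D.unit_iff]
            apply IsUnit.neg
            apply IsUnit.mul _ hwu
            rw [D.unit_iff]
            intro hmem
            have e : c 1 = (c 0 * u + c 1) - c 0 * u := by ring
            apply h1
            rw [e]
            exact D.sub_mem hmem (D.mul_mem _ _ hu)
          unfold kB
          rw [if_neg, if_neg]
          · intro h; exact hnot (hJ h)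
          · intro h; rw [h] at hnot; exact hnot D.zero_mem
        rw [Finset.sum_congr rfl this]
        simp
      rw [hB]
      omega

theorem total (D : Dat R) [Nontrivial R] (T J : Finset R) (j : ℕ) (hT : T ⊆ D.M)
    (hTj : T.card = j) (h0 : (0 : R) ∉ J) (hJj : J.card = j + 1) :
    mass (bigK D T J) Set.univ + j * (D.M.card ^ 2 + D.M.card) =
      D.M.card ^ 4 + D.M.card ^ 3 + D.M.card ^ 2 := by
  classical
  rw [mass_univ D, ix_sum]
  set q := D.M.card with hq
  have eA : ∑ x : R, ∑ y : R, ev (bigK D T J) (cv D (Sum.inl (x, y))) + q ^ 2 * j = q ^ 4 := by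
    have h1 : ∀ x : R, ∑ y : R, ev (bigK D T J) (cv D (Sum.inl (x, y))) + j = q ^ 2 := by
      intro x
      have h2 := sum_kA_eq' D T (fun _ => x)
      have h3 : (Finset.univ.filter (fun y => y - D.p * x ∈ T)).card = j := by
        rw [← hTj]
        refine Finset.card_bij' (fun y _ => y - D.p * x) (fun t _ => t + D.p * x) ?_ ?_ ?_ ?_
        · intro y hy; simpa using hy
        · intro t ht; simpa using ht
        · intro y _; ring
        · intro y _; ring
      rw [h3] at h2
      rw [← h2]
      congr 1
      refine Finset.sum_congr rfl (fun y _ => ?_)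
      rw [ev_bigK]; rfl
    have h2 := Finset.sum_congr rfl (fun x (_ : x ∈ (Finset.univ : Finset R)) => h1 x)
    rw [Finset.sum_add_distrib, Finset.sum_const, Finset.sum_const, Finset.card_univ, D.card_eq,
      smul_eq_mul, smul_eq_mul, ← hq] at h2
    rw [h2]; ring
  have eB : ∑ u : D.M, ∑ y : R, ev (bigK D T J) (cv D (Sum.inr (Sum.inl (u, y)))) + q * j =
      q ^ 3 := by
    have h1 : ∀ u : D.M, ∑ y : R, ev (bigK D T J) (cv D (Sum.inr (Sum.inl (u, y)))) + j =
        q ^ 2 := by
      intro u
      have h2 := sum_kB_univ D J h0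
      have h3 : ∑ y : R, ev (bigK D T J) (cv D (Sum.inr (Sum.inl (u, y)))) = ∑ y : R, kB J y := by
        refine Finset.sum_congr rfl (fun y _ => ?_)
        rw [ev_bigK]; rfl
      rw [h3]
      rw [← hq] at h2
      omega
    have h2 := Finset.sum_congr rfl (fun u (_ : u ∈ (Finset.univ : Finset D.M)) => h1 u)
    rw [Finset.sum_add_distrib, Finset.sum_const, Finset.sum_const, Finset.card_univ,
      Fintype.card_coe, smul_eq_mul, smul_eq_mul, ← hq] at h2
    rw [h2]; ring
  have eC : ∑ u : D.M, ∑ v : D.M, ev (bigK D T J) (cv D (Sum.inr (Sum.inr (u, v)))) = q ^ 2 := by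
    have : ∀ u v : D.M, ev (bigK D T J) (cv D (Sum.inr (Sum.inr (u, v)))) = 1 := by
      intro u v
      rw [ev_bigK]; rfl
    simp_rw [this]
    simp [← hq, pow_two]
  rw [eC]
  have : j * (q ^ 2 + q) = q ^ 2 * j + q * j := by ring
  rw [this]
  omega

end Pool.Agent.H649R3
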