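import Pool.Agent.H649R3.PHGLine

set_option autoImplicit false

namespace Pool.Agent.H649R3

variable {R : Type} [CommRing R] [Fintype R] [DecidableEq R]

/-- index type of points -/
abbrev Ix (D : Dat R) : Type := (R × R) ⊕ (D.M × R) ⊕ (D.M × D.M)

/-- segment mass -/
noncomputable def sg [Nontrivial R] (D : Dat R) (K : Point R → ℕ) (g A : R) : ℕ :=
  ∑ b ∈ D.M, ev K ![1, -(A + g * b), b]

/-- segment mass at infinity -/
noncomputable def si [Nontrivial R] (D : Dat R) (K : Point R → ℕ) (A : R) : ℕ :=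
  ∑ a ∈ D.M, ev K ![1, a, -A]

/-- class mass -/
noncomputable def cm [Nontrivial R] (D : Dat R) (K : Point R → ℕ) : ℕ :=
  ∑ a ∈ D.M, ∑ b ∈ D.M, ev K ![1, a, b]

theorem sum_sg [Nontrivial R] (D : Dat R) (K : Point R → ℕ) (g : R) :
    ∑ A ∈ D.M, sg D K g A = cm D K := by
  unfold sg cm
  rw [Finset.sum_comm, Finset.sum_comm (s := D.M) (t := D.M) (f := fun a b => ev K ![1, a, b])]
  refine Finset.sum_congr rfl (fun b hb => ?_)
  refine Finset.sum_bij' (fun A _ => -(A + g * b)) (fun A _ => -(A + g * b)) ?_ ?_ ?_ ?_ ?_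
  · intro A hA
    exact D.neg_mem (D.add_mem _ hA _ (D.mul_mem _ _ hb))
  · intro A hA
    exact D.neg_mem (D.add_mem _ hA _ (D.mul_mem _ _ hb))
  · intro A _; simp
  · intro A _; simp
  · intro A _; rfl

theorem sum_si [Nontrivial R] (D : Dat R) (K : Point R → ℕ) :
    ∑ A ∈ D.M, si D K A = cm D K := by
  unfold si cm
  rw [Finset.sum_comm]
  refine Finset.sum_congr rfl (fun b hb => ?_)
  refine Finset.sum_bij' (fun A _ => -A) (fun A _ => -A) ?_ ?_ ?_ ?_ ?_
  · intro A hA
    exact D.neg_mem hA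
  · intro A hA
    exact D.neg_mem hA
  · intro A _; simp
  · intro A _; simp
  · intro A _; rfl

theorem exists_big (D : Dat R) (f : R → ℕ) (u : ℕ) (h : ∑ A ∈ D.M, f A = u) :
    ∃ A ∈ D.M, u ≤ D.M.card * f A := by
  by_contra hc
  push Not at hc
  have h1 : ∑ A ∈ D.M, D.M.card * f A < ∑ A ∈ D.M, u :=
    Finset.sum_lt_sum_of_nonempty ⟨0, D.zero_mem⟩ hc
  rw [← Finset.mul_sum, h, Finset.sum_const, smul_eq_mul] at h1
  exact lt_irrefl _ h1

theorem choose_A [Nontrivial R] (D : Dat R) (K : Point R → ℕ) :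
    ∃ A : R → R, (∀ t, A t ∈ D.M) ∧ ∀ g, cm D K ≤ D.M.card * sg D K g (A (D.p * g)) := by
  have h : ∀ t : R, ∃ A ∈ D.M, ∀ g, D.p * g = t → cm D K ≤ D.M.card * sg D K g A := by
    intro t
    by_cases ht : ∃ g0, D.p * g0 = t
    · obtain ⟨g0, hg0⟩ := ht
      obtain ⟨A, hA, hA2⟩ := exists_big D (sg D K g0) _ (sum_sg D K g0)
      refine ⟨A, hA, ?_⟩
      intro g hg
      have hd : g - g0 ∈ D.M := by
        apply D.mem_of_not_unit
        intro hu
        have : D.p * (g - g0) = 0 := by rw [mul_sub, hg, hg0, sub_self]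
        exact D.p_ne ((hu.mul_left_eq_zero).1 this)
      have : sg D K g A = sg D K g0 A := by
        unfold sg
        refine Finset.sum_congr rfl (fun b hb => ?_)
        have : g * b = g0 * b := by
          have := D.mul_zero' _ hd _ hb
          rw [sub_mul] at this
          exact sub_eq_zero.1 this
        rw [this]
      rw [this]
      exact hA2
    · exact ⟨0, D.zero_mem, fun g hg => absurd ⟨g, hg⟩ ht⟩
  choose A hA hA2 using h
  exact ⟨A, hA, fun g => hA2 _ g rfl⟩

/-- The key inequality. -/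
theorem key [Nontrivial R] (D : Dat R) (K : Point R → ℕ) (n : ℕ)
    (hK : ∀ L : Line R, mass K (onLine L) ≤ n) :
    ∃ (S : R → ℕ) (S' : ℕ), (∀ g, cm D K ≤ D.M.card * S g) ∧ cm D K ≤ D.M.card * S' ∧
      mass K Set.univ + (∑ g : R, S g + D.M.card * S') ≤
        cm D K + n * (D.M.card ^ 2 + D.M.card) := by
  classical
  obtain ⟨A, hA, hA2⟩ := choose_A D K
  obtain ⟨B, hB, hB2⟩ := exists_big D (si D K) _ (sum_si D K)
  refine ⟨fun g => sg D K g (A (D.p * g)), si D K B, hA2, hB2, ?_⟩
  -- the two families of lines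
  let L1 : R → Line R := fun g =>
    ⟨LinearMap.ker (fn ![A (D.p * g), 1, g]), free_ker1 _ _⟩
  let L2 : R → Line R := fun g =>
    ⟨LinearMap.ker (fn ![B, g, 1]), free_ker2 _ _⟩
  have hsum : ∑ g : R, mass K (onLine (L1 g)) + ∑ g ∈ D.M, mass K (onLine (L2 g)) ≤
      n * (D.M.card ^ 2 + D.M.card) := by
    have h1 : ∑ g : R, mass K (onLine (L1 g)) ≤ ∑ g : R, n :=
      Finset.sum_le_sum (fun g _ => hK _)
    have h2 : ∑ g ∈ D.M, mass K (onLine (L2 g)) ≤ ∑ g ∈ D.M, n :=
      Finset.sum_le_sum (fun g _ => hK _)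
    rw [Finset.sum_const, smul_eq_mul] at h1 h2
    rw [Finset.card_univ, D.card_eq] at h1
    calc _ ≤ D.M.card ^ 2 * n + D.M.card * n := Nat.add_le_add h1 h2
      _ = _ := by ring
  let w : (Fin 3 → R) → ℕ := fun v =>
    (∑ g : R, if fn ![A (D.p * g), 1, g] v = 0 then 1 else 0) +
      ∑ g ∈ D.M, if fn ![B, g, 1] v = 0 then 1 else 0
  have hw : ∑ g : R, mass K (onLine (L1 g)) + ∑ g ∈ D.M, mass K (onLine (L2 g)) =
      ∑ i : Ix D, ev K (cv D i) * w (cv D i) := by
    have e1 : ∀ g : R, mass K (onLine (L1 g)) = ∑ i : Ix D,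
        ev K (cv D i) * (if fn ![A (D.p * g), 1, g] (cv D i) = 0 then 1 else 0) := by
      intro g
      rw [mass_line D K (L1 g) _ rfl]
      refine Finset.sum_congr rfl (fun i _ => ?_)
      split_ifs <;> simp
    have e2 : ∀ g : R, mass K (onLine (L2 g)) = ∑ i : Ix D,
        ev K (cv D i) * (if fn ![B, g, 1] (cv D i) = 0 then 1 else 0) := by
      intro g
      rw [mass_line D K (L2 g) _ rfl]
      refine Finset.sum_congr rfl (fun i _ => ?_)
      split_ifs <;> simp
    simp_rw [e1, e2]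
    rw [Finset.sum_comm, Finset.sum_comm (s := D.M), ← Finset.sum_add_distrib]
    refine Finset.sum_congr rfl (fun i _ => ?_)
    rw [← Finset.mul_sum, ← Finset.mul_sum, ← mul_add]
  rw [hw] at hsum
  rw [mass_univ D K]
  rw [sumExpand D (fun v => ev K v * w v)] at hsum
  rw [sumExpand D (ev K)]
  -- B type and C type
  have hBt : ∑ u ∈ D.M, ∑ y : R, ev K ![u, 1, y] ≤
      ∑ u ∈ D.M, ∑ y : R, ev K ![u, 1, y] * w ![u, 1, y] := by
    refine Finset.sum_le_sum (fun u hu => Finset.sum_le_sum (fun y _ => ?_))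
    have : 1 ≤ w ![u, 1, y] := by
      by_cases hy : y ∈ D.M
      · have hmem : -(B * u + y) ∈ D.M := D.neg_mem (D.add_mem _ (D.mul_mem _ _ hu) _ hy)
        have h1 : (1 : ℕ) ≤ ∑ g ∈ D.M, if fn ![B, g, 1] ![u, 1, y] = 0 then 1 else 0 := by
          refine le_trans ?_ (Finset.single_le_sum (fun _ _ => Nat.zero_le _) hmem)
          rw [if_pos]
          rw [fn_apply]; simp
        exact le_trans h1 (Nat.le_add_left _ _)
      · obtain ⟨c, hc⟩ := (D.unit_iff y).2 hy
        have h1 : (1 : ℕ) ≤ ∑ g : R, if fn ![A (D.p * g), 1, g] ![u, 1, y] = 0 then 1 else 0 := by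
          refine le_trans ?_ (Finset.single_le_sum (fun _ _ => Nat.zero_le _)
            (Finset.mem_univ (-(↑c⁻¹ : R))))
          rw [if_pos]
          rw [fn_apply]
          simp only [Matrix.cons_val_zero, Matrix.cons_val_one, Matrix.cons_val]
          rw [D.mul_zero' _ (hA _) _ hu, ← hc]
          simp
        exact le_trans h1 (Nat.le_add_right _ _)
    calc ev K ![u, 1, y] = ev K ![u, 1, y] * 1 := (mul_one _).symm
      _ ≤ _ := Nat.mul_le_mul_left _ this
  have hCt : ∑ u ∈ D.M, ∑ v ∈ D.M, ev K ![u, v, 1] ≤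
      ∑ u ∈ D.M, ∑ v ∈ D.M, ev K ![u, v, 1] * w ![u, v, 1] := by
    refine Finset.sum_le_sum (fun u hu => Finset.sum_le_sum (fun v hv => ?_))
    have : 1 ≤ w ![u, v, 1] := by
      have h1 : (1 : ℕ) ≤ ∑ g : R, if fn ![A (D.p * g), 1, g] ![u, v, 1] = 0 then 1 else 0 := by
        refine le_trans ?_ (Finset.single_le_sum (fun _ _ => Nat.zero_le _)
          (Finset.mem_univ (-v)))
        rw [if_pos]
        rw [fn_apply]
        simp only [Matrix.cons_val_zero, Matrix.cons_val_one, Matrix.cons_val]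
        rw [D.mul_zero' _ (hA _) _ hu]
        simp
      exact le_trans h1 (Nat.le_add_right _ _)
    calc ev K ![u, v, 1] = ev K ![u, v, 1] * 1 := (mul_one _).symm
      _ ≤ _ := Nat.mul_le_mul_left _ this
  -- A type
  have hAt : (∑ x : R, ∑ y : R, ev K ![1, x, y]) +
      (∑ x ∈ D.M, ∑ y ∈ D.M, ev K ![1, x, y] * w ![1, x, y]) ≤
      cm D K + ∑ x : R, ∑ y : R, ev K ![1, x, y] * w ![1, x, y] := by
    have f1 : ∀ F : R → R → ℕ, ∑ x ∈ D.M, ∑ y ∈ D.M, F x y =
        ∑ x : R, ∑ y : R, if x ∈ D.M ∧ y ∈ D.M then F x y else 0 := by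
      intro F
      rw [← Finset.sum_subset (Finset.subset_univ D.M)]
      · refine Finset.sum_congr rfl (fun x hx => ?_)
        rw [← Finset.sum_subset (Finset.subset_univ D.M)]
        · refine Finset.sum_congr rfl (fun y hy => ?_)
          rw [if_pos ⟨hx, hy⟩]
        · intro y _ hy
          rw [if_neg]; tauto
      · intro x _ hx
        apply Finset.sum_eq_zero
        intro y _
        rw [if_neg]; tauto
    unfold cm
    rw [f1, f1, ← Finset.sum_add_distrib, ← Finset.sum_add_distrib]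
    refine Finset.sum_le_sum (fun x _ => ?_)
    rw [← Finset.sum_add_distrib, ← Finset.sum_add_distrib]
    refine Finset.sum_le_sum (fun y _ => ?_)
    by_cases hxy : x ∈ D.M ∧ y ∈ D.M
    · rw [if_pos hxy, if_pos hxy]
    · rw [if_neg hxy, if_neg hxy]
      have : 1 ≤ w ![1, x, y] := by
        by_cases hy : y ∈ D.M
        · have hx : x ∉ D.M := fun hx => hxy ⟨hx, hy⟩
          obtain ⟨c, hc⟩ := (D.unit_iff x).2 hx
          have hmem : -((↑c⁻¹ : R) * (B + y)) ∈ D.M :=
            D.neg_mem (D.mul_mem _ _ (D.add_mem _ hB _ hy))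
          have h1 : (1 : ℕ) ≤ ∑ g ∈ D.M, if fn ![B, g, 1] ![1, x, y] = 0 then 1 else 0 := by
            refine le_trans ?_ (Finset.single_le_sum (fun _ _ => Nat.zero_le _) hmem)
            rw [if_pos]
            rw [fn_apply]
            simp only [Matrix.cons_val_zero, Matrix.cons_val_one, Matrix.cons_val]
            rw [← hc]
            have : (c : R) * (↑c⁻¹ : R) = 1 := Units.mul_inv c
            linear_combination (-(B + y)) * this
          exact le_trans h1 (Nat.le_add_left _ _)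
        · obtain ⟨c, hc⟩ := (D.unit_iff y).2 hy
          have hcc : (c : R) * (↑c⁻¹ : R) = 1 := Units.mul_inv c
          set t : R := -(D.p * x * (↑c⁻¹ : R)) with ht
          have hpg : D.p * (-((x + A t) * (↑c⁻¹ : R))) = t := by
            have := D.mul_zero' _ D.p_mem _ (hA t)
            rw [ht]
            linear_combination (-(↑c⁻¹ : R)) * this
          have h1 : (1 : ℕ) ≤ ∑ g : R,
              if fn ![A (D.p * g), 1, g] ![1, x, y] = 0 then 1 else 0 := by
            refine le_trans ?_ (Finset.single_le_sum (fun _ _ => Nat.zero_le _)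
              (Finset.mem_univ (-((x + A t) * (↑c⁻¹ : R)))))
            rw [if_pos]
            rw [fn_apply]
            simp only [Matrix.cons_val_zero, Matrix.cons_val_one, Matrix.cons_val]
            rw [hpg, ← hc]
            linear_combination (-(x + A t)) * hcc
          exact le_trans h1 (Nat.le_add_right _ _)
      calc ev K ![1, x, y] + 0 = ev K ![1, x, y] * 1 := by ring
        _ ≤ ev K ![1, x, y] * w ![1, x, y] := Nat.mul_le_mul_left _ this
        _ = _ := by ring
  have hX : (∑ g : R, sg D K g (A (D.p * g))) + D.M.card * si D K B ≤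
      ∑ x ∈ D.M, ∑ y ∈ D.M, ev K ![1, x, y] * w ![1, x, y] := by
    have hsplit : ∑ x ∈ D.M, ∑ y ∈ D.M, ev K ![1, x, y] * w ![1, x, y] =
        (∑ x ∈ D.M, ∑ y ∈ D.M, ∑ g : R,
          if fn ![A (D.p * g), 1, g] ![1, x, y] = 0 then ev K ![1, x, y] else 0) +
        ∑ x ∈ D.M, ∑ y ∈ D.M, ∑ g ∈ D.M,
          if fn ![B, g, 1] ![1, x, y] = 0 then ev K ![1, x, y] else 0 := by
      rw [← Finset.sum_add_distrib]
      refine Finset.sum_congr rfl (fun x _ => ?_)
      rw [← Finset.sum_add_distrib]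
      refine Finset.sum_congr rfl (fun y _ => ?_)
      show ev K ![1, x, y] * (_ + _) = _
      rw [mul_add, Finset.mul_sum, Finset.mul_sum]
      congr 1
      · refine Finset.sum_congr rfl (fun g _ => ?_)
        split_ifs <;> simp
      · refine Finset.sum_congr rfl (fun g _ => ?_)
        split_ifs <;> simp
    rw [hsplit]
    apply Nat.add_le_add
    · -- first part
      have : ∑ x ∈ D.M, ∑ y ∈ D.M, ∑ g : R,
          (if fn ![A (D.p * g), 1, g] ![1, x, y] = 0 then ev K ![1, x, y] else 0) =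
          ∑ g : R, ∑ y ∈ D.M, ∑ x ∈ D.M,
          (if fn ![A (D.p * g), 1, g] ![1, x, y] = 0 then ev K ![1, x, y] else 0) := by
        rw [Finset.sum_comm]
        calc _ = ∑ y ∈ D.M, ∑ g : R, ∑ x ∈ D.M,
          (if fn ![A (D.p * g), 1, g] ![1, x, y] = 0 then ev K ![1, x, y] else 0) := by
              refine Finset.sum_congr rfl (fun y _ => ?_)
              rw [Finset.sum_comm]
          _ = _ := Finset.sum_comm
      rw [this]
      refine Finset.sum_le_sum (fun g _ => ?_)
      unfold sg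
      refine Finset.sum_le_sum (fun y hy => ?_)
      have hmem : -(A (D.p * g) + g * y) ∈ D.M :=
        D.neg_mem (D.add_mem _ (hA _) _ (D.mul_mem _ _ hy))
      refine le_trans ?_ (Finset.single_le_sum (fun _ _ => Nat.zero_le _) hmem)
      rw [if_pos]
      rw [fn_apply]
      simp
    · -- second part
      unfold si
      rw [Finset.mul_sum]
      refine Finset.sum_le_sum (fun x hx => ?_)
      refine le_trans ?_ (Finset.single_le_sum (fun _ _ => Nat.zero_le _) (D.neg_mem hB))
      have : ∀ g ∈ D.M, (if fn ![B, g, 1] ![1, x, -B] = 0 then ev K ![1, x, -B] else 0) =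
          ev K ![1, x, -B] := by
        intro g hg
        rw [if_pos]
        rw [fn_apply]
        simp only [Matrix.cons_val_zero, Matrix.cons_val_one, Matrix.cons_val]
        rw [D.mul_zero' _ hg _ hx]
        simp
      rw [Finset.sum_congr rfl this, Finset.sum_const, smul_eq_mul]
  simp only at hsum ⊢
  omega

end Pool.Agent.H649R3
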