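import Pool.Agent.H649R3.PHGAlg

set_option autoImplicit false

namespace Pool.Agent.H649R3

variable {R : Type} [CommRing R] [Fintype R] [DecidableEq R]

/-- Some coordinate is a unit. -/
def Unimod (v : Fin 3 → R) : Prop := ∃ i, IsUnit (v i)

omit [Fintype R] [DecidableEq R] in
theorem unimod_injective {v : Fin 3 → R} (h : Unimod v) :
    Function.Injective (LinearMap.toSpanSingleton R (Fin 3 → R) v) := by
  obtain ⟨i, hi⟩ := h
  rw [← LinearMap.ker_eq_bot, LinearMap.ker_eq_bot']
  intro r hr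
  have := congrFun hr i
  simp only [LinearMap.toSpanSingleton_apply, Pi.smul_apply, smul_eq_mul, Pi.zero_apply] at this
  exact (hi.mul_left_eq_zero).1 this

omit [Fintype R] [DecidableEq R] in
theorem free_span [Nontrivial R] {v : Fin 3 → R} (h : Unimod v) :
    Module.Free R (Submodule.span R {v}) ∧ Module.finrank R (Submodule.span R {v}) = 1 := by
  have e := LinearEquiv.ofInjective _ (unimod_injective h)
  rw [LinearMap.range_toSpanSingleton] at e
  refine ⟨Module.Free.of_equiv e, ?_⟩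
  rw [← e.finrank_eq, Module.finrank_self]

/-- The point spanned by a unimodular vector. -/
def pt [Nontrivial R] (v : Fin 3 → R) (h : Unimod v) : Point R :=
  ⟨Submodule.span R {v}, free_span h⟩

open Classical in
/-- Value of a function on points at a vector. -/
noncomputable def ev [Nontrivial R] (K : Point R → ℕ) (v : Fin 3 → R) : ℕ :=
  if h : Unimod v then K (pt v h) else 0

omit [Fintype R] [DecidableEq R] in
theorem ev_eq [Nontrivial R] (K : Point R → ℕ) {v : Fin 3 → R} (h : Unimod v) :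
    ev K v = K (pt v h) := by
  simp [ev, h]

omit [Fintype R] [DecidableEq R] in
theorem um1 (x y : R) : Unimod ![1, x, y] := ⟨0, by simp⟩

omit [Fintype R] [DecidableEq R] in
theorem um2 (x y : R) : Unimod ![x, 1, y] := ⟨1, by simp⟩

omit [Fintype R] [DecidableEq R] in
theorem um3 (x y : R) : Unimod ![x, y, 1] := ⟨2, by simp⟩

/-- Normalised coordinates of points. -/
def coord (D : Dat R) [Nontrivial R] : (R × R) ⊕ (D.M × R) ⊕ (D.M × D.M) → Point R
  | Sum.inl (x, y) => pt ![1, x, y] (um1 x y)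
  | Sum.inr (Sum.inl (u, y)) => pt ![u.1, 1, y] (um2 u.1 y)
  | Sum.inr (Sum.inr (u, v)) => pt ![u.1, v.1, 1] (um3 u.1 v.1)

omit [Fintype R] [DecidableEq R] in
theorem pt_eq_iff [Nontrivial R] {v w : Fin 3 → R} (hv : Unimod v) (hw : Unimod w)
    (h : pt v hv = pt w hw) : ∃ r : R, r • w = v := by
  have h1 : Submodule.span R {v} = Submodule.span R {w} := congrArg Subtype.val h
  have h2 : v ∈ Submodule.span R {w} := by
    rw [← h1]; exact Submodule.mem_span_singleton_self v
  exact Submodule.mem_span_singleton.1 h2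

/-- The vector of a normalised coordinate. -/
def cv (D : Dat R) : (R × R) ⊕ (D.M × R) ⊕ (D.M × D.M) → Fin 3 → R
  | Sum.inl (x, y) => ![1, x, y]
  | Sum.inr (Sum.inl (u, y)) => ![u.1, 1, y]
  | Sum.inr (Sum.inr (u, v)) => ![u.1, v.1, 1]

theorem coord_eq (D : Dat R) [Nontrivial R] {i j : (R × R) ⊕ (D.M × R) ⊕ (D.M × D.M)}
    (h : coord D i = coord D j) : ∃ r : R, r • cv D j = cv D i := by
  have key : ∀ i : (R × R) ⊕ (D.M × R) ⊕ (D.M × D.M),
      (coord D i).1 = Submodule.span R {cv D i} := by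
    rintro (⟨x, y⟩ | ⟨u, y⟩ | ⟨u, v⟩) <;> rfl
  have h1 : Submodule.span R {cv D i} = Submodule.span R {cv D j} := by
    rw [← key, ← key, h]
  have h2 : cv D i ∈ Submodule.span R {cv D j} := by
    rw [← h1]; exact Submodule.mem_span_singleton_self _
  exact Submodule.mem_span_singleton.1 h2

theorem coord_injective (D : Dat R) [Nontrivial R] : Function.Injective (coord D) := by
  rintro (⟨x, y⟩ | ⟨u, y⟩ | ⟨u, v⟩) (⟨x', y'⟩ | ⟨u', y'⟩ | ⟨u', v'⟩) h
  · obtain ⟨r, hr⟩ := coord_eq D h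
    have h0 := congrFun hr 0
    have h1 := congrFun hr 1
    have h2 := congrFun hr 2
    simp [cv] at h0 h1 h2
    subst h0
    simp at h1 h2
    rw [h1, h2]
  · exfalso
    obtain ⟨r, hr⟩ := coord_eq D h
    have h0 := congrFun hr 0
    simp [cv] at h0
    exact D.not_unit_of_mem (D.mul_mem r _ u'.2) (h0 ▸ isUnit_one)
  · exfalso
    obtain ⟨r, hr⟩ := coord_eq D h
    have h0 := congrFun hr 0
    simp [cv] at h0
    exact D.not_unit_of_mem (D.mul_mem r _ u'.2) (h0 ▸ isUnit_one)
  · exfalso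
    obtain ⟨r, hr⟩ := coord_eq D h.symm
    have h0 := congrFun hr 0
    simp [cv] at h0
    exact D.not_unit_of_mem (D.mul_mem r _ u.2) (h0 ▸ isUnit_one)
  · obtain ⟨r, hr⟩ := coord_eq D h
    have h0 := congrFun hr 0
    have h1 := congrFun hr 1
    have h2 := congrFun hr 2
    simp [cv] at h0 h1 h2
    subst h1
    simp at h0 h2
    rw [h0, h2]
  · exfalso
    obtain ⟨r, hr⟩ := coord_eq D h
    have h1 := congrFun hr 1
    simp [cv] at h1
    exact D.not_unit_of_mem (D.mul_mem r _ v'.2) (h1 ▸ isUnit_one)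
  · exfalso
    obtain ⟨r, hr⟩ := coord_eq D h.symm
    have h0 := congrFun hr 0
    simp [cv] at h0
    exact D.not_unit_of_mem (D.mul_mem r _ u.2) (h0 ▸ isUnit_one)
  · exfalso
    obtain ⟨r, hr⟩ := coord_eq D h.symm
    have h1 := congrFun hr 1
    simp [cv] at h1
    exact D.not_unit_of_mem (D.mul_mem r _ v.2) (h1 ▸ isUnit_one)
  · obtain ⟨r, hr⟩ := coord_eq D h
    have h0 := congrFun hr 0
    have h1 := congrFun hr 1
    have h2 := congrFun hr 2
    simp [cv] at h0 h1 h2
    subst h2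
    simp at h0 h1
    rw [h0, h1]

theorem unimod_of_basis (D : Dat R) {v : Fin 3 → R} (h : ∀ r : R, r • v = 0 → r = 0) :
    Unimod v := by
  by_contra hc
  apply D.p_ne
  apply h
  funext i
  have : v i ∈ D.M := by
    apply D.mem_of_not_unit
    intro hi
    exact hc ⟨i, hi⟩
  simp only [Pi.smul_apply, smul_eq_mul, Pi.zero_apply]
  exact D.mul_zero' _ D.p_mem _ this

omit [Fintype R] [DecidableEq R] in
theorem pt_smul [Nontrivial R] {v : Fin 3 → R} (hv : Unimod v) (r : Rˣ) (w : Fin 3 → R)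
    (hw : Unimod w) (h : w = (r : R) • v) : pt v hv = pt w hw := by
  apply Subtype.ext
  show Submodule.span R {v} = Submodule.span R {w}
  rw [h, Submodule.span_singleton_smul_eq r.isUnit]

theorem coord_surjective (D : Dat R) [Nontrivial R] : Function.Surjective (coord D) := by
  rintro ⟨P, hP1, hP2⟩
  haveI := hP1
  let b := Module.finBasisOfFinrankEq R P hP2
  set v : Fin 3 → R := (b 0 : P).1 with hv
  have hspan : P = Submodule.span R {v} := by
    have h1 := b.span_eq
    have h2 : Set.range b = {b 0} := by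
      ext x
      simp only [Set.mem_range, Set.mem_singleton_iff]
      constructor
      · rintro ⟨i, rfl⟩
        rw [Subsingleton.elim i 0]
      · rintro rfl
        exact ⟨0, rfl⟩
    rw [h2] at h1
    have h3 := congrArg (Submodule.map P.subtype) h1
    rw [Submodule.map_span, Submodule.map_top, Submodule.range_subtype] at h3
    rw [← h3]
    simp [hv]
  have hum : Unimod v := by
    apply unimod_of_basis D
    intro r hr
    have h1 : r • b 0 = 0 := Subtype.ext hr
    have h2 := congrArg b.repr h1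
    have h3 := DFunLike.congr_fun h2 0
    simpa using h3
  have hpt : (⟨P, hP1, hP2⟩ : Point R) = pt v hum := Subtype.ext hspan
  rw [hpt]
  by_cases h0 : v 0 ∈ D.M
  · by_cases h1 : v 1 ∈ D.M
    · have h2 : IsUnit (v 2) := by
        obtain ⟨i, hi⟩ := hum
        fin_cases i
        · exact absurd hi (D.not_unit_of_mem h0)
        · exact absurd hi (D.not_unit_of_mem h1)
        · exact hi
      obtain ⟨c, hc⟩ := h2
      refine ⟨Sum.inr (Sum.inr (⟨(↑c⁻¹ : R) * v 0, D.mul_mem _ _ h0⟩,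
        ⟨(↑c⁻¹ : R) * v 1, D.mul_mem _ _ h1⟩)), ?_⟩
      symm
      refine pt_smul hum c⁻¹ _ (um3 _ _) ?_
      funext i
      fin_cases i
      · simp
      · simp
      · simp [← hc]
    · obtain ⟨c, hc⟩ := (D.unit_iff _).2 h1
      refine ⟨Sum.inr (Sum.inl (⟨(↑c⁻¹ : R) * v 0, D.mul_mem _ _ h0⟩, (↑c⁻¹ : R) * v 2)), ?_⟩
      symm
      refine pt_smul hum c⁻¹ _ (um2 _ _) ?_
      funext i
      fin_cases i
      · simp
      · simp [← hc]
      · simp
  · obtain ⟨c, hc⟩ := (D.unit_iff _).2 h0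
    refine ⟨Sum.inl ((↑c⁻¹ : R) * v 1, (↑c⁻¹ : R) * v 2), ?_⟩
    symm
    refine pt_smul hum c⁻¹ _ (um1 _ _) ?_
    funext i
    fin_cases i
    · simp [← hc]
    · simp
    · simp

theorem sumPoints (D : Dat R) [Nontrivial R] (F : Point R → ℕ) :
    ∑ᶠ P, F P = ∑ i : (R × R) ⊕ (D.M × R) ⊕ (D.M × D.M), ev F (cv D i) := by
  have h := finsum_comp_equiv (f := F)
    (Equiv.ofBijective (coord D) ⟨coord_injective D, coord_surjective D⟩)
  rw [← h, finsum_eq_sum_of_fintype]
  refine Finset.sum_congr rfl (fun i _ => ?_)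
  rcases i with (⟨x, y⟩ | ⟨u, y⟩ | ⟨u, v⟩)
  · exact (ev_eq F (um1 x y)).symm
  · exact (ev_eq F (um2 u.1 y)).symm
  · exact (ev_eq F (um3 u.1 v.1)).symm

theorem sumExpand (D : Dat R) (G : (Fin 3 → R) → ℕ) :
    ∑ i : (R × R) ⊕ (D.M × R) ⊕ (D.M × D.M), G (cv D i) =
      (∑ x : R, ∑ y : R, G ![1, x, y]) +
      ((∑ u ∈ D.M, ∑ y : R, G ![u, 1, y]) + ∑ u ∈ D.M, ∑ v ∈ D.M, G ![u, v, 1]) := by
  rw [Fintype.sum_sum_type, Fintype.sum_sum_type]
  congr 1
  · rw [Fintype.sum_prod_type]
    rfl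
  · congr 1
    · rw [Fintype.sum_prod_type, ← Finset.sum_coe_sort D.M]
      rfl
    · rw [Fintype.sum_prod_type, ← Finset.sum_coe_sort D.M]
      refine Finset.sum_congr rfl (fun x _ => ?_)
      rw [← Finset.sum_coe_sort D.M]
      rfl

theorem unimod_cv (D : Dat R) (i : (R × R) ⊕ (D.M × R) ⊕ (D.M × D.M)) : Unimod (cv D i) := by
  rcases i with (⟨x, y⟩ | ⟨u, y⟩ | ⟨u, v⟩)
  · exact um1 x y
  · exact um2 u.1 y
  · exact um3 u.1 v.1

end Pool.Agent.H649R3
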